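import Mathlib

set_option autoImplicit false

/-!
Codes for the elements of a group and a uniform measurable relation on codes.
-/

namespace Pool.Agent.R592.Gp

open Set Cardinal

/-- Basic data: (level label, class label, inverse class label), (leaf, guard, index), table. -/
abbrev R : Type := (ℝ × ℝ × ℝ) × (Bool × Bool × ℕ) × (ℕ × ℕ × ℕ → Bool)

/-- Codes. -/
abbrev C : Type := List (Fin 3) → R

/-- The `i`-th child of a code. -/
def sh (i : Fin 3) (u : C) : C := fun w => u (i :: w)

/-- The code with given root and children. -/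
def node (r : R) (u0 u1 u2 : C) : C
  | [] => r
  | i :: w => match i with
    | 0 => u0 w
    | 1 => u1 w
    | 2 => u2 w

@[simp] lemma node_nil (r : R) (u0 u1 u2 : C) : node r u0 u1 u2 [] = r := rfl
@[simp] lemma sh_node0 (r : R) (u0 u1 u2 : C) : sh 0 (node r u0 u1 u2) = u0 := rfl
@[simp] lemma sh_node1 (r : R) (u0 u1 u2 : C) : sh 1 (node r u0 u1 u2) = u1 := rfl
@[simp] lemma sh_node2 (r : R) (u0 u1 u2 : C) : sh 2 (node r u0 u1 u2) = u2 := rfl

lemma measurable_sh (i : Fin 3) : Measurable (sh i) :=
  measurable_pi_lambda _ (fun w => measurable_pi_apply (i :: w))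

/-- The leaf relation. -/
def Base (u v w : C) : Prop :=
  (u []).2.1.1 = true ∧ (v []).2.1.1 = true ∧ (w []).2.1.1 = true ∧
    (u []).2.2 ((u []).2.1.2.2, (v []).2.1.2.2, (w []).2.1.2.2) = true

/-- Same level. -/
def Same (u v w : C) : Prop :=
  (u []).2.1.1 = false ∧ (v []).2.1.1 = false ∧ (w []).2.1.1 = false ∧
    (u []).1.1 = (v []).1.1 ∧ (v []).1.1 = (w []).1.1

/-- Same class. -/
def Cls (u v : C) : Prop :=
  (u []).2.1.1 = false ∧ (u []).2.1.2.1 = true ∧ (v []).2.1.2.1 = true ∧
    (u []).1.2.1 = (v []).1.2.2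

/-- The relation on codes. -/
def T : ℕ → C → C → C → Prop
  | 0, u, v, w => Base u v w
  | n + 1, u, v, w => T n v w u ∨ (Same u v w ∧ T n (sh 0 u) (sh 0 v) (sh 0 w)) ∨
      (Cls u v ∧ T n w (sh 1 u) (sh 2 v))

/-- The union of the relations `T n`. -/
def TT (u v w : C) : Prop := ∃ n, T n u v w

section meas

variable {Ω : Type} [MeasurableSpace Ω]

lemma meas_root {f : Ω → C} (hf : Measurable f) : Measurable (fun x => f x []) :=
  (measurable_pi_apply []).comp hf

lemma meas_Base {f g h : Ω → C} (hf : Measurable f) (hg : Measurable g) (hh : Measurable h) :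
    MeasurableSet {x | Base (f x) (g x) (h x)} := by
  have h1 := meas_root hf
  have h2 := meas_root hg
  have h3 := meas_root hh
  have e : {x | Base (f x) (g x) (h x)} =
      ({x | (f x []).2.1.1 = true} ∩ {x | (g x []).2.1.1 = true} ∩ {x | (h x []).2.1.1 = true}) ∩
      ⋃ p : ℕ × ℕ × ℕ, ({x | (f x []).2.1.2.2 = p.1} ∩ {x | (g x []).2.1.2.2 = p.2.1} ∩
        {x | (h x []).2.1.2.2 = p.2.2} ∩ {x | (f x []).2.2 p = true}) := by
    ext x
    simp only [Base, mem_inter_iff, mem_iUnion, mem_ofPred_eq]
    constructor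
    · rintro ⟨a, b, c, d⟩
      exact ⟨⟨⟨a, b⟩, c⟩, _, ⟨⟨rfl, rfl⟩, rfl⟩, d⟩
    · rintro ⟨⟨⟨a, b⟩, c⟩, p, ⟨⟨p1, p2⟩, p3⟩, d⟩
      refine ⟨a, b, c, ?_⟩
      rw [p1, p2, p3]
      exact d
  rw [e]
  have k1 : ∀ {φ : Ω → R}, Measurable φ → Measurable (fun x => (φ x).2.1.1) := fun hφ =>
    measurable_fst.comp (measurable_fst.comp (measurable_snd.comp hφ))
  have k2 : ∀ {φ : Ω → R}, Measurable φ → Measurable (fun x => (φ x).2.1.2.2) := fun hφ =>
    measurable_snd.comp (measurable_snd.comp (measurable_fst.comp (measurable_snd.comp hφ)))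
  have k3 : ∀ {φ : Ω → R} (p : ℕ × ℕ × ℕ), Measurable φ → Measurable (fun x => (φ x).2.2 p) :=
    fun p hφ => (measurable_pi_apply p).comp (measurable_snd.comp (measurable_snd.comp hφ))
  refine MeasurableSet.inter (MeasurableSet.inter (MeasurableSet.inter ?_ ?_) ?_) ?_
  · exact k1 h1 (measurableSet_singleton true)
  · exact k1 h2 (measurableSet_singleton true)
  · exact k1 h3 (measurableSet_singleton true)
  · refine MeasurableSet.iUnion (fun p => ?_)
    refine MeasurableSet.inter (MeasurableSet.inter (MeasurableSet.inter ?_ ?_) ?_) ?_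
    · exact k2 h1 (measurableSet_singleton p.1)
    · exact k2 h2 (measurableSet_singleton p.2.1)
    · exact k2 h3 (measurableSet_singleton p.2.2)
    · exact k3 p h1 (measurableSet_singleton true)

lemma meas_Same {f g h : Ω → C} (hf : Measurable f) (hg : Measurable g) (hh : Measurable h) :
    MeasurableSet {x | Same (f x) (g x) (h x)} := by
  have h1 := meas_root hf
  have h2 := meas_root hg
  have h3 := meas_root hh
  have k1 : ∀ {φ : Ω → R}, Measurable φ → Measurable (fun x => (φ x).2.1.1) := fun hφ =>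
    measurable_fst.comp (measurable_fst.comp (measurable_snd.comp hφ))
  have k2 : ∀ {φ : Ω → R}, Measurable φ → Measurable (fun x => (φ x).1.1) := fun hφ =>
    measurable_fst.comp (measurable_fst.comp hφ)
  exact (k1 h1 (measurableSet_singleton false)).inter ((k1 h2 (measurableSet_singleton false)).inter
    ((k1 h3 (measurableSet_singleton false)).inter ((measurableSet_eq_fun (k2 h1) (k2 h2)).inter
      (measurableSet_eq_fun (k2 h2) (k2 h3)))))

lemma meas_Cls {f g : Ω → C} (hf : Measurable f) (hg : Measurable g) :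
    MeasurableSet {x | Cls (f x) (g x)} := by
  have h1 := meas_root hf
  have h2 := meas_root hg
  have k1 : ∀ {φ : Ω → R}, Measurable φ → Measurable (fun x => (φ x).2.1.1) := fun hφ =>
    measurable_fst.comp (measurable_fst.comp (measurable_snd.comp hφ))
  have k2 : ∀ {φ : Ω → R}, Measurable φ → Measurable (fun x => (φ x).2.1.2.1) := fun hφ =>
    measurable_fst.comp (measurable_snd.comp (measurable_fst.comp (measurable_snd.comp hφ)))
  have k3 : ∀ {φ : Ω → R}, Measurable φ → Measurable (fun x => (φ x).1.2.1) := fun hφ =>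
    measurable_fst.comp (measurable_snd.comp (measurable_fst.comp hφ))
  have k4 : ∀ {φ : Ω → R}, Measurable φ → Measurable (fun x => (φ x).1.2.2) := fun hφ =>
    measurable_snd.comp (measurable_snd.comp (measurable_fst.comp hφ))
  exact (k1 h1 (measurableSet_singleton false)).inter ((k2 h1 (measurableSet_singleton true)).inter
    ((k2 h2 (measurableSet_singleton true)).inter (measurableSet_eq_fun (k3 h1) (k4 h2))))

lemma meas_T (n : ℕ) : ∀ {f g h : Ω → C}, Measurable f → Measurable g → Measurable h →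
    MeasurableSet {x | T n (f x) (g x) (h x)} := by
  induction n with
  | zero => intro f g h hf hg hh; exact meas_Base hf hg hh
  | succ n ih =>
    intro f g h hf hg hh
    have e : {x | T (n + 1) (f x) (g x) (h x)} = {x | T n (g x) (h x) (f x)} ∪
        (({x | Same (f x) (g x) (h x)} ∩ {x | T n (sh 0 (f x)) (sh 0 (g x)) (sh 0 (h x))}) ∪
          ({x | Cls (f x) (g x)} ∩ {x | T n (h x) (sh 1 (f x)) (sh 2 (g x))})) := rfl
    rw [e]
    exact (ih hg hh hf).union (((meas_Same hf hg hh).inter (ih ((measurable_sh 0).comp hf)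
      ((measurable_sh 0).comp hg) ((measurable_sh 0).comp hh))).union ((meas_Cls hf hg).inter
        (ih hh ((measurable_sh 1).comp hf) ((measurable_sh 2).comp hg))))

lemma meas_TT {f g h : Ω → C} (hf : Measurable f) (hg : Measurable g) (hh : Measurable h) :
    MeasurableSet {x | TT (f x) (g x) (h x)} := by
  have e : {x | TT (f x) (g x) (h x)} = ⋃ n, {x | T n (f x) (g x) (h x)} := by
    ext x; simp [TT]
  rw [e]
  exact MeasurableSet.iUnion (fun n => meas_T n hf hg hh)

end meas

end Pool.Agent.R592.Gp
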