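import Mathlib

set_option autoImplicit false

/-!
Cardinal combinatorics for the singular case.
-/

namespace Pool.Agent.R592.Gp.Comb

open Set Cardinal

/-- Recursive choice along a well-order. -/
lemma rec_choice {A B : Type} (r : A → A → Prop) [IsWellOrder A r]
    (P : ∀ a : A, ({a' // r a' a} → B) → B → Prop)
    (hex : ∀ (a : A) (g : {a' // r a' a} → B), ∃ b, P a g b) :
    ∃ g : A → B, ∀ a, P a (fun x => g x.1) (g a) := by
  classical
  choose c hc using hex
  let st : (a : A) → ((a' : A) → r a' a → B) → B := fun a g => c a (fun x => g x.1 x.2)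
  have wf : WellFounded r := IsWellFounded.wf
  refine ⟨wf.fix st, fun a => ?_⟩
  have h : wf.fix st a = c a (fun x => wf.fix st x.1) := wf.fix_eq st a
  rw [h]
  exact hc a _

/-- The same with partial requirements: choice is possible when the earlier choices are good. -/
lemma rec_choice' {A B : Type} [Nonempty B] (r : A → A → Prop) [IsWellOrder A r]
    (P : ∀ a : A, ({a' // r a' a} → B) → B → Prop)
    (hex : ∀ (a : A) (g : {a' // r a' a} → B), ∃ b, P a g b) :
    ∃ g : A → B, ∀ a, P a (fun x => g x.1) (g a) := rec_choice r P hex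

lemma inj_choice {A B : Type} {μ : Cardinal.{0}} (hA : #A ≤ μ) (S : A → Set B)
    (hS : ∀ a, μ ≤ #(S a)) : ∃ g : A → B, Function.Injective g ∧ ∀ a, g a ∈ S a := by
  classical
  obtain ⟨r, wo, hr⟩ := exists_ord_eq A
  have hseg : ∀ a, #{a' // r a' a} < #A := by
    intro a
    have h1 := Ordinal.typein_lt_type r a
    rw [← hr, lt_ord] at h1
    exact h1
  obtain ⟨g, hg⟩ := rec_choice r (fun a g b => b ∈ S a ∧ ∀ x, b ≠ g x) (by
    intro a g
    by_contra hcon
    push Not at hcon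
    have h1 : S a ⊆ range g := by
      intro b hb
      obtain ⟨x, hx⟩ := hcon b hb
      exact ⟨x, hx.symm⟩
    have h2 : #(S a) ≤ #{a' // r a' a} := (mk_le_mk_of_subset h1).trans mk_range_le
    exact absurd ((hS a).trans h2) (not_le.2 ((hseg a).trans_le hA)))
  refine ⟨g, ?_, fun a => (hg a).1⟩
  intro a a' h
  rcases trichotomous_of r a a' with hb | hb | hb
  · exact absurd h.symm ((hg a').2 ⟨a, hb⟩)
  · exact hb
  · exact absurd h ((hg a).2 ⟨a', hb⟩)

lemma many_big {α β : Type} {κ : Cardinal.{0}} (hκ : ℵ₀ ≤ κ) (f : α → β) (hα : κ ≤ #α)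
    (hβ : #β < κ) (hf : ∀ b, #(f ⁻¹' {b}) < κ) {lm : Cardinal.{0}} (hl : lm < κ) :
    κ.ord.cof ≤ #{b : β | lm < #(f ⁻¹' {b})} := by
  by_contra hcon
  rw [not_le] at hcon
  set A : Set β := {b : β | lm < #(f ⁻¹' {b})} with hA
  have h1 : #(⋃ b : A, f ⁻¹' {b.1}) < κ := by
    refine (mk_iUnion_le _).trans_lt (mul_lt_of_lt hκ ?_ ?_)
    · exact (mk_set_le A).trans_lt hβ
    · exact iSup_lt_of_lt_cof_ord hcon (fun b => hf b.1)
  have h2 : #(⋃ b : (Aᶜ : Set β), f ⁻¹' {b.1}) < κ := by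
    refine (mk_iUnion_le _).trans_lt (mul_lt_of_lt hκ ((mk_set_le _).trans_lt hβ) ?_)
    refine lt_of_le_of_lt (ciSup_le' (a := lm) (fun b => ?_)) hl
    exact not_lt.1 b.2
  have h3 : (univ : Set α) ⊆ (⋃ b : A, f ⁻¹' {b.1}) ∪ (⋃ b : (Aᶜ : Set β), f ⁻¹' {b.1}) := by
    intro x _
    by_cases hx : f x ∈ A
    · exact Or.inl (mem_iUnion.2 ⟨⟨f x, hx⟩, rfl⟩)
    · exact Or.inr (mem_iUnion.2 ⟨⟨f x, hx⟩, rfl⟩)
  have h4 : #α < κ := by
    rw [← mk_univ]
    exact (mk_le_mk_of_subset h3).trans_lt ((mk_union_le _ _).trans_lt (add_lt_of_lt hκ h1 h2))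
  exact absurd hα (not_le.2 h4)

/-- A cofinal family of small sets. -/
lemma exists_cofinal {κ : Cardinal.{0}} (hκ : ℵ₀ ≤ κ) {α : Type} (hα : #α = κ) :
    ∃ (I : Type) (M : I → Set α), #I = κ.ord.cof ∧ (∀ i, #(M i) < κ) ∧ (⋃ i, M i) = Set.univ ∧
      ∀ c < κ, ∃ i, c ≤ #(M i) := by
  obtain ⟨s, hs, hs'⟩ := Order.exists_cof_eq κ.ord.ToType
  rw [Ordinal.cof_toType] at hs'
  have hE : #α = #κ.ord.ToType := by rw [hα, mk_ord_toType]
  obtain ⟨E⟩ := Cardinal.eq.1 hE
  have hIic : ∀ w : κ.ord.ToType, #(Iic w) < κ := by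
    intro w
    rw [← Iio_insert]
    refine (mk_insert_le).trans_lt (add_lt_of_lt hκ (mk_Iio_toType_ord_lt w) ?_)
    exact one_lt_aleph0.trans_le hκ
  refine ⟨s, fun i => E ⁻¹' (Iic i.1), hs', fun i => ?_, ?_, ?_⟩
  · rw [mk_preimage_equiv]
    exact hIic i.1
  · rw [eq_univ_iff_forall]
    intro x
    obtain ⟨w, hw, hw'⟩ := hs (E x)
    exact mem_iUnion.2 ⟨⟨w, hw⟩, hw'⟩
  · intro c hc
    have hc' : c.ord < Ordinal.type (fun a b : κ.ord.ToType => a < b) := by
      rw [Ordinal.type_toType]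
      exact ord_lt_ord.2 hc
    let w₀ : κ.ord.ToType := Ordinal.enum (· < ·) ⟨c.ord, hc'⟩
    obtain ⟨w, hw, hw'⟩ := hs w₀
    refine ⟨⟨w, hw⟩, ?_⟩
    rw [mk_preimage_equiv]
    have h1 : c = #{y // y < w₀} := by
      have h2 := Ordinal.card_typein (r := fun a b : κ.ord.ToType => a < b) w₀
      rw [← h2]
      have h3 := Ordinal.typein_enum (fun a b : κ.ord.ToType => a < b) hc'
      change c = ((Ordinal.typein (fun a b : κ.ord.ToType => a < b)).toRelEmbedding
        (Ordinal.enum (fun a b : κ.ord.ToType => a < b) ⟨c.ord, hc'⟩)).card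
      rw [h3, card_ord]
    rw [h1]
    exact mk_le_mk_of_subset (s := {y | y < w₀}) (t := Iic w) (fun y hy => (le_of_lt hy).trans hw')

end Pool.Agent.R592.Gp.Comb
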