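import Pool.Agent.R592.Gp.Spec

set_option autoImplicit false

/-!
Assembly: choice of the special elements.
-/

namespace Pool.Agent.R592.Gp

open Set Cardinal MeasureTheory

section build

variable {G : Type} [Group G]

/-- The sequence of special elements, by recursion. -/
noncomputable def xs (P : Subgroup G → G → Prop) (i : Ordinal.{0}) : G :=
  Classical.epsilon (P (Subgroup.closure {y | ∃ j : Set.Iio i, y = xs P j.1}))
termination_by i
decreasing_by exact j.2

/-- The subgroup generated by the first special elements. -/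
noncomputable def Hs (P : Subgroup G → G → Prop) (i : Ordinal.{0}) : Subgroup G :=
  Subgroup.closure {y | ∃ j : Set.Iio i, y = xs P j.1}

lemma xs_spec (P : Subgroup G → G → Prop) (i : Ordinal.{0}) (h : ∃ z, P (Hs P i) z) :
    P (Hs P i) (xs P i) := by
  rw [xs]
  exact Classical.epsilon_spec h

lemma card_Hs (P : Subgroup G → G → Prop) (i : Ordinal.{0}) : #(Hs P i) ≤ max ℵ₀ i.card := by
  refine (card_closure_le _).trans (max_le_max le_rfl ?_)
  have e : {y | ∃ j : Set.Iio i, y = xs P j.1} = range (fun j : Set.Iio i => xs P j.1) := by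
    ext y
    constructor
    · rintro ⟨j, rfl⟩; exact ⟨j, rfl⟩
    · rintro ⟨j, rfl⟩; exact ⟨j, rfl⟩
  rw [e]
  have h := mk_range_le_lift (f := fun j : Set.Iio i => xs P j.1)
  rw [mk_Iio_ordinal, lift_lift] at h
  exact lift_le.1 h

lemma Hs_mono (P : Subgroup G → G → Prop) {i k : Ordinal.{0}} (h : i ≤ k) : Hs P i ≤ Hs P k := by
  refine Subgroup.closure_mono ?_
  rintro y ⟨j, rfl⟩
  exact ⟨⟨j.1, lt_of_lt_of_le j.2 h⟩, rfl⟩

lemma xs_mem (P : Subgroup G → G → Prop) (i : Ordinal.{0}) : xs P i ∈ Hs P (Order.succ i) :=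
  Subgroup.subset_closure ⟨⟨i, Order.lt_succ i⟩, rfl⟩

theorem build (hG : #G ≤ 𝔠) {κ : Cardinal.{0}} (hκ : ℵ₀ < κ) (b : G)
    (dag : ∀ H : Subgroup G, #H < κ → ∃ z, z ∉ H ∧ (z * z = b ∨ z * z ∉ H))
    {Y : Set ℝ} (hY : #Y ≤ κ) (hY0 : volume Y ≠ 0) (hY1 : volume Y ≠ ⊤) :
    AbstractlyBorelian G := by
  classical
  obtain ⟨c, hc⟩ := coded_all _ hG G rfl
  obtain ⟨inj⟩ : Nonempty (G ↪ ℝ) := by
    rw [← mk_real] at hG
    exact (le_def G ℝ).1 hG
  let P : Subgroup G → G → Prop := fun H z => z ∉ H ∧ (z * z = b ∨ z * z ∉ H)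
  have hsmall : ∀ i < κ.ord, #(Hs P i) < κ := fun i hi =>
    (card_Hs P i).trans_lt (max_lt hκ (lt_ord.1 hi))
  have hx : ∀ i < κ.ord, P (Hs P i) (xs P i) := fun i hi => xs_spec P i (dag _ (hsmall i hi))
  let F : Ordinal.{0} → Subgroup G := fun o => if o ≤ κ.ord then Hs P o else ⊤
  have hF1 : ∀ o ≤ κ.ord, F o = Hs P o := fun o ho => if_pos ho
  have hF : Monotone F := by
    intro i k hik
    by_cases hk : k ≤ κ.ord
    · rw [hF1 k hk, hF1 i (hik.trans hk)]
      exact Hs_mono P hik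
    · have : F k = ⊤ := if_neg hk
      rw [this]
      exact le_top
  have hU : ∀ x, ∃ o, x ∈ F o := fun x => ⟨Order.succ κ.ord, by
    have : F (Order.succ κ.ord) = ⊤ := if_neg (not_le.2 (Order.lt_succ _))
    rw [this]; exact Subgroup.mem_top x⟩
  have hl : Lvl (lev F) := lvl_lev hF hU
  have hmem : ∀ z, z ∈ F (lev F z) := fun z => csInf_mem (s := {o | z ∈ F o}) (hU z)
  have hgt : ∀ i z, z ∉ F i → i < lev F z := by
    intro i z hz
    by_contra hcon
    exact hz (hF (not_lt.1 hcon) (hmem z))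
  have l1 : ∀ i < κ.ord, lev F (xs P i) = Order.succ i := by
    intro i hi
    refine le_antisymm (csInf_le' ?_) (Order.succ_le_of_lt (hgt i _ ?_))
    · change xs P i ∈ F (Order.succ i)
      rw [hF1 _ (Order.succ_le_of_lt hi)]
      exact xs_mem P i
    · rw [hF1 i hi.le]
      exact (hx i hi).1
  have l2 : lev F 1 = 0 := by
    refine le_antisymm (csInf_le' ?_) zero_le
    exact (F 0).one_mem
  -- labels
  obtain ⟨e⟩ : Nonempty (Y ↪ κ.out) := by
    rw [← mk_out κ] at hY
    exact (le_def _ _).1 hY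
  obtain ⟨r, wo, hr⟩ := exists_ord_eq κ.out
  rw [mk_out] at hr
  let j : Y → Ordinal.{0} := fun y => Ordinal.typein r (e y)
  have hj : Function.Injective j := fun y y' h =>
    e.injective (Ordinal.typein_injective r h)
  have hj' : ∀ y, j y < κ.ord := fun y => by
    have := Ordinal.typein_lt_type r (e y)
    rwa [← hr] at this
  let L : Set Ordinal.{0} := {o | ∃ y, o = Order.succ (j y)}
  let s : Ordinal.{0} → G := fun o => if h : ∃ i, o = Order.succ i then xs P (Classical.choose h)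
    else 1
  have hs : ∀ i, s (Order.succ i) = xs P i := by
    intro i
    have h : ∃ k, Order.succ i = Order.succ k := ⟨i, rfl⟩
    have h2 : i = Classical.choose h := Order.succ_injective (Classical.choose_spec h)
    simp only [s]
    rw [dif_pos h, ← h2]
  let th : Ordinal.{0} → ℝ := fun o => if h : ∃ y, o = Order.succ (j y) then
    (Classical.choose h : Y).1 else 0
  have hth : ∀ y, th (Order.succ (j y)) = y.1 := by
    intro y
    have h : ∃ y', Order.succ (j y) = Order.succ (j y') := ⟨y, rfl⟩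
    have h2 : y = Classical.choose h :=
      hj (Order.succ_injective (Classical.choose_spec h))
    simp only [th]
    rw [dif_pos h, ← h2]
  have hL : th '' L = Y := by
    ext r
    constructor
    · rintro ⟨o, ⟨y, rfl⟩, rfl⟩
      rw [hth]; exact y.2
    · intro hr
      exact ⟨_, ⟨⟨r, hr⟩, rfl⟩, hth ⟨r, hr⟩⟩
  obtain ⟨g0, hg0⟩ := exists_reps hl
  let D : Data G :=
    { l := lev F
      hl := hl
      L := L
      s := s
      th := th
      b := b
      hs := by
        rintro o ⟨y, rfl⟩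
        rw [hs, l1 _ (hj' y)]
      h1 := by
        rintro o ⟨y, rfl⟩
        rw [l2]
        exact lt_of_le_of_lt zero_le (Order.lt_succ (j y))
      hb := by
        rintro o ⟨y, rfl⟩
        rw [hs]
        rcases (hx _ (hj' y)).2 with h | h
        · exact Or.inl h
        · right
          refine le_antisymm ?_ (Order.succ_le_of_lt (hgt _ _ ?_))
          · refine (hl.mul _ _).trans ?_
            rw [max_self, l1 _ (hj' y)]
          · rw [hF1 _ (hj' y).le]
            exact h
      hth := by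
        rintro o ⟨y, rfl⟩ o' ⟨y', rfl⟩ h
        rw [hth y, hth y'] at h
        rw [Subtype.ext h]
      inj := inj
      hinj := inj.injective
      inner := c
      hinner := hc
      g0 := g0
      hg0 := hg0 }
  refine D.abs ?_ ?_
  · change volume (th '' L) ≠ 0
    rw [hL]; exact hY0
  · change volume (th '' L) ≠ ⊤
    rw [hL]; exact hY1

lemma dag_regular {κ : Cardinal.{0}} (hκ : ℵ₀ < κ) (hr : κ.IsRegular) (hG : κ ≤ #G) :
    ∃ b : G, ∀ H : Subgroup G, #H < κ → ∃ z, z ∉ H ∧ (z * z = b ∨ z * z ∉ H) := by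
  by_contra hcon
  push Not at hcon
  choose K hK1 hK2 using hcon
  let N : Subgroup G := K 1
  have hN : ∀ z, z ∉ N → z * z ∈ N := fun z hz => (hK2 1 z hz).2
  let β : Type := {z : G // z ∉ N}
  have hβ : κ ≤ #β := by
    by_contra hlt
    have h1 : #G ≤ #N + #β := by
      have : #(((N : Set G) ∪ (N : Set G)ᶜ : Set G)) ≤ #N + #β := mk_union_le _ _
      rwa [union_compl_self, mk_univ] at this
    have h2 : #N + #β < κ := add_lt_of_lt hκ.le (hK1 1) (not_le.1 hlt)
    exact absurd (hG.trans h1) (not_le.2 h2)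
  let f : β → N := fun z => ⟨z.1 * z.1, hN z.1 z.2⟩
  obtain ⟨b, hb⟩ := infinite_pigeonhole_card f κ hβ hκ.le (by
    rw [hr.cof_ord]; exact hK1 1)
  have h3 : #(f ⁻¹' {b}) ≤ #(K b.1) := by
    have hm : ∀ z : (f ⁻¹' {b} : Set β), z.1.1 ∈ K b.1 := by
      intro z
      by_contra hz
      exact (hK2 b.1 z.1.1 hz).1 (Subtype.ext_iff.1 z.2)
    exact mk_le_of_injective (f := fun z : (f ⁻¹' {b} : Set β) => (⟨z.1.1, hm z⟩ : K b.1))
      (fun z z' h => Subtype.ext (Subtype.ext (congrArg (fun w : K b.1 => w.1) h)))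
  exact absurd (hb.trans h3) (not_le.2 (hK1 b.1))

lemma dag_fiber {κ : Cardinal.{0}} {b : G} (h : κ ≤ #{x : G // x * x = b}) :
    ∀ H : Subgroup G, #H < κ → ∃ z, z ∉ H ∧ (z * z = b ∨ z * z ∉ H) := by
  intro H hH
  by_contra hcon
  push Not at hcon
  have hm : ∀ z : {x : G // x * x = b}, z.1 ∈ H := by
    intro z
    by_contra hz
    exact (hcon z.1 hz).1 z.2
  have := mk_le_of_injective (f := fun z : {x : G // x * x = b} => (⟨z.1, hm z⟩ : H))
    (fun z z' h => Subtype.ext (congrArg (fun w : H => w.1) h))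
  exact absurd (h.trans this) (not_le.2 hH)

lemma dag_squares {κ : Cardinal.{0}} (h : κ ≤ #{y : G // ∃ x, y = x * x}) :
    ∀ H : Subgroup G, #H < κ → ∃ z, z ∉ H ∧ (z * z = 1 ∨ z * z ∉ H) := by
  intro H hH
  by_contra hcon
  push Not at hcon
  have hm : ∀ z : {y : G // ∃ x, y = x * x}, z.1 ∈ H := by
    rintro ⟨_, x, rfl⟩
    by_cases hx : x ∈ H
    · exact H.mul_mem hx hx
    · exact (hcon x hx).2
  have := mk_le_of_injective (f := fun z : {y : G // ∃ x, y = x * x} => (⟨z.1, hm z⟩ : H))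
    (fun z z' h => Subtype.ext (congrArg (fun w : H => w.1) h))
  exact absurd (h.trans this) (not_le.2 hH)

lemma vol_Icc : volume (Icc (0 : ℝ) 1) ≠ 0 ∧ volume (Icc (0 : ℝ) 1) ≠ ⊤ := by
  rw [Real.volume_Icc]
  constructor
  · simp
  · exact ENNReal.ofReal_ne_top

/-- The `ZFC` part: the group table of every group of size at most the continuum is Borelian with
respect to some sequence of subsets. -/
theorem borelian_all (hG : #G ≤ 𝔠) :
    ∃ A : ℕ → Set G, Borelian A {p | p.1 * p.2.1 = p.2.2} := by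
  obtain ⟨c, hc⟩ := coded_all _ hG G rfl
  let F : G → C × C := fun x => (c x, c x⁻¹)
  let mB : MeasurableSpace G := MeasurableSpace.comap F inferInstance
  have hF : @Measurable G (C × C) mB _ F := comap_measurable F
  have hcg : @MeasurableSpace.CountablyGenerated G mB := MeasurableSpace.CountablyGenerated.comap F
  let A : ℕ → Set G := @MeasurableSpace.natGeneratingSequence G mB hcg
  have hA : sig A = mB := @MeasurableSpace.generateFrom_natGeneratingSequence G mB hcg
  refine ⟨A, ?_⟩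
  unfold Borelian
  rw [hA]
  have e : {p : G × G × G | p.1 * p.2.1 = p.2.2} =
      {p | TT (F p.1).1 (F p.2.1).1 (F p.2.2).2} := by
    ext p
    simp only [mem_ofPred_eq, F]
    rw [← hc]
    exact (mul_inv_eq_one).symm
  rw [e]
  have p1 : @Measurable (G × G × G) G (mB.prod (mB.prod mB)) mB (fun p => p.1) :=
    @measurable_fst G (G × G) mB (mB.prod mB)
  have p2' : @Measurable (G × G × G) (G × G) (mB.prod (mB.prod mB)) (mB.prod mB)
      (fun p => p.2) := @measurable_snd G (G × G) mB (mB.prod mB)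
  have p2 : @Measurable (G × G × G) G (mB.prod (mB.prod mB)) mB (fun p => p.2.1) :=
    (@measurable_fst G G mB mB).comp p2'
  have p3 : @Measurable (G × G × G) G (mB.prod (mB.prod mB)) mB (fun p => p.2.2) :=
    (@measurable_snd G G mB mB).comp p2'
  exact @meas_TT (G × G × G) (mB.prod (mB.prod mB)) _ _ _
    (measurable_fst.comp (hF.comp p1)) (measurable_fst.comp (hF.comp p2))
    (measurable_snd.comp (hF.comp p3))

lemma abs_small (hG : #G = 𝔠) {Y : Set ℝ} (hY : #Y < 𝔠) (hY0 : volume Y ≠ 0) :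
    AbstractlyBorelian G := by
  obtain ⟨n, hn⟩ : ∃ n : ℕ, volume (Y ∩ Icc (-(n : ℝ)) n) ≠ 0 := by
    by_contra hcon
    push Not at hcon
    refine hY0 (measure_mono_null (t := ⋃ n : ℕ, Y ∩ Icc (-(n : ℝ)) n) ?_
      (measure_iUnion_null hcon))
    intro y hy
    obtain ⟨n, hn⟩ := exists_nat_ge |y|
    exact mem_iUnion.2 ⟨n, hy, abs_le.1 hn⟩
  have hfin : volume (Y ∩ Icc (-(n : ℝ)) n) ≠ ⊤ := by
    refine ne_top_of_le_ne_top ?_ (measure_mono inter_subset_right)
    rw [Real.volume_Icc]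
    exact ENNReal.ofReal_ne_top
  let κ : Cardinal.{0} := Order.succ (max ℵ₀ #Y)
  have hκ : ℵ₀ < κ := lt_of_le_of_lt (le_max_left _ _) (Order.lt_succ _)
  have hreg : κ.IsRegular := isRegular_succ (le_max_left _ _)
  have hle : κ ≤ #G := by
    rw [hG]
    exact Order.succ_le_of_lt (max_lt aleph0_lt_continuum hY)
  obtain ⟨b, hb⟩ := dag_regular hκ hreg hle
  refine build hG.le hκ b hb (Y := Y ∩ Icc (-(n : ℝ)) n) ?_ hn hfin
  exact (mk_le_mk_of_subset inter_subset_left).trans ((le_max_right _ _).trans (Order.le_succ _))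

lemma abs_regular (hG : #G = 𝔠) (hr : (𝔠 : Cardinal.{0}).IsRegular) : AbstractlyBorelian G := by
  obtain ⟨b, hb⟩ := dag_regular aleph0_lt_continuum hr hG.ge
  exact build hG.le aleph0_lt_continuum b hb (Y := Icc 0 1) ((mk_set_le _).trans mk_real.le)
    vol_Icc.1 vol_Icc.2

lemma abs_fiber (hG : #G = 𝔠) {b : G} (h : 𝔠 ≤ #{x : G // x * x = b}) :
    AbstractlyBorelian G :=
  build hG.le aleph0_lt_continuum b (dag_fiber h) (Y := Icc 0 1)
    ((mk_set_le _).trans mk_real.le) vol_Icc.1 vol_Icc.2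

lemma abs_squares (hG : #G = 𝔠) (h : 𝔠 ≤ #{y : G // ∃ x, y = x * x}) :
    AbstractlyBorelian G :=
  build hG.le aleph0_lt_continuum 1 (dag_squares h) (Y := Icc 0 1)
    ((mk_set_le _).trans mk_real.le) vol_Icc.1 vol_Icc.2

end build

end Pool.Agent.R592.Gp
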