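import Pool.Agent.R592.Gp.Code

set_option autoImplicit false

/-!
Ultrametric level functions on groups.
-/

namespace Pool.Agent.R592.Gp

open Set Cardinal

/-- Cardinality of the generated subgroup. -/
lemma card_closure_le {G : Type} [Group G] (s : Set G) :
    #(Subgroup.closure s) ≤ max ℵ₀ #s := by
  have h1 : (FreeGroup.lift (Subtype.val : s → G)).range = Subgroup.closure s := by
    rw [FreeGroup.range_lift_eq_closure, Subtype.range_coe]
  have h2 : #(Subgroup.closure s) ≤ #(FreeGroup s) := by
    rw [← h1]
    exact mk_le_of_surjective (MonoidHom.rangeRestrict_surjective _)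
  have h3 : #(FreeGroup s) ≤ #(List (s × Bool)) :=
    mk_le_of_surjective (f := FreeGroup.mk) (fun x => Quot.exists_rep x)
  refine h2.trans (h3.trans ((mk_list_le_max _).trans ?_))
  refine max_le (le_max_left _ _) ?_
  rw [mk_prod, lift_id, lift_id]
  refine (mul_le_max _ _).trans ?_
  refine max_le (max_le (le_max_right _ _) ?_) (le_max_left _ _)
  exact (lt_aleph0_of_finite Bool).le.trans (le_max_left _ _)

/-- An ultrametric level function. -/
structure Lvl {G : Type} [Group G] (l : G → Ordinal.{0}) : Prop where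
  mul : ∀ x y, l (x * y) ≤ max (l x) (l y)
  inv : ∀ x, l x⁻¹ = l x

/-- The level function of an increasing family of subgroups. -/
noncomputable def lev {G : Type} [Group G] (F : Ordinal.{0} → Subgroup G) (x : G) : Ordinal.{0} :=
  sInf {o | x ∈ F o}

section lev

variable {G : Type} [Group G] {F : Ordinal.{0} → Subgroup G}

lemma mem_lev (hF : Monotone F) (hU : ∀ x, ∃ o, x ∈ F o) (x y : G) :
    y ∈ F (lev F x) ↔ lev F y ≤ lev F x := by
  have h0 : ∀ z, z ∈ F (lev F z) := fun z => csInf_mem (s := {o | z ∈ F o}) (hU z)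
  constructor
  · intro h
    exact csInf_le' h
  · intro h
    exact hF h (h0 y)

lemma lvl_lev (hF : Monotone F) (hU : ∀ x, ∃ o, x ∈ F o) : Lvl (lev F) where
  mul x y := by
    have h0 : ∀ z, z ∈ F (lev F z) := fun z => csInf_mem (s := {o | z ∈ F o}) (hU z)
    have : x * y ∈ F (max (lev F x) (lev F y)) :=
      (F _).mul_mem (hF (le_max_left _ _) (h0 x)) (hF (le_max_right _ _) (h0 y))
    exact csInf_le' this
  inv x := by
    have : {o | x⁻¹ ∈ F o} = {o | x ∈ F o} := by
      ext o; simp
    simp only [lev, this]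

end lev

lemma Lvl.one_le {G : Type} [Group G] {l : G → Ordinal.{0}} (h : Lvl l) (x : G) : l 1 ≤ l x := by
  have := h.mul x x⁻¹
  rwa [mul_inv_cancel, h.inv, max_self] at this

/-- The subgroup of elements of level at most `δ` (for `δ` at least the level of `1`). -/
def Lvl.sub {G : Type} [Group G] {l : G → Ordinal.{0}} (h : Lvl l) (x : G) : Subgroup G where
  carrier := {y | l y ≤ l x}
  mul_mem' := fun {a b} ha hb => (h.mul a b).trans (max_le ha hb)
  one_mem' := h.one_le x
  inv_mem' := fun {a} ha => by
    change l a⁻¹ ≤ l x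
    rw [h.inv]; exact ha

/-- Every uncountable group has a level function with small initial segments. -/
lemma exists_lvl {G : Type} [Group G] (hG : ℵ₀ < #G) :
    ∃ l : G → Ordinal.{0}, Lvl l ∧ ∀ x, #{y // l y ≤ l x} < #G := by
  obtain ⟨r, wo, hr⟩ := exists_ord_eq G
  let F : Ordinal.{0} → Subgroup G := fun o => Subgroup.closure {y | Ordinal.typein r y < o}
  have hF : Monotone F := fun a b hab => Subgroup.closure_mono (fun y (hy : Ordinal.typein r y < a) => lt_of_lt_of_le hy hab)
  have hx : ∀ x, x ∈ F (Order.succ (Ordinal.typein r x)) := fun x =>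
    Subgroup.subset_closure (by
      change Ordinal.typein r x < Order.succ (Ordinal.typein r x)
      exact Order.lt_succ _)
  have hU : ∀ x, ∃ o, x ∈ F o := fun x => ⟨_, hx x⟩
  refine ⟨lev F, lvl_lev hF hU, fun x => ?_⟩
  have h1 : {y | lev F y ≤ lev F x} = (F (lev F x) : Set G) := by
    ext y; exact (mem_lev hF hU x y).symm
  have h2 : #{y // lev F y ≤ lev F x} = #(F (lev F x)) := by
    change #({y | lev F y ≤ lev F x} : Set G) = _
    rw [h1]; rfl
  rw [h2]
  refine (card_closure_le _).trans_lt (max_lt hG ?_)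
  have h3 : lev F x ≤ Order.succ (Ordinal.typein r x) :=
    csInf_le' (hx x)
  have h5 : {y | Ordinal.typein r y < lev F x} ⊆ {y | r y x} ∪ {x} := by
    intro y hy
    have h6 : Ordinal.typein r y < Order.succ (Ordinal.typein r x) := lt_of_lt_of_le hy h3
    rw [Order.lt_succ_iff] at h6
    rcases h6.lt_or_eq with h7 | h7
    · exact Or.inl ((Ordinal.typein_lt_typein r).1 h7)
    · exact Or.inr (Ordinal.typein_injective r h7)
  refine (mk_le_mk_of_subset h5).trans_lt ((mk_union_le _ _).trans_lt ?_)
  refine add_lt_of_lt hG.le ?_ ?_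
  · have h8 : #{y // r y x} = (Ordinal.typein r x).card := Ordinal.card_typein x
    change #{y // r y x} < #G
    rw [h8]
    exact card_typein_lt x hr
  · rw [mk_singleton]
    exact one_lt_aleph0.trans hG

end Pool.Agent.R592.Gp
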