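import Pool.Agent.R592.Gp.Level

set_option autoImplicit false

/-!
Every group of cardinality at most the continuum is coded: the relation `x * y * z = 1` is the
preimage of the uniform relation `TT`.
-/

namespace Pool.Agent.R592.Gp

open Set Cardinal

lemma TT_rot {u v w : C} (h : TT v w u) : TT u v w := by
  obtain ⟨n, hn⟩ := h
  exact ⟨n + 1, Or.inl hn⟩

lemma TT_same {u v w : C} (h : Same u v w) (h' : TT (sh 0 u) (sh 0 v) (sh 0 w)) : TT u v w := by
  obtain ⟨n, hn⟩ := h'
  exact ⟨n + 1, Or.inr (Or.inl ⟨h, hn⟩)⟩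

lemma TT_cls {u v w : C} (h : Cls u v) (h' : TT w (sh 1 u) (sh 2 v)) : TT u v w := by
  obtain ⟨n, hn⟩ := h'
  exact ⟨n + 1, Or.inr (Or.inr ⟨h, hn⟩)⟩

/-- A group is coded. -/
def Coded (G : Type) [Group G] : Prop :=
  ∃ c : G → C, ∀ x y z : G, x * y * z = 1 ↔ TT (c x) (c y) (c z)

lemma rot_one {G : Type} [Group G] {x y z : G} (h : y * z * x = 1) : x * y * z = 1 := by
  have h1 : y * z = x⁻¹ := eq_inv_of_mul_eq_one_left h
  rw [mul_assoc, h1, mul_inv_cancel]

open Classical in
lemma coded_countable (G : Type) [Group G] [Countable G] : Coded G := by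
  obtain ⟨e, he⟩ := exists_injective_nat G
  refine ⟨fun x _ => ((0, 0, 0), (true, false, e x),
    fun p => decide (∃ x y z : G, e x = p.1 ∧ e y = p.2.1 ∧ e z = p.2.2 ∧ x * y * z = 1)), ?_⟩
  intro x y z
  constructor
  · intro h
    refine ⟨0, rfl, rfl, rfl, ?_⟩
    exact decide_eq_true ⟨x, y, z, rfl, rfl, rfl, h⟩
  · rintro ⟨n, hn⟩
    induction n generalizing x y z with
    | zero =>
      obtain ⟨-, -, -, h⟩ := hn
      obtain ⟨x', y', z', h1, h2, h3, h4⟩ := of_decide_eq_true h
      rw [← he h1, ← he h2, ← he h3]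
      exact h4
    | succ n ih =>
      rcases hn with h | ⟨h, -⟩ | ⟨h, -⟩
      · exact rot_one (ih y z x h)
      · exact absurd h.1 (by simp)
      · exact absurd h.1 (by simp)

section step

variable {G : Type} [Group G] {l : G → Ordinal.{0}}

/-- The equivalence relation: same coset of the subgroup of elements of lower level. -/
def Rel (l : G → Ordinal.{0}) (x y : G) : Prop := x = y ∨ (l x = l y ∧ l (x * y⁻¹) < l x)

lemma rel_refl (x : G) : Rel l x x := Or.inl rfl

lemma rel_symm (hl : Lvl l) {x y : G} (h : Rel l x y) : Rel l y x := by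
  rcases h with h | ⟨h1, h2⟩
  · exact Or.inl h.symm
  · refine Or.inr ⟨h1.symm, ?_⟩
    have : y * x⁻¹ = (x * y⁻¹)⁻¹ := by group
    rw [this, hl.inv, ← h1]; exact h2

lemma rel_trans (hl : Lvl l) {x y z : G} (h : Rel l x y) (h' : Rel l y z) : Rel l x z := by
  rcases h with h | ⟨h1, h2⟩
  · rw [h]; exact h'
  · rcases h' with h' | ⟨h3, h4⟩
    · rw [← h']; exact Or.inr ⟨h1, h2⟩
    · refine Or.inr ⟨h1.trans h3, ?_⟩
      have : x * z⁻¹ = (x * y⁻¹) * (y * z⁻¹) := by group
      rw [this]
      refine (hl.mul _ _).trans_lt (max_lt h2 ?_)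
      rw [h1]; exact h4

/-- A choice of representatives. -/
structure Reps (l : G → Ordinal.{0}) (g : G → G) : Prop where
  rel : ∀ x, Rel l x (g x)
  eq : ∀ x y, Rel l x y → g x = g y

lemma exists_reps (hl : Lvl l) : ∃ g : G → G, Reps l g := by
  let s : Setoid G := ⟨Rel l, rel_refl, rel_symm hl, rel_trans hl⟩
  refine ⟨fun x => Quotient.out (Quotient.mk s x), ?_, ?_⟩
  · intro x
    exact rel_symm hl (Quotient.exact (Quotient.out_eq (Quotient.mk s x)))
  · intro x y h
    have : Quotient.mk s x = Quotient.mk s y := Quotient.sound h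
    simp only [this]

lemma lt_a (_hl : Lvl l) {g : G → G} (hg : Reps l g) {x : G} (hx : l 1 < l x) :
    l (x * (g x)⁻¹) < l x := by
  rcases hg.rel x with h | ⟨-, h⟩
  · rw [← h, mul_inv_cancel]; exact hx
  · exact h

lemma lt_a' (hl : Lvl l) {g : G → G} (hg : Reps l g) {x : G} (hx : l 1 < l x) :
    l (g x⁻¹ * x) < l x := by
  have h := lt_a hl hg (x := x⁻¹) (by rw [hl.inv]; exact hx)
  have e : g x⁻¹ * x = (x⁻¹ * (g x⁻¹)⁻¹)⁻¹ := by group
  rw [e, hl.inv]
  rw [hl.inv] at h
  exact h

lemma cls_sound {g : G → G} {x y z : G} (h : g x = g y⁻¹)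
    (h' : z * (x * (g x)⁻¹) * (g y⁻¹ * y) = 1) : x * y * z = 1 := by
  refine rot_one (rot_one ?_)
  have e : z * (x * (g x)⁻¹) * (g y⁻¹ * y) = z * x * y := by
    rw [h]; group
  rw [← e]; exact h'

lemma cls_complete (hl : Lvl l) {g : G → G} (hg : Reps l g) {x y z : G} (h : x * y * z = 1)
    (hxy : l x = l y) (hz : l z < l x) :
    g x = g y⁻¹ ∧ z * (x * (g x)⁻¹) * (g y⁻¹ * y) = 1 := by
  have h1 : x * y = z⁻¹ := eq_inv_of_mul_eq_one_left h
  have h2 : Rel l x y⁻¹ := by
    refine Or.inr ⟨by rw [hl.inv, hxy], ?_⟩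
    rw [inv_inv, h1, hl.inv]; exact hz
  have h3 := hg.eq _ _ h2
  refine ⟨h3, ?_⟩
  have e : z * (x * (g x)⁻¹) * (g y⁻¹ * y) = z * (x * y) := by
    rw [h3]; group
  rw [e, h1, mul_inv_cancel]

/-- The case distinction for a triple with product one. -/
lemma cases_top (hl : Lvl l) {x y z : G} (h : x * y * z = 1) :
    (l x = l y ∧ l y = l z) ∨ (l x = l y ∧ l z < l x) ∨ (l y = l z ∧ l x < l y) ∨
      (l z = l x ∧ l y < l z) := by
  have h1 : l z ≤ max (l x) (l y) := by
    have : z = (x * y)⁻¹ := eq_inv_of_mul_eq_one_right h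
    rw [this, hl.inv]; exact hl.mul _ _
  have h2 : l x ≤ max (l y) (l z) := by
    have : x = (y * z)⁻¹ := eq_inv_of_mul_eq_one_left (by rw [← mul_assoc]; exact h)
    rw [this, hl.inv]; exact hl.mul _ _
  have h3 : l y ≤ max (l z) (l x) := by
    have h' : y * z * x = 1 := rot_one (rot_one h)
    have h'' : z * x * y = 1 := rot_one (rot_one h')
    have : y = (z * x)⁻¹ := eq_inv_of_mul_eq_one_right h''
    rw [this, hl.inv]; exact hl.mul _ _
  rcases lt_trichotomy (l x) (l y) with h4 | h4 | h4
  · right; right; left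
    have h5 : l y ≤ l z := by
      rcases le_max_iff.1 h3 with h | h
      · exact h
      · exact absurd h (not_le.2 h4)
    have h6 : l z ≤ l y := by
      rcases le_max_iff.1 h1 with h | h
      · exact h.trans h4.le
      · exact h
    exact ⟨le_antisymm h5 h6, h4⟩
  · rcases lt_trichotomy (l y) (l z) with h5 | h5 | h5
    · exfalso
      rcases le_max_iff.1 h1 with h | h
      · rw [h4] at h; exact absurd h (not_le.2 h5)
      · exact absurd h (not_le.2 h5)
    · exact Or.inl ⟨h4, h5⟩
    · exact Or.inr (Or.inl ⟨h4, by rw [h4]; exact h5⟩)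
  · right; right; right
    have h5 : l x ≤ l z := by
      rcases le_max_iff.1 h2 with h | h
      · exact absurd h (not_le.2 h4)
      · exact h
    have h6 : l z ≤ l x := by
      rcases le_max_iff.1 h1 with h | h
      · exact h
      · exact h.trans h4.le
    exact ⟨le_antisymm h6 h5, lt_of_lt_of_le h4 h5⟩

open Classical in
/-- A representative of each level. -/
noncomputable def rl (l : G → Ordinal.{0}) (o : Ordinal.{0}) : G :=
  if h : ∃ y, l y = o then choose h else 1

lemma rl_spec (l : G → Ordinal.{0}) (x : G) : l (rl l (l x)) = l x := by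
  have h : ∃ y, l y = l x := ⟨x, rfl⟩
  unfold rl
  rw [dif_pos h]
  exact Classical.choose_spec h

open Classical in
/-- The code of an element, by recursion on the level. -/
noncomputable def code (l : G → Ordinal.{0}) (g : G → G) (root : G → R) (inner : G → C) (x : G) :
    C :=
  node (root x) (inner x)
    (if _h : l (x * (g x)⁻¹) < l x then code l g root inner (x * (g x)⁻¹) else default)
    (if _h : l (g x⁻¹ * x) < l x then code l g root inner (g x⁻¹ * x) else default)
termination_by l x

lemma code_eq (l : G → Ordinal.{0}) (g : G → G) (root : G → R) (inner : G → C) (x : G) :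
    code l g root inner x = node (root x) (inner x)
      (sh 1 (code l g root inner x)) (sh 2 (code l g root inner x)) := by
  rw [code]; simp

lemma code_nil (l : G → Ordinal.{0}) (g : G → G) (root : G → R) (inner : G → C) (x : G) :
    code l g root inner x [] = root x := by
  rw [code]; simp

lemma code_sh0 (l : G → Ordinal.{0}) (g : G → G) (root : G → R) (inner : G → C) (x : G) :
    sh 0 (code l g root inner x) = inner x := by
  rw [code]; simp

lemma code_sh1 (g : G → G) (root : G → R) (inner : G → C) {x : G}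
    (hx : l (x * (g x)⁻¹) < l x) :
    sh 1 (code l g root inner x) = code l g root inner (x * (g x)⁻¹) := by
  conv_lhs => rw [code]
  simp [hx]

lemma code_sh2 (g : G → G) (root : G → R) (inner : G → C) {x : G}
    (hx : l (g x⁻¹ * x) < l x) :
    sh 2 (code l g root inner x) = code l g root inner (g x⁻¹ * x) := by
  conv_lhs => rw [code]
  simp [hx]

lemma coded_step (hG : #G ≤ 𝔠) (hl : Lvl l) (hs : ∀ x, Coded (hl.sub x)) : Coded G := by
  classical
  obtain ⟨inj⟩ : Nonempty (G ↪ ℝ) := by
    rw [← mk_real] at hG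
    exact (le_def G ℝ).1 hG
  obtain ⟨g, hg⟩ := exists_reps hl
  choose cs hcs using hs
  have hmem : ∀ x, x ∈ hl.sub (rl l (l x)) := fun x => by
    change l x ≤ l (rl l (l x))
    rw [rl_spec l x]
  let inner : G → C := fun x => cs (rl l (l x)) ⟨x, hmem x⟩
  let root : G → R := fun x =>
    ((inj (rl l (l x)), inj (g x), inj (g x⁻¹)), (false, decide (l 1 < l x), 0), fun _ => false)
  let c : G → C := code l g root inner
  have hinner : ∀ x y z, l x = l y → l y = l z →
      (x * y * z = 1 ↔ TT (inner x) (inner y) (inner z)) := by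
    intro x y z h1 h2
    have e1 : rl l (l x) = rl l (l y) := by rw [h1]
    have e2 : rl l (l y) = rl l (l z) := by rw [h2]
    have hx := hmem x
    have hy := hmem y
    have hz := hmem z
    have key : ∀ (p q r : G) (hp : x ∈ hl.sub p) (hq : y ∈ hl.sub q) (hr : z ∈ hl.sub r),
        p = q → q = r → (x * y * z = 1 ↔ TT (cs p ⟨x, hp⟩) (cs q ⟨y, hq⟩) (cs r ⟨z, hr⟩)) := by
      intro p q r hp hq hr hpq hqr
      subst hpq
      subst hqr
      rw [← hcs p ⟨x, hp⟩ ⟨y, hq⟩ ⟨z, hr⟩]
      rw [Subtype.ext_iff]
      rfl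
    exact key _ _ _ hx hy hz e1 e2
  refine ⟨c, ?_⟩
  have hnil : ∀ x, c x [] = root x := fun x => code_nil l g root inner x
  have sound : ∀ n x y z, T n (c x) (c y) (c z) → x * y * z = 1 := by
    intro n
    induction n with
    | zero =>
      intro x y z h
      have := h.1
      rw [hnil] at this
      exact absurd this (by simp [root])
    | succ n ih =>
      intro x y z h
      rcases h with h | ⟨h, h'⟩ | ⟨h, h'⟩
      · exact rot_one (ih y z x h)
      · obtain ⟨-, -, -, h4, h5⟩ := h
        rw [hnil, hnil] at h4 h5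
        have h6 : rl l (l x) = rl l (l y) := inj.injective h4
        have h7 : rl l (l y) = rl l (l z) := inj.injective h5
        have h8 : l x = l y := by rw [← rl_spec l x, ← rl_spec l y, h6]
        have h9 : l y = l z := by rw [← rl_spec l y, ← rl_spec l z, h7]
        refine (hinner x y z h8 h9).2 ⟨n, ?_⟩
        have e0 : ∀ x, sh 0 (c x) = inner x := fun x => code_sh0 l g root inner x
        rw [e0, e0, e0] at h'
        exact h'
      · obtain ⟨-, h4, h5, h6⟩ := h
        rw [hnil] at h4 h5 h6
        rw [hnil] at h6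
        have h7 : l 1 < l x := of_decide_eq_true h4
        have h8 : l 1 < l y := of_decide_eq_true h5
        have h9 : g x = g y⁻¹ := inj.injective h6
        have e1 : sh 1 (c x) = c (x * (g x)⁻¹) := code_sh1 g root inner (lt_a hl hg h7)
        have e2 : sh 2 (c y) = c (g y⁻¹ * y) := code_sh2 g root inner (lt_a' hl hg h8)
        rw [e1, e2] at h'
        exact cls_sound h9 (ih _ _ _ h')
  have complete : ∀ o : Ordinal.{0}, ∀ x y z, max (l x) (max (l y) (l z)) = o → x * y * z = 1 →
      TT (c x) (c y) (c z) := by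
    intro o
    induction o using WellFoundedLT.induction with
    | ind o ih =>
      intro x y z ho h
      have main : ∀ x y z, l x ≤ o → x * y * z = 1 → l x = l y → l z < l x →
          TT (c x) (c y) (c z) := by
        intro x y z hxo h hxy hz
        obtain ⟨h1, h2⟩ := cls_complete hl hg h hxy hz
        have h7 : l 1 < l x := (hl.one_le z).trans_lt hz
        have h8 : l 1 < l y := by rw [← hxy]; exact h7
        have e1 : sh 1 (c x) = c (x * (g x)⁻¹) := code_sh1 g root inner (lt_a hl hg h7)
        have e2 : sh 2 (c y) = c (g y⁻¹ * y) := code_sh2 g root inner (lt_a' hl hg h8)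
        refine TT_cls ⟨?_, ?_, ?_, ?_⟩ ?_
        · rw [hnil]
        · rw [hnil]; exact decide_eq_true h7
        · rw [hnil]; exact decide_eq_true h8
        · rw [hnil, hnil]
          change inj (g x) = inj (g y⁻¹)
          rw [h1]
        · rw [e1, e2]
          refine ih _ ?_ _ _ _ rfl h2
          refine lt_of_lt_of_le ?_ hxo
          refine max_lt hz (max_lt (lt_a hl hg h7) ?_)
          rw [hxy]
          exact lt_a' hl hg h8
      rcases cases_top hl h with ⟨h1, h2⟩ | ⟨h1, h2⟩ | ⟨h1, h2⟩ | ⟨h1, h2⟩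
      · refine TT_same ⟨?_, ?_, ?_, ?_, ?_⟩ ?_
        · rw [hnil]
        · rw [hnil]
        · rw [hnil]
        · rw [hnil, hnil]
          change inj (rl l (l x)) = inj (rl l (l y))
          rw [h1]
        · rw [hnil, hnil]
          change inj (rl l (l y)) = inj (rl l (l z))
          rw [h2]
        · have e0 : ∀ x, sh 0 (c x) = inner x := fun x => code_sh0 l g root inner x
          rw [e0, e0, e0]
          exact (hinner x y z h1 h2).1 h
      · exact main x y z (by rw [← ho]; exact le_max_left _ _) h h1 h2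
      · refine TT_rot (main y z x ?_ (rot_one (rot_one h)) h1 h2)
        rw [← ho]
        exact (le_max_left _ _).trans (le_max_right _ _)
      · refine TT_rot (TT_rot (main z x y ?_ (rot_one h) h1 h2))
        rw [← ho]
        exact (le_max_right _ _).trans (le_max_right _ _)
  intro x y z
  constructor
  · intro h
    exact complete _ x y z rfl h
  · rintro ⟨n, hn⟩
    exact sound n x y z hn

end step

/-- Every group of cardinality at most the continuum is coded. -/
theorem coded_all : ∀ (κ : Cardinal.{0}), κ ≤ 𝔠 → ∀ (G : Type) [Group G], #G = κ → Coded G := by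
  intro κ
  induction κ using WellFoundedLT.induction with
  | ind κ ih =>
    intro hκ G _ hG
    by_cases h : ℵ₀ < #G
    · obtain ⟨l, hl, hs⟩ := exists_lvl h
      refine coded_step (hG.le.trans hκ) hl (fun x => ?_)
      have h1 : #(hl.sub x) < κ := by
        rw [← hG]
        exact hs x
      exact ih _ h1 (h1.le.trans hκ) _ rfl
    · have : Countable G := mk_le_aleph0_iff.1 (not_lt.1 h)
      exact coded_countable G

end Pool.Agent.R592.Gp
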