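import Pool.Agent.R592.Gp.Top

set_option autoImplicit false

/-!
The measure, and the definition of abstractly Borelian groups.
-/

namespace Pool.Agent.R592.Gp

open Set Cardinal MeasureTheory

/-- The `σ`-algebra generated by a sequence of sets. -/
@[reducible] def sig {E : Type} (A : ℕ → Set E) : MeasurableSpace E := MeasurableSpace.generateFrom (range A)

/-- A measurable sequence of sets: the generated `σ`-algebra carries a countably additive
probability measure that vanishes on every singleton belonging to it. -/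
def MeasurableSeq {E : Type} (A : ℕ → Set E) : Prop :=
  ∃ m : @Measure E (sig A), m univ = 1 ∧ ∀ x, MeasurableSet[sig A] {x} → m {x} = 0

/-- A subset of `E × E × E` is Borelian with respect to `A`: it belongs to the `σ`-algebra
generated by the products of three members of the `σ`-algebra generated by `A`. -/
def Borelian {E : Type} (A : ℕ → Set E) (Z : Set (E × E × E)) : Prop :=
  MeasurableSet[(sig A).prod ((sig A).prod (sig A))] Z

/-- The group `E` is abstractly Borelian. -/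
def AbstractlyBorelian (E : Type) [Group E] : Prop :=
  ∃ A : ℕ → Set E, MeasurableSeq A ∧ Borelian A {p | p.1 * p.2.1 = p.2.2}

/-- Trace of the outer Lebesgue measure. -/
lemma exists_measure {E : Type} (m : MeasurableSpace E) (X : Set E) (t : E → ℝ)
    (hm : ∀ A, MeasurableSet[m] A → ∃ B : Set ℝ, MeasurableSet B ∧ ∀ x ∈ X, (x ∈ A ↔ t x ∈ B))
    (h0 : volume (t '' X) ≠ 0) (h1 : volume (t '' X) ≠ ⊤) :
    ∃ μ : @Measure E m, μ univ = 1 ∧ ∀ x, MeasurableSet[m] {x} → μ {x} = 0 := by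
  let m0 : OuterMeasure E :=
    OuterMeasure.restrict X (OuterMeasure.comap t (volume : Measure ℝ).toOuterMeasure)
  have e0 : ∀ S, m0 S = volume (t '' (S ∩ X)) := by
    intro S
    simp [m0, OuterMeasure.restrict_apply, OuterMeasure.comap_apply]
  have hc : m ≤ m0.caratheodory := by
    intro A hA
    obtain ⟨B, hB, hAB⟩ := hm A hA
    rw [OuterMeasure.isCaratheodory_iff]
    intro S
    rw [e0, e0, e0]
    have a1 : t '' (S ∩ A ∩ X) = t '' (S ∩ X) ∩ B := by
      ext r
      constructor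
      · rintro ⟨x, ⟨⟨hx1, hx2⟩, hx3⟩, rfl⟩
        exact ⟨⟨x, ⟨hx1, hx3⟩, rfl⟩, (hAB x hx3).1 hx2⟩
      · rintro ⟨⟨x, ⟨hx1, hx3⟩, rfl⟩, hr⟩
        exact ⟨x, ⟨⟨hx1, (hAB x hx3).2 hr⟩, hx3⟩, rfl⟩
    have a2 : t '' (S \ A ∩ X) = t '' (S ∩ X) \ B := by
      ext r
      constructor
      · rintro ⟨x, ⟨⟨hx1, hx2⟩, hx3⟩, rfl⟩
        exact ⟨⟨x, ⟨hx1, hx3⟩, rfl⟩, fun k => hx2 ((hAB x hx3).2 k)⟩
      · rintro ⟨⟨x, ⟨hx1, hx3⟩, rfl⟩, hr⟩
        exact ⟨x, ⟨⟨hx1, fun k => hr ((hAB x hx3).1 k)⟩, hx3⟩, rfl⟩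
    rw [a1, a2, measure_inter_add_sdiff _ hB]
  let μ0 : @Measure E m := m0.toMeasure hc
  have e1 : ∀ S, MeasurableSet[m] S → μ0 S = volume (t '' (S ∩ X)) := by
    intro S hS
    rw [← e0]
    exact toMeasure_apply m0 hc hS
  refine ⟨(volume (t '' X))⁻¹ • μ0, ?_, ?_⟩
  · have := e1 univ MeasurableSet.univ
    rw [univ_inter] at this
    change (volume (t '' X))⁻¹ * μ0 univ = 1
    rw [this]
    exact ENNReal.inv_mul_cancel h0 h1
  · intro x hx
    have := e1 {x} hx
    change (volume (t '' X))⁻¹ * μ0 {x} = 0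
    rw [this]
    have h2 : volume (t '' ({x} ∩ X)) = 0 := by
      refine measure_mono_null (t := {t x}) ?_ (by simp)
      rintro r ⟨y, ⟨hy, -⟩, rfl⟩
      rw [mem_singleton_iff] at hy ⊢
      rw [hy]
    rw [h2, mul_zero]

end Pool.Agent.R592.Gp
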