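import Mathlib

set_option autoImplicit false

/-!
The product space `Om` of finite uniform coordinates, slaloms, and the null sets `Dset`.
-/

namespace Pool.Agent.R592.Om

open Set Cardinal MeasureTheory Filter

/-- The coordinate spaces. -/
abbrev X (i : ℕ × ℕ) : Type := Fin (4 ^ i.1)

instance (i : ℕ × ℕ) : NeZero (4 ^ i.1) := ⟨by positivity⟩

instance (i : ℕ × ℕ) : Nonempty (X i) := ⟨0⟩

/-- The product space. -/
abbrev Om : Type := (i : ℕ × ℕ) → X i

/-- The uniform measure on a coordinate. -/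
noncomputable def nu (i : ℕ × ℕ) : Measure (X i) := (PMF.uniformOfFintype (X i)).toMeasure

instance (i : ℕ × ℕ) : IsProbabilityMeasure (nu i) := by unfold nu; infer_instance

/-- The product measure. -/
noncomputable def lam : Measure Om := Measure.infinitePi nu

instance : IsProbabilityMeasure lam := by unfold lam; infer_instance

/-- The family `H` is captured by one slalom of width `w`. -/
def Loc (w : ℕ → ℕ) (H : Set (ℕ → ℕ)) : Prop :=
  ∃ S : ℕ → Finset ℕ, (∀ n, (S n).card ≤ w n) ∧ ∀ h ∈ H, ∀ᶠ n in atTop, h n ∈ S n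

/-- The sets `D(f, S, z)`. -/
def Dset (f : ℕ → ℕ) (S : ℕ → Finset ℕ) (z : ℕ → ℕ) : Set Om :=
  {x | (∃ᶠ n in atTop, (x (n, f n)).1 = z n) ∧
    (∀ᶠ n in atTop, (x (n, f n)).1 < 2 ^ n → (x (n, f n)).1 = z n) ∧
    (∀ᶠ n in atTop, ∀ k ∈ S n, 2 ^ n ≤ (x (n, k)).1)}

end Pool.Agent.R592.Om
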