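import Pool.Agent.Helper348.OM.Coord
import Pool.Agent.Helper348.OM.Unloc
import Pool.Agent.R574.OM.Approx
import Pool.Agent.R577.OM.Fusion
import Pool.Agent.R961.OM.Width

set_option autoImplicit false

/-!
The collected facts about `Om`.
-/

namespace Pool.Agent.R592.Om

open Set Cardinal MeasureTheory Filter

theorem fusion' {M : Set Om} (hM : lam M = 0) :
    ∃ S : ℕ → Finset ℕ, (∀ n, (S n).card ≤ (n + 1) * 16 ^ n) ∧
      ∀ (f : ℕ → ℕ) (S' : ℕ → Finset ℕ) (z : ℕ → ℕ), (∀ n, z n < 2 ^ n) →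
        (∀ n, (S' n).card ≤ n) → (∀ n, f n ∉ S' n) → (∃ᶠ n in atTop, f n ∉ S n) →
          ∃ x ∈ Dset f S' z, x ∉ M :=
  Pool.Agent.R577.OM.fusion Pool.Agent.Helper348.OM.lam_coord
    Pool.Agent.Helper348.OM.slalom_bound Pool.Agent.R574.OM.approx hM

theorem exists_unloc' {I : Type} (M : I → Set Om) (hM : ∀ i, lam (M i) = 0)
    (hU : lam (⋃ i, M i) ≠ 0) : ∃ F : I → ℕ → ℕ, ¬ Loc id (range F) :=
  Pool.Agent.Helper348.OM.exists_unloc M hM hU

theorem width' (w : ℕ → ℕ) : ∃ Φ : (ℕ → ℕ) → ℕ → ℕ, ∀ H, Loc w (Φ '' H) → Loc id H :=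
  R961.OM.width w

end Pool.Agent.R592.Om
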