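import Pool.Agent.R592.Gp.OmAll
import Pool.Agent.R592.Gp.STop

set_option autoImplicit false

/-!
The family of pairwise disjoint sets that no null set covers.
-/

namespace Pool.Agent.R592.Om

open Set Cardinal MeasureTheory Filter

/-- Eventually different functions. -/
def zz (r : ℕ → Bool) (n : ℕ) : ℕ := Nat.ofBits (fun i : Fin n => r i)

lemma zz_lt (r : ℕ → Bool) (n : ℕ) : zz r n < 2 ^ n := Nat.ofBits_lt_two_pow _

lemma zz_ne {r r' : ℕ → Bool} (h : r ≠ r') : ∀ᶠ n in atTop, zz r n ≠ zz r' n := by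
  obtain ⟨i, hi⟩ := Function.ne_iff.1 h
  filter_upwards [eventually_gt_atTop i] with n hn he
  apply hi
  have h1 := Nat.testBit_ofBits_lt (fun i : Fin n => r i) i hn
  have h2 := Nat.testBit_ofBits_lt (fun i : Fin n => r' i) i hn
  unfold zz at he
  rw [he] at h1
  rw [← h1, ← h2]

lemma exists_cap {Θ : Type} (r : Θ → Θ → Prop) [IsWellOrder Θ r] (h : Θ → ℕ → ℕ)
    (hloc : ∀ β, ∀ F : {β₀ // r β₀ β} → ℕ → ℕ, Loc id (range F)) :
    ∃ (f : Θ → ℕ → ℕ) (S : Θ → ℕ → Finset ℕ), (∀ β n, (S β n).card ≤ n) ∧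
      (∀ β n, f β n ∉ S β n) ∧ (∀ β n, (Nat.unpair (f β n)).1 = h β n) ∧
      ∀ β β', r β' β → ∀ᶠ n in atTop, f β' n ∈ S β n := by
  classical
  have hfr : ∀ (T : Finset ℕ) (a : ℕ), ∃ c, Nat.pair a c ∉ T := by
    intro T a
    by_contra hcon
    push Not at hcon
    have : Set.Finite (range (fun c => Nat.pair a c)) :=
      T.finite_toSet.subset (by rintro _ ⟨c, rfl⟩; exact hcon c)
    refine Set.infinite_range_of_injective ?_ this
    intro c c' hc
    exact (Nat.pair_eq_pair.1 hc).2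
  choose fr hfr using hfr
  let st : (β : Θ) → ((β₀ : Θ) → r β₀ β → (ℕ → ℕ) × (ℕ → Finset ℕ)) →
      (ℕ → ℕ) × (ℕ → Finset ℕ) := fun β g =>
    (fun n => Nat.pair (h β n)
      (fr ((Classical.choose (hloc β (fun b => (g b.1 b.2).1))) n) (h β n)),
      Classical.choose (hloc β (fun b => (g b.1 b.2).1)))
  have wf : WellFounded r := IsWellFounded.wf
  let G : Θ → (ℕ → ℕ) × (ℕ → Finset ℕ) := wf.fix st
  have hG : ∀ β, G β = st β (fun b _ => G b) := fun β => wf.fix_eq st β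
  have hS : ∀ β, (G β).2 = Classical.choose (hloc β (fun b => (G b.1).1)) := by
    intro β
    rw [hG β]
  have hf : ∀ β n, (G β).1 n = Nat.pair (h β n) (fr ((G β).2 n) (h β n)) := by
    intro β n
    rw [hS β]
    conv_lhs => rw [hG β]
  refine ⟨fun β => (G β).1, fun β => (G β).2, ?_, ?_, ?_, ?_⟩
  · intro β n
    have := (Classical.choose_spec (hloc β (fun b => (G b.1).1))).1 n
    rw [← hS β] at this
    exact this
  · intro β n
    change (G β).1 n ∉ (G β).2 n
    rw [hf]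
    exact hfr _ _
  · intro β n
    change (Nat.unpair ((G β).1 n)).1 = _
    rw [hf, Nat.unpair_pair]
  · intro β β' hb
    have := (Classical.choose_spec (hloc β (fun b => (G b.1).1))).2 (G β').1 ⟨⟨β', hb⟩, rfl⟩
    rw [← hS β] at this
    exact this

lemma disj_same {f : ℕ → ℕ} {S : ℕ → Finset ℕ} {r r' : ℕ → Bool} (h : r ≠ r') {x : Om}
    (h1 : x ∈ Dset f S (zz r)) (h2 : x ∈ Dset f S (zz r')) : False := by
  obtain ⟨n, ⟨h3, h4⟩, h5⟩ := ((h1.1.and_eventually h2.2.1).and_eventually (zz_ne h)).exists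
  refine h5 ?_
  rw [← h3, h4 (by rw [h3]; exact zz_lt r n)]

lemma disj_diff {f f' : ℕ → ℕ} {S S' : ℕ → Finset ℕ} {r r' : ℕ → Bool}
    (h : ∀ᶠ n in atTop, f' n ∈ S n) {x : Om}
    (h1 : x ∈ Dset f S (zz r)) (h2 : x ∈ Dset f' S' (zz r')) : False := by
  obtain ⟨n, ⟨h3, h4⟩, h5⟩ := ((h2.1.and_eventually h1.2.2).and_eventually h).exists
  have h6 := h4 _ h5
  rw [h3] at h6
  exact absurd (zz_lt r' n) (not_lt.2 h6)

lemma lam_singleton (x : Om) : lam {x} = 0 := by
  have h : ∀ n : ℕ, lam.real {x} ≤ 1 / 4 ^ n := by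
    intro n
    have h1 := Pool.Agent.Helper348.OM.lam_coord (n, 0) (x (n, 0)) (W := univ)
      MeasurableSet.univ (by simp)
    rw [univ_inter, probReal_univ] at h1
    rw [← h1]
    exact measureReal_mono (by rintro y rfl; rfl)
  have h2 : lam.real {x} ≤ 0 := by
    have h0 : Tendsto (fun n : ℕ => (1 : ℝ) / 4 ^ n) atTop (nhds 0) := by
      have := tendsto_pow_atTop_nhds_zero_of_lt_one (r := (1 / 4 : ℝ)) (by norm_num) (by norm_num)
      refine this.congr (fun n => ?_)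
      rw [one_div_pow]
    exact ge_of_tendsto' h0 h
  have h3 : lam.real {x} = 0 := le_antisymm h2 measureReal_nonneg
  exact (measureReal_eq_zero_iff).1 h3

lemma not_countable_Om : ¬ Countable Om := by
  intro h
  have h1 : lam univ = 0 := by
    rw [← biUnion_of_singleton (univ : Set Om)]
    exact (measure_biUnion_null_iff (countable_univ)).2 (fun x _ => lam_singleton x)
  rw [measure_univ] at h1
  exact one_ne_zero h1

open Pool.Agent.R592.Gp.Sg in
/-- The joint relation between points and labels. -/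
def EE : Set (Om × Lam) :=
  {p | (∃ᶠ n in atTop, (p.1 (n, p.2.1 n)).1 = p.2.2.2 n) ∧
    (∀ᶠ n in atTop, (p.1 (n, p.2.1 n)).1 < 2 ^ n → (p.1 (n, p.2.1 n)).1 = p.2.2.2 n) ∧
    (∀ᶠ n in atTop, ∀ k, p.2.2.1 n k = true → 2 ^ n ≤ (p.1 (n, k)).1)}

open Pool.Agent.R592.Gp.Sg in
lemma meas_at (n : ℕ) : Measurable (fun p : Om × Lam => (p.1 (n, p.2.1 n)).1) := by
  refine measurable_to_countable' (fun v => ?_)
  have e : (fun p : Om × Lam => (p.1 (n, p.2.1 n)).1) ⁻¹' {v} =
      ⋃ k : ℕ, ({p : Om × Lam | p.2.1 n = k} ∩ {p : Om × Lam | (p.1 (n, k)).1 = v}) := by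
    ext p
    simp only [mem_preimage, mem_singleton_iff, mem_iUnion, mem_inter_iff, mem_ofPred_eq]
    constructor
    · intro h
      exact ⟨_, rfl, h⟩
    · rintro ⟨k, h1, h2⟩
      rw [h1]
      exact h2
  rw [e]
  refine MeasurableSet.iUnion (fun k => MeasurableSet.inter ?_ ?_)
  · have h1 : Measurable (fun p : Om × Lam => p.2.1 n) :=
      (measurable_pi_apply n).comp (measurable_fst.comp measurable_snd)
    exact h1 (measurableSet_singleton k)
  · have : Measurable (fun p : Om × Lam => (p.1 (n, k)).1) :=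
      (measurable_from_top (f := fun v : X (n, k) => v.1)).comp
        ((measurable_pi_apply (n, k)).comp measurable_fst)
    exact this (measurableSet_singleton v)

open Pool.Agent.R592.Gp.Sg in
lemma meas_eqN {Ω : Type} [MeasurableSpace Ω] {f g : Ω → ℕ} (hf : Measurable f)
    (hg : Measurable g) : MeasurableSet {x | f x = g x} := measurableSet_eq_fun hf hg

open Pool.Agent.R592.Gp.Sg in
lemma meas_EE : MeasurableSet EE := by
  have hz : ∀ n, Measurable (fun p : Om × Lam => p.2.2.2 n) := fun n =>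
    (measurable_pi_apply n).comp (measurable_snd.comp (measurable_snd.comp measurable_snd))
  have ha : ∀ n, MeasurableSet {p : Om × Lam | (p.1 (n, p.2.1 n)).1 = p.2.2.2 n} := fun n =>
    meas_eqN (meas_at n) (hz n)
  have hb : ∀ n, MeasurableSet {p : Om × Lam | (p.1 (n, p.2.1 n)).1 < 2 ^ n} := fun n =>
    (meas_at n) (measurableSet_Iio (a := 2 ^ n))
  have hc : ∀ n k, MeasurableSet {p : Om × Lam | p.2.2.1 n k = true → 2 ^ n ≤ (p.1 (n, k)).1} := by
    intro n k
    have h0 : Measurable (fun p : Om × Lam => p.2.2.1) :=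
      measurable_fst.comp (measurable_snd.comp measurable_snd)
    have h0' : Measurable (fun p : Om × Lam => p.2.2.1 n k) :=
      (measurable_pi_apply k).comp ((measurable_pi_apply n).comp h0)
    have h1 : MeasurableSet {p : Om × Lam | p.2.2.1 n k = true} :=
      h0' (measurableSet_singleton true)
    have h2 : MeasurableSet {p : Om × Lam | 2 ^ n ≤ (p.1 (n, k)).1} :=
      ((measurable_from_top (f := fun v : X (n, k) => v.1)).comp
        ((measurable_pi_apply (n, k)).comp measurable_fst)) (measurableSet_Ici (a := 2 ^ n))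
    exact h1.imp h2
  have e : EE = (⋂ N : ℕ, ⋃ n : ℕ, ⋃ (_ : N ≤ n),
      {p : Om × Lam | (p.1 (n, p.2.1 n)).1 = p.2.2.2 n}) ∩
      ((⋃ N : ℕ, ⋂ n : ℕ, ⋂ (_ : N ≤ n), {p : Om × Lam | (p.1 (n, p.2.1 n)).1 < 2 ^ n →
        (p.1 (n, p.2.1 n)).1 = p.2.2.2 n}) ∩
      (⋃ N : ℕ, ⋂ n : ℕ, ⋂ (_ : N ≤ n), ⋂ k : ℕ,
        {p : Om × Lam | p.2.2.1 n k = true → 2 ^ n ≤ (p.1 (n, k)).1})) := by
    ext p
    simp only [EE, mem_ofPred_eq, frequently_atTop, eventually_atTop, mem_inter_iff, mem_iInter,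
      mem_iUnion, exists_prop]
  rw [e]
  refine MeasurableSet.inter ?_ (MeasurableSet.inter ?_ ?_)
  · exact MeasurableSet.iInter fun N => MeasurableSet.iUnion fun n =>
      MeasurableSet.iUnion fun _ => ha n
  · exact MeasurableSet.iUnion fun N => MeasurableSet.iInter fun n =>
      MeasurableSet.iInter fun _ => (hb n).imp (ha n)
  · exact MeasurableSet.iUnion fun N => MeasurableSet.iInter fun n =>
      MeasurableSet.iInter fun _ => MeasurableSet.iInter fun k => hc n k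

lemma exists_min_fam : ∃ (Θ : Type) (F : Θ → ℕ → ℕ), ¬ Loc id (range F) ∧
    ∀ (J : Type) (F' : J → ℕ → ℕ), #J < #Θ → Loc id (range F') := by
  let P : Cardinal.{0} → Prop := fun c => ∃ (Θ : Type) (F : Θ → ℕ → ℕ), #Θ = c ∧
    ¬ Loc id (range F)
  have hP : ∃ c, P c := by
    obtain ⟨F, hF⟩ := exists_unloc' (I := Om) (fun x => {x}) lam_singleton (by
      rw [iUnion_of_singleton, measure_univ]; exact one_ne_zero)
    exact ⟨#Om, Om, F, rfl, hF⟩
  obtain ⟨c, ⟨Θ, F, hc, hF⟩, hmin⟩ := WellFounded.has_min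
    (IsWellFounded.wf : WellFounded ((· < ·) : Cardinal.{0} → Cardinal.{0} → Prop)) {c | P c} hP
  refine ⟨Θ, F, hF, fun J F' hJ => ?_⟩
  by_contra hcon
  refine hmin #J ⟨J, F', rfl, hcon⟩ ?_
  rw [← hc]
  exact hJ

open Pool.Agent.R592.Gp.Sg in
/-- The interface with the group side. -/
theorem interface : ∃ (ν : Measure ℝ) (DD : Set (ℝ × Lam)) (lam0 : Lam) (Θ : Type)
    (κ : Θ → (ℕ → Bool) → Lam), NullSingletonClass ν ∧ IsFiniteMeasure ν ∧ ν univ ≠ 0 ∧
    MeasurableSet DD ∧ (∀ t, (t, lam0) ∉ DD) ∧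
    (∀ t β r β' r', (t, κ β r) ∈ DD → (t, κ β' r') ∈ DD → β = β' ∧ r = r') ∧
    (∀ M : Set ℝ, ν M = 0 → ∃ β, ∀ r, ∃ t, t ∉ M ∧ (t, κ β r) ∈ DD) ∧
    (∀ (I : Type) (M : I → Set ℝ), (∀ i, ν (M i) = 0) → ν (⋃ i, M i) ≠ 0 → #Θ ≤ #I) := by
  classical
  obtain ⟨Θ, F, hF, hmin⟩ := exists_min_fam
  let w : ℕ → ℕ := fun n => (n + 1) * 16 ^ n
  obtain ⟨Φ, hΦ⟩ := width' w
  let h : Θ → ℕ → ℕ := fun β => Φ (F β)
  have hh : ¬ Loc w (range h) := by
    intro hl
    apply hF
    apply hΦ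
    rw [← range_comp]
    exact hl
  obtain ⟨r, wo, hr⟩ := exists_ord_eq Θ
  have hseg : ∀ β, #{β₀ // r β₀ β} < #Θ := by
    intro β
    have h1 := Ordinal.typein_lt_type r β
    rw [← hr, lt_ord] at h1
    exact h1
  obtain ⟨f, S, hS1, hS2, hS3, hS4⟩ := exists_cap r h (fun β F' => hmin _ F' (hseg β))
  let e : Om ≃ᵐ ℝ := PolishSpace.measurableEquivOfNotCountable not_countable_Om
    (by rw [not_countable_iff]; infer_instance)
  let κ : Θ → (ℕ → Bool) → Lam := fun β ρ => (f β, fun n k => decide (k ∈ S β n), zz ρ)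
  have hEE : ∀ x β ρ, (x, κ β ρ) ∈ EE ↔ x ∈ Dset (f β) (S β) (zz ρ) := by
    intro x β ρ
    simp [EE, Dset, κ]
  let DD : Set (ℝ × Lam) := {p | (e.symm p.1, p.2) ∈ EE}
  refine ⟨lam.map e, DD, (fun _ => 0, fun _ _ => true, fun _ => 0), Θ, κ, ?_, ?_, ?_, ?_, ?_,
    ?_, ?_, ?_⟩
  · refine ⟨fun x => ?_⟩
    rw [e.map_apply]
    have : e ⁻¹' {x} = {e.symm x} := by
      ext y
      simp only [mem_preimage, mem_singleton_iff]
      exact ⟨fun hy => by rw [← hy, e.symm_apply_apply], fun hy => by rw [hy, e.apply_symm_apply]⟩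
    rw [this]
    exact lam_singleton _
  · infer_instance
  · rw [e.map_apply, preimage_univ, measure_univ]
    exact one_ne_zero
  · exact ((e.symm.measurable.comp measurable_fst).prodMk measurable_snd) meas_EE
  · intro t ht
    obtain ⟨h1, -, h3⟩ := (ht : (e.symm t, _) ∈ EE)
    obtain ⟨n, h4, h5⟩ := (h1.and_eventually h3).exists
    have h6 := h5 0 rfl
    simp only at h4 h6
    rw [h4] at h6
    have : 0 < 2 ^ n := by positivity
    omega
  · intro t β ρ β' ρ' h1 h2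
    have h1' := (hEE _ _ _).1 (h1 : (e.symm t, κ β ρ) ∈ EE)
    have h2' := (hEE _ _ _).1 (h2 : (e.symm t, κ β' ρ') ∈ EE)
    rcases trichotomous_of r β β' with hb | hb | hb
    · exact (disj_diff (hS4 β' β hb) h2' h1').elim
    · subst hb
      refine ⟨rfl, ?_⟩
      by_contra hne
      exact disj_same hne h1' h2'
    · exact (disj_diff (hS4 β β' hb) h1' h2').elim
  · intro M hM
    rw [e.map_apply] at hM
    obtain ⟨T, hT1, hT2⟩ := fusion' hM
    have : ∃ β, ¬ ∀ᶠ n in atTop, h β n ∈ (T n).image (fun m => (Nat.unpair m).1) := by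
      by_contra hcon
      push Not at hcon
      refine hh ⟨fun n => (T n).image (fun m => (Nat.unpair m).1), fun n =>
        Finset.card_image_le.trans (hT1 n), ?_⟩
      rintro _ ⟨β, rfl⟩
      exact hcon β
    obtain ⟨β, hβ⟩ := this
    refine ⟨β, fun ρ => ?_⟩
    have hfr : ∃ᶠ n in atTop, f β n ∉ T n := by
      rw [not_eventually] at hβ
      refine hβ.mono (fun n hn hm => hn ?_)
      rw [← hS3 β n]
      exact Finset.mem_image_of_mem _ hm
    obtain ⟨x, hx, hxM⟩ := hT2 (f β) (S β) (zz ρ) (zz_lt ρ) (hS1 β) (hS2 β) hfr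
    refine ⟨e x, hxM, ?_⟩
    change (e.symm (e x), κ β ρ) ∈ EE
    rw [e.symm_apply_apply, hEE]
    exact hx
  · intro I M hM hU
    by_contra hlt
    rw [not_le] at hlt
    obtain ⟨F', hF'⟩ := exists_unloc' (fun i => e ⁻¹' M i) (fun i => by
      rw [← e.map_apply]; exact hM i) (by
      rw [← preimage_iUnion, ← e.map_apply]; exact hU)
    exact hF' (hmin I F' hlt)

end Pool.Agent.R592.Om
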