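import Pool.Agent.R592.Gp.STop

set_option autoImplicit false

/-!
The top level code in the singular case.
-/

namespace Pool.Agent.R592.Gp.Sg

open Set Cardinal MeasureTheory Pool.Agent.R592.Gp

/-- Data for the top level. -/
structure Data (G : Type) [Group G] where
  l : G → Ordinal.{0}
  hl : Lvl l
  L : Set Ordinal.{0}
  s : Ordinal.{0} → G
  th : Ordinal.{0} → ℝ
  hs : ∀ o ∈ L, l (s o) = o
  h1 : ∀ o ∈ L, l 1 < o
  hb : ∀ o ∈ L, l (s o * s o) = l 1
  hth : InjOn th L
  inj : G → ℝ
  hinj : Function.Injective inj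
  inner : G → C
  hinner : ∀ x y z : G, x * y * z = 1 ↔ TT (inner x) (inner y) (inner z)
  g0 : G → G
  hg0 : Reps l g0
  kb : G → Lam
  lam0 : Lam
  DD : Set (ℝ × Lam)
  hDD : MeasurableSet DD
  hD0 : ∀ t, (t, lam0) ∉ DD
  hD : ∀ o ∈ L, ∀ b : G, (th o, kb b) ∈ DD ↔ s o * s o = b

namespace Data

variable {G : Type} [Group G] (D : Data G)

/-- Representatives. -/
noncomputable def g : G → G := gr D.l D.L D.s D.g0

lemma hg : Reps D.l D.g := reps_gr D.hl D.L D.s D.hg0

open Classical in
/-- Level label. -/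
noncomputable def LL (x : G) : ℝ × ℕ :=
  if D.l x ∈ D.L then (D.th (D.l x), 0) else (D.inj (rl D.l (D.l x)), 1)

open Classical in
/-- Class label of a representative. -/
noncomputable def CL (x : G) : ℝ × ℕ :=
  if D.l x ∈ D.L ∧ x = D.s (D.l x) then (D.th (D.l x), 0)
  else if D.l x ∈ D.L ∧ x = (D.s (D.l x))⁻¹ then (D.th (D.l x), 1) else (D.inj x, 2)

open Classical in
/-- The flag. -/
noncomputable def fl (x : G) : ℕ :=
  if D.l x ∈ D.L ∧ x = D.s (D.l x) then 1
  else if D.l x ∈ D.L ∧ x = (D.s (D.l x))⁻¹ then 2 else 0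

open Classical in
/-- The root data. -/
noncomputable def root (x : G) : R' :=
  ((D.LL x, D.CL (D.g x), D.CL (D.g x⁻¹)),
    (decide (D.l 1 < D.l x), D.fl x, decide (D.s (D.l x) * D.s (D.l x) * D.s (D.l x) = 1),
      decide (x = 1)),
    (if D.fl x = 0 then (D.inner x, D.inner (D.s (D.l x)), D.inner (D.s (D.l x))⁻¹) else default),
    (if D.fl x = 0 then (D.kb x, D.kb x⁻¹) else (D.lam0, D.lam0)))

open Classical in
/-- The code of an element. -/
noncomputable def code {G : Type} [Group G] (D : Data G) (x : G) : C' :=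
  node' (D.root x)
    (if D.fl x = 0 then
      (if _h : D.l (x * (D.g x)⁻¹) < D.l x then code D (x * (D.g x)⁻¹) else default)
      else (if D.fl x = 1 then (if _h : D.l 1 < D.l x then code D 1 else default) else default))
    (if D.fl x = 0 then
      (if _h : D.l (D.g x⁻¹ * x) < D.l x then code D (D.g x⁻¹ * x) else default)
      else (if D.fl x = 2 then (if _h : D.l 1 < D.l x then code D 1 else default) else default))
    (if D.fl x = 0 then
      (if _h : D.l (D.s (D.l x) * D.s (D.l x)) < D.l x then code D (D.s (D.l x) * D.s (D.l x))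
        else default) else default)
    (if D.fl x = 0 then
      (if _h : D.l (D.s (D.l x) * D.s (D.l x))⁻¹ < D.l x then
        code D (D.s (D.l x) * D.s (D.l x))⁻¹ else default) else default)
termination_by D.l x
decreasing_by all_goals exact _h

lemma code_nil (x : G) : D.code x [] = D.root x := by
  rw [code]; simp

lemma sh0_of0 {x : G} (hx : D.l 1 < D.l x) (h : D.fl x = 0) :
    sh' 0 (D.code x) = D.code (x * (D.g x)⁻¹) := by
  conv_lhs => rw [code]
  rw [sh_node'0, if_pos h, dif_pos (lt_a D.hl D.hg hx)]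

lemma sh0_of1 {x : G} (hx : D.l 1 < D.l x) (h : D.fl x = 1) :
    sh' 0 (D.code x) = D.code 1 := by
  conv_lhs => rw [code]
  rw [sh_node'0, if_neg (by rw [h]; simp), if_pos h, dif_pos hx]

lemma sh1_of0 {x : G} (hx : D.l 1 < D.l x) (h : D.fl x = 0) :
    sh' 1 (D.code x) = D.code (D.g x⁻¹ * x) := by
  conv_lhs => rw [code]
  rw [sh_node'1, if_pos h, dif_pos (lt_a' D.hl D.hg hx)]

lemma sh1_of2 {x : G} (hx : D.l 1 < D.l x) (h : D.fl x = 2) :
    sh' 1 (D.code x) = D.code 1 := by
  conv_lhs => rw [code]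
  rw [sh_node'1, if_neg (by rw [h]; simp), if_pos h, dif_pos hx]

lemma sh2_of0 {x : G} (hx : D.l 1 < D.l x) (h : D.fl x = 0) (hL : D.l x ∈ D.L) :
    sh' 2 (D.code x) = D.code (D.s (D.l x) * D.s (D.l x)) := by
  conv_lhs => rw [code]
  rw [sh_node'2, if_pos h, dif_pos (by rw [D.hb _ hL]; exact hx)]

lemma sh3_of0 {x : G} (hx : D.l 1 < D.l x) (h : D.fl x = 0) (hL : D.l x ∈ D.L) :
    sh' 3 (D.code x) = D.code (D.s (D.l x) * D.s (D.l x))⁻¹ := by
  conv_lhs => rw [code]
  rw [sh_node'3, if_pos h, dif_pos (by rw [D.hl.inv, D.hb _ hL]; exact hx)]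

lemma LL_inj {x y : G} (h : D.LL x = D.LL y) : D.l x = D.l y := by
  unfold LL at h
  split_ifs at h with h1 h2 h2
  · exact D.hth h1 h2 (Prod.ext_iff.1 h).1
  · exact absurd (Prod.ext_iff.1 h).2 (by simp)
  · exact absurd (Prod.ext_iff.1 h).2 (by simp)
  · have := D.hinj (Prod.ext_iff.1 h).1
    rw [← rl_spec D.l x, ← rl_spec D.l y, this]

lemma LL_congr {x y : G} (h : D.l x = D.l y) : D.LL x = D.LL y := by
  unfold LL
  rw [h]

lemma CL_inj {x y : G} (h : D.CL x = D.CL y) : x = y := by
  unfold CL at h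
  split_ifs at h with h1 h2 h3 h2 h3 h4 h5 h6
  · have := D.hth h1.1 h2.1 (Prod.ext_iff.1 h).1
    rw [h1.2, h2.2, this]
  · exact absurd (Prod.ext_iff.1 h).2 (by simp)
  · exact absurd (Prod.ext_iff.1 h).2 (by simp)
  · exact absurd (Prod.ext_iff.1 h).2 (by simp)
  · have := D.hth h2.1 h4.1 (Prod.ext_iff.1 h).1
    rw [h2.2, h4.2, this]
  · exact absurd (Prod.ext_iff.1 h).2 (by simp)
  · exact absurd (Prod.ext_iff.1 h).2 (by simp)
  · exact absurd (Prod.ext_iff.1 h).2 (by simp)
  · exact D.hinj (Prod.ext_iff.1 h).1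

lemma fl_cases (x : G) : D.fl x = 0 ∨ (D.fl x = 1 ∧ D.l x ∈ D.L ∧ x = D.s (D.l x)) ∨
    (D.fl x = 2 ∧ D.l x ∈ D.L ∧ x = (D.s (D.l x))⁻¹) := by
  unfold fl
  split_ifs with h1 h2
  · exact Or.inr (Or.inl ⟨rfl, h1⟩)
  · exact Or.inr (Or.inr ⟨rfl, h2⟩)
  · exact Or.inl rfl

lemma see_eq {p q : G} (hp : D.fl p = 0) (h : D.l q = D.l p) :
    see (D.root p) (D.root q) = D.inner q := by
  have e1 : fla (D.root q) = D.fl q := rfl
  have e2 : st1 (D.root p) = D.inner (D.s (D.l p)) := by
    change (if D.fl p = 0 then (D.inner p, D.inner (D.s (D.l p)), D.inner (D.s (D.l p))⁻¹)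
      else default).2.1 = _
    rw [if_pos hp]
  have e3 : st2 (D.root p) = D.inner (D.s (D.l p))⁻¹ := by
    change (if D.fl p = 0 then (D.inner p, D.inner (D.s (D.l p)), D.inner (D.s (D.l p))⁻¹)
      else default).2.2 = _
    rw [if_pos hp]
  unfold see
  rw [e1]
  rcases D.fl_cases q with h0 | ⟨h0, -, h2⟩ | ⟨h0, -, h2⟩
  · rw [if_pos h0]
    change (if D.fl q = 0 then (D.inner q, D.inner (D.s (D.l q)), D.inner (D.s (D.l q))⁻¹)
      else default).1 = _
    rw [if_pos h0]
  · rw [if_neg (by rw [h0]; simp), if_pos h0, e2, ← h, ← h2]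
  · rw [if_neg (by rw [h0]; simp), if_neg (by rw [h0]; simp), e3, ← h, ← h2]

open Classical in
lemma dec_iff {x y z : G} (hxy : D.l x = D.l y) (hyz : D.l y = D.l z) :
    Dec (D.root x) (D.root y) (D.root z) ↔ x * y * z = 1 := by
  have fx : ∀ q, fla (D.root q) = D.fl q := fun q => rfl
  have bx : bit (D.root x) = decide (D.s (D.l x) * D.s (D.l x) * D.s (D.l x) = 1) := rfl
  constructor
  · rintro ((⟨h0, h⟩ | ⟨h0, h⟩ | ⟨h0, h⟩) | ⟨h0, h1, h2, h3⟩)
    · rw [D.see_eq h0 rfl, D.see_eq h0 hxy.symm, D.see_eq h0 (hxy.trans hyz).symm] at h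
      exact (D.hinner x y z).2 h
    · rw [D.see_eq h0 rfl, D.see_eq h0 hxy, D.see_eq h0 hyz.symm] at h
      exact (D.hinner x y z).2 h
    · rw [D.see_eq h0 rfl, D.see_eq h0 hyz, D.see_eq h0 (hxy.trans hyz)] at h
      exact (D.hinner x y z).2 h
    · rw [fx] at h0
      rw [fx, fx] at h1 h2
      rw [bx] at h3
      have h3' : D.s (D.l x) * D.s (D.l x) * D.s (D.l x) = 1 := of_decide_eq_true h3
      rcases D.fl_cases x with k | ⟨k, -, kx⟩ | ⟨k, -, kx⟩
      · exact absurd k h0
      · rcases D.fl_cases y with k' | ⟨k', -, ky⟩ | ⟨k', -, ky⟩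
        · rw [k, k'] at h1; exact absurd h1 (by simp)
        · rcases D.fl_cases z with k'' | ⟨k'', -, kz⟩ | ⟨k'', -, kz⟩
          · rw [k', k''] at h2; exact absurd h2 (by simp)
          · rw [← hxy] at ky
            rw [← hyz, ← hxy] at kz
            have e : x * y * z = D.s (D.l x) * D.s (D.l x) * D.s (D.l x) :=
              congrArg₂ (· * ·) (congrArg₂ (· * ·) kx ky) kz
            rw [e]; exact h3'
          · rw [k', k''] at h2; exact absurd h2 (by simp)
        · rw [k, k'] at h1; exact absurd h1 (by simp)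
      · rcases D.fl_cases y with k' | ⟨k', -, ky⟩ | ⟨k', -, ky⟩
        · rw [k, k'] at h1; exact absurd h1 (by simp)
        · rw [k, k'] at h1; exact absurd h1 (by simp)
        · rcases D.fl_cases z with k'' | ⟨k'', -, kz⟩ | ⟨k'', -, kz⟩
          · rw [k', k''] at h2; exact absurd h2 (by simp)
          · rw [k', k''] at h2; exact absurd h2 (by simp)
          · rw [← hxy] at ky
            rw [← hyz, ← hxy] at kz
            have e : x * y * z = (D.s (D.l x))⁻¹ * (D.s (D.l x))⁻¹ * (D.s (D.l x))⁻¹ :=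
              congrArg₂ (· * ·) (congrArg₂ (· * ·) kx ky) kz
            have e' : (D.s (D.l x))⁻¹ * (D.s (D.l x))⁻¹ * (D.s (D.l x))⁻¹ =
              (D.s (D.l x) * D.s (D.l x) * D.s (D.l x))⁻¹ := by group
            rw [e, e', h3', inv_one]
  · intro h
    by_cases h0 : D.fl x = 0
    · refine Or.inl (Or.inl ⟨h0, ?_⟩)
      rw [D.see_eq h0 rfl, D.see_eq h0 hxy.symm, D.see_eq h0 (hxy.trans hyz).symm]
      exact (D.hinner x y z).1 h
    by_cases h1 : D.fl y = 0
    · refine Or.inl (Or.inr (Or.inl ⟨h1, ?_⟩))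
      rw [D.see_eq h1 rfl, D.see_eq h1 hxy, D.see_eq h1 hyz.symm]
      exact (D.hinner x y z).1 h
    by_cases h2 : D.fl z = 0
    · refine Or.inl (Or.inr (Or.inr ⟨h2, ?_⟩))
      rw [D.see_eq h2 rfl, D.see_eq h2 hyz, D.see_eq h2 (hxy.trans hyz)]
      exact (D.hinner x y z).1 h
    refine Or.inr ?_
    rw [fx, fx, fx, bx]
    have hne : D.l x ∈ D.L → D.s (D.l x) ≠ 1 := by
      intro hL he
      have h3 := D.hs _ hL
      have h4 := D.h1 _ hL
      rw [he] at h3
      rw [h3] at h4
      exact lt_irrefl _ h4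
    rcases D.fl_cases x with k | ⟨k, kL, kx⟩ | ⟨k, kL, kx⟩
    · exact absurd k h0
    · rcases D.fl_cases y with k' | ⟨k', -, ky⟩ | ⟨k', -, ky⟩
      · exact absurd k' h1
      · rcases D.fl_cases z with k'' | ⟨k'', -, kz⟩ | ⟨k'', -, kz⟩
        · exact absurd k'' h2
        · rw [← hxy] at ky
          rw [← hyz, ← hxy] at kz
          have e : x * y * z = D.s (D.l x) * D.s (D.l x) * D.s (D.l x) :=
            congrArg₂ (· * ·) (congrArg₂ (· * ·) kx ky) kz
          rw [e] at h
          exact ⟨h0, by rw [k, k'], by rw [k', k''], decide_eq_true h⟩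
        · exfalso
          rw [← hxy] at ky
          rw [← hyz, ← hxy] at kz
          have e : x * y * z = D.s (D.l x) * D.s (D.l x) * (D.s (D.l x))⁻¹ :=
            congrArg₂ (· * ·) (congrArg₂ (· * ·) kx ky) kz
          rw [e] at h
          refine hne kL ?_
          rwa [mul_inv_cancel_right] at h
      · exfalso
        rw [← hxy] at ky
        rcases D.fl_cases z with k'' | ⟨k'', -, kz⟩ | ⟨k'', -, kz⟩
        · exact absurd k'' h2
        · rw [← hyz, ← hxy] at kz
          have e : x * y * z = D.s (D.l x) * (D.s (D.l x))⁻¹ * (D.s (D.l x)) :=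
            congrArg₂ (· * ·) (congrArg₂ (· * ·) kx ky) kz
          rw [e, mul_inv_cancel, one_mul] at h
          exact hne kL h
        · rw [← hyz, ← hxy] at kz
          have e : x * y * z = D.s (D.l x) * (D.s (D.l x))⁻¹ * (D.s (D.l x))⁻¹ :=
            congrArg₂ (· * ·) (congrArg₂ (· * ·) kx ky) kz
          rw [e, mul_inv_cancel, one_mul, inv_eq_one] at h
          exact hne kL h
    · rcases D.fl_cases y with k' | ⟨k', -, ky⟩ | ⟨k', -, ky⟩
      · exact absurd k' h1
      · exfalso
        rw [← hxy] at ky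
        rcases D.fl_cases z with k'' | ⟨k'', -, kz⟩ | ⟨k'', -, kz⟩
        · exact absurd k'' h2
        · rw [← hyz, ← hxy] at kz
          have e : x * y * z = (D.s (D.l x))⁻¹ * (D.s (D.l x)) * (D.s (D.l x)) :=
            congrArg₂ (· * ·) (congrArg₂ (· * ·) kx ky) kz
          rw [e, inv_mul_cancel, one_mul] at h
          exact hne kL h
        · rw [← hyz, ← hxy] at kz
          have e : x * y * z = (D.s (D.l x))⁻¹ * (D.s (D.l x)) * (D.s (D.l x))⁻¹ :=
            congrArg₂ (· * ·) (congrArg₂ (· * ·) kx ky) kz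
          rw [e, inv_mul_cancel, one_mul, inv_eq_one] at h
          exact hne kL h
      · rw [← hxy] at ky
        rcases D.fl_cases z with k'' | ⟨k'', -, kz⟩ | ⟨k'', -, kz⟩
        · exact absurd k'' h2
        · exfalso
          rw [← hyz, ← hxy] at kz
          have e : x * y * z = (D.s (D.l x))⁻¹ * (D.s (D.l x))⁻¹ * (D.s (D.l x)) :=
            congrArg₂ (· * ·) (congrArg₂ (· * ·) kx ky) kz
          rw [e, inv_mul_cancel_right, inv_eq_one] at h
          exact hne kL h
        · rw [← hyz, ← hxy] at kz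
          have e : x * y * z = (D.s (D.l x))⁻¹ * (D.s (D.l x))⁻¹ * (D.s (D.l x))⁻¹ :=
            congrArg₂ (· * ·) (congrArg₂ (· * ·) kx ky) kz
          have e' : (D.s (D.l x))⁻¹ * (D.s (D.l x))⁻¹ * (D.s (D.l x))⁻¹ =
            (D.s (D.l x) * D.s (D.l x) * D.s (D.l x))⁻¹ := by group
          rw [e, e', inv_eq_one] at h
          exact ⟨h0, by rw [k, k'], by rw [k', k''], decide_eq_true h⟩


lemma ne_one {o : Ordinal.{0}} (ho : o ∈ D.L) : D.s o ≠ 1 := by
  intro he
  have h3 := D.hs _ ho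
  have h4 := D.h1 _ ho
  rw [he] at h3
  rw [h3] at h4
  exact lt_irrefl _ h4

lemma g_s {o : Ordinal.{0}} (ho : o ∈ D.L) : D.g (D.s o) = D.s o := by
  classical
  have e0 : D.l (D.s o) = o := D.hs o ho
  unfold Data.g gr
  rw [e0, if_pos ⟨ho, rel_refl _⟩]

lemma rel_si {o : Ordinal.{0}} (ho : o ∈ D.L) : Rel D.l (D.s o)⁻¹ (D.s o) := by
  have e0 : D.l (D.s o) = o := D.hs o ho
  refine Or.inr ⟨D.hl.inv _, ?_⟩
  have e : (D.s o)⁻¹ * (D.s o)⁻¹ = (D.s o * D.s o)⁻¹ := by group
  rw [e, D.hl.inv, D.hl.inv, D.hb o ho, e0]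
  exact D.h1 o ho

lemma g_si {o : Ordinal.{0}} (ho : o ∈ D.L) : D.g (D.s o)⁻¹ = D.s o := by
  rw [D.hg.eq _ _ (D.rel_si ho), D.g_s ho]

lemma fl_low {z : G} (hz : D.l z = D.l 1) : D.fl z = 0 := by
  rcases D.fl_cases z with h | ⟨-, hL, -⟩ | ⟨-, hL, -⟩
  · exact h
  · have := D.h1 _ hL
    rw [hz] at this
    exact absurd this (lt_irrefl _)
  · have := D.h1 _ hL
    rw [hz] at this
    exact absurd this (lt_irrefl _)

/-- The children seen by a pair in the same class. -/
lemma e_eq {x y : G} (hx : D.l 1 < D.l x) (hy : D.l 1 < D.l y) (hg : D.g x = D.g y⁻¹)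
    (h : D.fl x = 0 ∨ D.fl y = 0) :
    e0 (D.code x) (D.code y) = D.code (x * (D.g x)⁻¹) ∧
      e1 (D.code x) (D.code y) = D.code (D.g y⁻¹ * y) := by
  have hlev : D.l x = D.l y := by
    have h1 := rel_lvl (D.hg.rel x)
    have h2 := rel_lvl (D.hg.rel y⁻¹)
    rw [D.hl.inv] at h2
    rw [h1, h2, hg]
  have fx : fla (D.code x []) = D.fl x := by rw [D.code_nil]; rfl
  have fy : fla (D.code y []) = D.fl y := by rw [D.code_nil]; rfl
  constructor
  · unfold e0
    rw [fx]
    rcases D.fl_cases x with k | ⟨k, kL, kx⟩ | ⟨k, kL, kx⟩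
    · rw [if_neg (by rw [k]; simp), D.sh0_of0 hx k]
    · rw [if_neg (by rw [k]; simp), D.sh0_of1 hx k]
      have e : x * (D.g x)⁻¹ = 1 := by
        have e1 : D.g x = x := by
          have := D.g_s kL
          rw [← kx] at this
          exact this
        rw [e1, mul_inv_cancel]
      rw [e]
    · rw [if_pos k]
      have hy0 : D.fl y = 0 := by
        rcases h with h | h
        · rw [k] at h; exact absurd h (by simp)
        · exact h
      rw [D.sh3_of0 hy hy0 (by rw [← hlev]; exact kL)]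
      have e1 : D.g x = D.s (D.l x) := by
        have := D.g_si kL
        rw [← kx] at this
        exact this
      have e : x * (D.g x)⁻¹ = (D.s (D.l y) * D.s (D.l y))⁻¹ := by
        rw [e1, ← hlev, mul_inv_rev, ← kx]
      rw [e]
  · unfold e1
    rw [fy]
    rcases D.fl_cases y with k | ⟨k, kL, ky⟩ | ⟨k, kL, ky⟩
    · rw [if_neg (by rw [k]; simp), D.sh1_of0 hy k]
    · rw [if_pos k]
      have hx0 : D.fl x = 0 := by
        rcases h with h | h
        · exact h
        · rw [k] at h; exact absurd h (by simp)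
      rw [D.sh2_of0 hx hx0 (by rw [hlev]; exact kL)]
      have e1 : D.g y⁻¹ = y := by
        have := D.g_si kL
        rw [← ky] at this
        exact this
      rw [e1, hlev, ← ky]
    · rw [if_neg (by rw [k]; simp), D.sh1_of2 hy k]
      have e1 : D.g y⁻¹ = D.s (D.l y) := by
        have h2 : y⁻¹ = D.s (D.l y) := by
          rw [inv_eq_iff_eq_inv]; exact ky
        rw [h2]
        exact D.g_s kL
      have e : D.g y⁻¹ * y = 1 := by
        rw [e1]
        nth_rewrite 2 [ky]
        exact mul_inv_cancel _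
      rw [e]

lemma spe_iff {x y z : G} (h : Spe D.DD (D.root x) (D.root y) (D.root z)) : x * y * z = 1 := by
  classical
  obtain ⟨h0, h⟩ := h
  have hxy : D.l x = D.l y := D.LL_inj h0
  have k2 : kb2 (D.root z) = if D.fl z = 0 then D.kb z⁻¹ else D.lam0 := by
    change (if D.fl z = 0 then (D.kb z, D.kb z⁻¹) else (D.lam0, D.lam0)).2 = _
    split_ifs <;> rfl
  have k1 : kb1 (D.root z) = if D.fl z = 0 then D.kb z else D.lam0 := by
    change (if D.fl z = 0 then (D.kb z, D.kb z⁻¹) else (D.lam0, D.lam0)).1 = _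
    split_ifs <;> rfl
  have fx : fla (D.root x) = D.fl x := rfl
  have fy : fla (D.root y) = D.fl y := rfl
  have lx : D.l x ∈ D.L → (lab (D.root x)).1 = D.th (D.l x) := by
    intro hL
    change (D.LL x).1 = _
    unfold LL
    rw [if_pos hL]
  rw [fx, fy] at h
  rcases h with ⟨f1, f2, h⟩ | ⟨f1, f2, h⟩ | ⟨h, h'⟩
  · rcases D.fl_cases x with k | ⟨-, kL, kx⟩ | ⟨k, -, -⟩
    · rw [k] at f1; exact absurd f1 (by simp)
    · rcases D.fl_cases y with k | ⟨-, kL', ky⟩ | ⟨k, -, -⟩
      · rw [k] at f2; exact absurd f2 (by simp)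
      · rw [lx kL, k2] at h
        split_ifs at h with hz
        · have := (D.hD _ kL z⁻¹).1 h
          rw [← hxy] at ky
          have e : x * y = z⁻¹ := by
            rw [← this]
            exact congrArg₂ (· * ·) kx ky
          rw [e, inv_mul_cancel]
        · exact absurd h (D.hD0 _)
      · rw [k] at f2; exact absurd f2 (by simp)
    · rw [k] at f1; exact absurd f1 (by simp)
  · rcases D.fl_cases x with k | ⟨k, -, -⟩ | ⟨-, kL, kx⟩
    · rw [k] at f1; exact absurd f1 (by simp)
    · rw [k] at f1; exact absurd f1 (by simp)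
    · rcases D.fl_cases y with k | ⟨k, -, -⟩ | ⟨-, kL', ky⟩
      · rw [k] at f2; exact absurd f2 (by simp)
      · rw [k] at f2; exact absurd f2 (by simp)
      · rw [lx kL, k1] at h
        split_ifs at h with hz
        · have := (D.hD _ kL z).1 h
          rw [← hxy] at ky
          have e : x * y = z⁻¹ := by
            rw [← this, mul_inv_rev]
            exact congrArg₂ (· * ·) kx ky
          rw [e, inv_mul_cancel]
        · exact absurd h (D.hD0 _)
  · have hz : z = 1 := of_decide_eq_true h'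
    rw [hz, mul_one]
    rcases h with ⟨f1, f2⟩ | ⟨f1, f2⟩
    · rcases D.fl_cases x with k | ⟨-, kL, kx⟩ | ⟨k, -, -⟩
      · rw [k] at f1; exact absurd f1 (by simp)
      · rcases D.fl_cases y with k | ⟨k, -, -⟩ | ⟨-, kL', ky⟩
        · rw [k] at f2; exact absurd f2 (by simp)
        · rw [k] at f2; exact absurd f2 (by simp)
        · rw [← hxy] at ky
          have e : x * y = D.s (D.l x) * (D.s (D.l x))⁻¹ := congrArg₂ (· * ·) kx ky
          rw [e, mul_inv_cancel]
      · rw [k] at f1; exact absurd f1 (by simp)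
    · rcases D.fl_cases x with k | ⟨k, -, -⟩ | ⟨-, kL, kx⟩
      · rw [k] at f1; exact absurd f1 (by simp)
      · rw [k] at f1; exact absurd f1 (by simp)
      · rcases D.fl_cases y with k | ⟨-, kL', ky⟩ | ⟨k, -, -⟩
        · rw [k] at f2; exact absurd f2 (by simp)
        · rw [← hxy] at ky
          have e : x * y = (D.s (D.l x))⁻¹ * D.s (D.l x) := congrArg₂ (· * ·) kx ky
          rw [e, inv_mul_cancel]
        · rw [k] at f2; exact absurd f2 (by simp)

lemma spe_of {x y z : G} (hxy : D.l x = D.l y) (h : x * y * z = 1) (hx : D.fl x ≠ 0)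
    (hy : D.fl y ≠ 0) : Spe D.DD (D.root x) (D.root y) (D.root z) := by
  classical
  refine ⟨D.LL_congr hxy, ?_⟩
  have fx : fla (D.root x) = D.fl x := rfl
  have fy : fla (D.root y) = D.fl y := rfl
  have lx : D.l x ∈ D.L → (lab (D.root x)).1 = D.th (D.l x) := by
    intro hL
    change (D.LL x).1 = _
    unfold LL
    rw [if_pos hL]
  rw [fx, fy]
  rcases D.fl_cases x with k | ⟨k, kL, kx⟩ | ⟨k, kL, kx⟩
  · exact absurd k hx
  · rcases D.fl_cases y with k' | ⟨k', -, ky⟩ | ⟨k', -, ky⟩
    · exact absurd k' hy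
    · left
      refine ⟨k, k', ?_⟩
      rw [← hxy] at ky
      have e : D.s (D.l x) * D.s (D.l x) = z⁻¹ := by
        rw [← eq_inv_of_mul_eq_one_left h]
        exact congrArg₂ (· * ·) kx.symm ky.symm
      have hz : D.fl z = 0 := by
        refine D.fl_low ?_
        rw [← D.hl.inv z, ← e, D.hb _ kL]
      have k2 : kb2 (D.root z) = D.kb z⁻¹ := by
        change (if D.fl z = 0 then (D.kb z, D.kb z⁻¹) else (D.lam0, D.lam0)).2 = _
        rw [if_pos hz]
      rw [lx kL, k2]
      exact (D.hD _ kL z⁻¹).2 e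
    · right; right
      refine ⟨Or.inl ⟨k, k'⟩, ?_⟩
      rw [← hxy] at ky
      have e : x * y = 1 := by
        have e' : x * y = D.s (D.l x) * (D.s (D.l x))⁻¹ := congrArg₂ (· * ·) kx ky
        rw [e', mul_inv_cancel]
      rw [e, one_mul] at h
      exact decide_eq_true h
  · rcases D.fl_cases y with k' | ⟨k', -, ky⟩ | ⟨k', -, ky⟩
    · exact absurd k' hy
    · right; right
      refine ⟨Or.inr ⟨k, k'⟩, ?_⟩
      rw [← hxy] at ky
      have e : x * y = 1 := by
        have e' : x * y = (D.s (D.l x))⁻¹ * D.s (D.l x) := congrArg₂ (· * ·) kx ky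
        rw [e', inv_mul_cancel]
      rw [e, one_mul] at h
      exact decide_eq_true h
    · right; left
      refine ⟨k, k', ?_⟩
      rw [← hxy] at ky
      have e : D.s (D.l x) * D.s (D.l x) = z := by
        have e1 : x * y = z⁻¹ := eq_inv_of_mul_eq_one_left h
        have e2 : x * y = (D.s (D.l x))⁻¹ * (D.s (D.l x))⁻¹ := congrArg₂ (· * ·) kx ky
        rw [e2, ← mul_inv_rev, inv_inj] at e1
        exact e1
      have hz : D.fl z = 0 := by
        refine D.fl_low ?_
        rw [← e, D.hb _ kL]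
      have k1 : kb1 (D.root z) = D.kb z := by
        change (if D.fl z = 0 then (D.kb z, D.kb z⁻¹) else (D.lam0, D.lam0)).1 = _
        rw [if_pos hz]
      rw [lx kL, k1]
      exact (D.hD _ kL z).2 e

/-- The code recognises triples with product one. -/
lemma TT_iff (x y z : G) : x * y * z = 1 ↔ TT' D.DD (D.code x) (D.code y) (D.code z) := by
  have sound : ∀ n x y z, T' D.DD n (D.code x) (D.code y) (D.code z) → x * y * z = 1 := by
    intro n
    induction n with
    | zero => intro x y z h; exact h.elim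
    | succ n ih =>
      intro x y z h
      rcases h with h | ⟨h, h'⟩ | h | ⟨h, h'⟩
      · exact rot_one (ih y z x h)
      · rw [D.code_nil, D.code_nil, D.code_nil] at h h'
        exact (D.dec_iff (D.LL_inj h.1) (D.LL_inj h.2)).1 h'
      · rw [D.code_nil, D.code_nil, D.code_nil] at h
        exact D.spe_iff h
      · rw [D.code_nil, D.code_nil] at h
        obtain ⟨⟨h4, h5, h6⟩, h10⟩ := h
        have h7 : D.l 1 < D.l x := of_decide_eq_true h4
        have h8 : D.l 1 < D.l y := of_decide_eq_true h5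
        have h9 : D.g x = D.g y⁻¹ := D.CL_inj h6
        obtain ⟨e1, e2⟩ := D.e_eq h7 h8 h9 h10
        rw [e1, e2] at h'
        exact cls_sound h9 (ih _ _ _ h')
  have complete : ∀ o : Ordinal.{0}, ∀ x y z, max (D.l x) (max (D.l y) (D.l z)) = o →
      x * y * z = 1 → TT' D.DD (D.code x) (D.code y) (D.code z) := by
    intro o
    induction o using WellFoundedLT.induction with
    | ind o ih =>
      intro x y z ho h
      have main : ∀ x y z, D.l x ≤ o → x * y * z = 1 → D.l x = D.l y → D.l z < D.l x →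
          TT' D.DD (D.code x) (D.code y) (D.code z) := by
        intro x y z hxo h hxy hz
        obtain ⟨h1, h2⟩ := cls_complete D.hl D.hg h hxy hz
        have h7 : D.l 1 < D.l x := (D.hl.one_le z).trans_lt hz
        have h8 : D.l 1 < D.l y := by rw [← hxy]; exact h7
        by_cases h10 : D.fl x = 0 ∨ D.fl y = 0
        · obtain ⟨e1, e2⟩ := D.e_eq h7 h8 h1 h10
          refine TT'_cls ?_ ?_
          · rw [D.code_nil, D.code_nil]
            refine ⟨⟨decide_eq_true h7, decide_eq_true h8, ?_⟩, h10⟩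
            change D.CL (D.g x) = D.CL (D.g y⁻¹)
            rw [h1]
          · rw [e1, e2]
            refine ih _ ?_ _ _ _ rfl h2
            refine lt_of_lt_of_le ?_ hxo
            refine max_lt hz (max_lt (lt_a D.hl D.hg h7) ?_)
            rw [hxy]
            exact lt_a' D.hl D.hg h8
        · push Not at h10
          refine TT'_spe ?_
          rw [D.code_nil, D.code_nil, D.code_nil]
          exact D.spe_of hxy h h10.1 h10.2
      rcases cases_top D.hl h with ⟨h1, h2⟩ | ⟨h1, h2⟩ | ⟨h1, h2⟩ | ⟨h1, h2⟩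
      · refine TT'_same ?_ ?_
        · rw [D.code_nil, D.code_nil, D.code_nil]
          exact ⟨D.LL_congr h1, D.LL_congr h2⟩
        · rw [D.code_nil, D.code_nil, D.code_nil]
          exact (D.dec_iff h1 h2).2 h
      · exact main x y z (by rw [← ho]; exact le_max_left _ _) h h1 h2
      · refine TT'_rot (main y z x ?_ (rot_one (rot_one h)) h1 h2)
        rw [← ho]
        exact (le_max_left _ _).trans (le_max_right _ _)
      · refine TT'_rot (TT'_rot (main z x y ?_ (rot_one h) h1 h2))
        rw [← ho]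
        exact (le_max_right _ _).trans (le_max_right _ _)
  constructor
  · intro h
    exact complete _ x y z rfl h
  · rintro ⟨n, hn⟩
    exact sound n x y z hn

end Data

end Pool.Agent.R592.Gp.Sg
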