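import Pool.Agent.R592.Gp.SpecMu
import Pool.Agent.R592.Gp.SData

set_option autoImplicit false

/-!
The codes of the special elements are measurable functions of their labels (singular case).
-/

namespace Pool.Agent.R592.Gp.Sg

open Set Cardinal MeasureTheory Pool.Agent.R592.Gp

instance : StandardBorelSpace Lam := inferInstance
instance : StandardBorelSpace R' := inferInstance
instance : StandardBorelSpace C' := StandardBorelSpace.pi_countable
instance : MeasurableSpace.CountablyGenerated C' := inferInstance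

namespace Data

variable {G : Type} [Group G] (D : Data G)

/-- The code of a special element as a function of the label. -/
noncomputable def Psi (τ : Bool × Bool) (t : ℝ) : C' :=
  node' (((t, 0), (t, 0), (t, 0)), (true, 1, τ.1, false), default, (D.lam0, D.lam0)) (D.code 1)
    default default default

/-- The code of the inverse of a special element as a function of the label. -/
noncomputable def Psi' (τ : Bool × Bool) (t : ℝ) : C' :=
  if τ.2 then D.Psi τ t else
  node' (((t, 0), (t, 0), (t, 0)), (true, 2, τ.1, false), default, (D.lam0, D.lam0))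
    default (D.code 1) default default

lemma m_Psi (τ : Bool × Bool) : Measurable (D.Psi τ) := by
  refine measurable_node' ?_ _ _ _ _
  exact ((measurable_id.prodMk measurable_const).prodMk
    ((measurable_id.prodMk measurable_const).prodMk
      (measurable_id.prodMk measurable_const))).prodMk measurable_const

lemma m_Psi' (τ : Bool × Bool) : Measurable (D.Psi' τ) := by
  unfold Psi'
  by_cases h : τ.2 = true
  · simp only [h, if_true]
    exact D.m_Psi τ
  · simp only [h]
    refine measurable_node' ?_ _ _ _ _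
    exact ((measurable_id.prodMk measurable_const).prodMk
      ((measurable_id.prodMk measurable_const).prodMk
        (measurable_id.prodMk measurable_const))).prodMk measurable_const

lemma code_eq (x : G) : D.code x = node' (D.root x)
    (if D.fl x = 0 then
      (if _h : D.l (x * (D.g x)⁻¹) < D.l x then code D (x * (D.g x)⁻¹) else default)
      else (if D.fl x = 1 then (if _h : D.l 1 < D.l x then code D 1 else default) else default))
    (if D.fl x = 0 then
      (if _h : D.l (D.g x⁻¹ * x) < D.l x then code D (D.g x⁻¹ * x) else default)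
      else (if D.fl x = 2 then (if _h : D.l 1 < D.l x then code D 1 else default) else default))
    (if D.fl x = 0 then
      (if _h : D.l (D.s (D.l x) * D.s (D.l x)) < D.l x then code D (D.s (D.l x) * D.s (D.l x))
        else default) else default)
    (if D.fl x = 0 then
      (if _h : D.l (D.s (D.l x) * D.s (D.l x))⁻¹ < D.l x then
        code D (D.s (D.l x) * D.s (D.l x))⁻¹ else default) else default) := by
  conv_lhs => rw [code]

lemma code_of1 {x : G} (h : D.fl x = 1) (hx : D.l 1 < D.l x) :
    D.code x = node' (D.root x) (D.code 1) default default default := by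
  have h0 : ¬ D.fl x = 0 := by rw [h]; simp
  have h2 : ¬ D.fl x = 2 := by rw [h]; simp
  rw [D.code_eq x, if_neg h0, if_pos h, dif_pos hx, if_neg h0, if_neg h2, if_neg h0, if_neg h0]

lemma code_of2 {x : G} (h : D.fl x = 2) (hx : D.l 1 < D.l x) :
    D.code x = node' (D.root x) default (D.code 1) default default := by
  have h0 : ¬ D.fl x = 0 := by rw [h]; simp
  have h1 : ¬ D.fl x = 1 := by rw [h]; simp
  rw [D.code_eq x, if_neg h0, if_neg h1, if_neg h0, if_pos h, dif_pos hx, if_neg h0, if_neg h0]

open Classical in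
lemma spec_code {o : Ordinal.{0}} (ho : o ∈ D.L) :
    ∃ τ : Bool × Bool, D.code (D.s o) = D.Psi τ (D.th o) ∧
      D.code (D.s o)⁻¹ = D.Psi' τ (D.th o) := by
  have e0 : D.l (D.s o) = o := D.hs o ho
  have e0' : D.l (D.s o)⁻¹ = o := by rw [D.hl.inv, e0]
  have e1 : D.l 1 < o := D.h1 o ho
  refine ⟨(decide (D.s o * D.s o * D.s o = 1), decide ((D.s o)⁻¹ = D.s o)), ?_⟩
  have g1 : D.g (D.s o) = D.s o := D.g_s ho
  have g2 : D.g (D.s o)⁻¹ = D.s o := D.g_si ho
  have c1 : D.CL (D.s o) = (D.th o, 0) := by
    unfold CL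
    rw [e0, if_pos ⟨ho, rfl⟩]
  have L1 : D.LL (D.s o) = (D.th o, 0) := by
    unfold LL
    rw [e0, if_pos ho]
  have L2 : D.LL (D.s o)⁻¹ = (D.th o, 0) := by
    unfold LL
    rw [e0', if_pos ho]
  have f1 : D.fl (D.s o) = 1 := by
    unfold fl
    rw [e0, if_pos ⟨ho, rfl⟩]
  have n1 : D.s o ≠ 1 := D.ne_one ho
  have n2 : (D.s o)⁻¹ ≠ 1 := fun h => n1 (inv_eq_one.1 h)
  have r1 : D.root (D.s o) = (((D.th o, 0), (D.th o, 0), (D.th o, 0)),
      (true, 1, decide (D.s o * D.s o * D.s o = 1), false), default, (D.lam0, D.lam0)) := by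
    unfold root
    rw [L1, g1, g2, c1, f1, e0]
    simp [e1, n1]
  have k1 : D.code (D.s o) = D.Psi (decide (D.s o * D.s o * D.s o = 1),
      decide ((D.s o)⁻¹ = D.s o)) (D.th o) := by
    rw [D.code_of1 f1 (by rw [e0]; exact e1), r1]
    rfl
  refine ⟨k1, ?_⟩
  by_cases hi : (D.s o)⁻¹ = D.s o
  · have e : D.Psi' (decide (D.s o * D.s o * D.s o = 1), decide ((D.s o)⁻¹ = D.s o)) (D.th o) =
      D.Psi (decide (D.s o * D.s o * D.s o = 1), decide ((D.s o)⁻¹ = D.s o)) (D.th o) := by
      unfold Psi'
      rw [if_pos (decide_eq_true hi)]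
    rw [e, ← k1, hi]
  · have f2 : D.fl (D.s o)⁻¹ = 2 := by
      unfold fl
      rw [e0', if_neg (fun k => hi k.2), if_pos ⟨ho, rfl⟩]
    have r2 : D.root (D.s o)⁻¹ = (((D.th o, 0), (D.th o, 0), (D.th o, 0)),
        (true, 2, decide (D.s o * D.s o * D.s o = 1), false), default, (D.lam0, D.lam0)) := by
      unfold root
      rw [L2, inv_inv, g1, g2, c1, f2, e0']
      simp [e1, n1]
    rw [D.code_of2 f2 (by rw [e0']; exact e1), r2]
    unfold Psi'
    exact (if_neg (show ¬ (decide ((D.s o)⁻¹ = D.s o) = true) by simpa using hi)).symm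

/-- The group of `D` is abstractly Borelian if the labels of the special levels form a set of
positive finite outer measure. -/
theorem abs_mu (ν : Measure ℝ) [NullSingletonClass ν] (h0 : ν (D.th '' D.L) ≠ 0) (h1 : ν (D.th '' D.L) ≠ ⊤) :
    AbstractlyBorelian G := by
  let Lt : Bool × Bool → Set Ordinal.{0} := fun τ =>
    {o | o ∈ D.L ∧ D.code (D.s o) = D.Psi τ (D.th o) ∧ D.code (D.s o)⁻¹ = D.Psi' τ (D.th o)}
  have hcov : D.th '' D.L ⊆ ⋃ τ, D.th '' Lt τ := by
    rintro r ⟨o, ho, rfl⟩
    obtain ⟨τ, hτ⟩ := D.spec_code ho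
    exact mem_iUnion.2 ⟨τ, o, ⟨ho, hτ⟩, rfl⟩
  obtain ⟨τ, hτ⟩ : ∃ τ, ν (D.th '' Lt τ) ≠ 0 := by
    by_contra hcon
    push Not at hcon
    exact h0 (measure_mono_null hcov (measure_iUnion_null hcon))
  have hτ' : ν (D.th '' Lt τ) ≠ ⊤ := by
    refine ne_top_of_le_ne_top h1 (measure_mono (image_mono (fun o ho => ho.1)))
  let X : Set G := {x | ∃ o ∈ Lt τ, x = D.s o}
  let t : G → ℝ := fun x => D.th (D.l x)
  have hX : t '' X = D.th '' Lt τ := by
    ext r
    constructor
    · rintro ⟨x, ⟨o, ho, rfl⟩, rfl⟩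
      exact ⟨o, ho, by simp only [t]; rw [D.hs o ho.1]⟩
    · rintro ⟨o, ho, rfl⟩
      exact ⟨D.s o, ⟨o, ho, rfl⟩, by simp only [t]; rw [D.hs o ho.1]⟩
  let F : G → C' × C' := fun x => (D.code x, D.code x⁻¹)
  let mB : MeasurableSpace G := MeasurableSpace.comap F inferInstance
  have hF : @Measurable G (C' × C') mB _ F := comap_measurable F
  have hcg : @MeasurableSpace.CountablyGenerated G mB := MeasurableSpace.CountablyGenerated.comap F
  let A : ℕ → Set G := @MeasurableSpace.natGeneratingSequence G mB hcg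
  have hA : sig A = mB := @MeasurableSpace.generateFrom_natGeneratingSequence G mB hcg
  refine ⟨A, ?_, ?_⟩
  · unfold MeasurableSeq
    refine exists_measure_mu ν (sig A) X t ?_ (by rw [hX]; exact hτ) (by rw [hX]; exact hτ')
    intro S hS
    rw [hA] at hS
    obtain ⟨E, hE, rfl⟩ := hS
    refine ⟨{r | (D.Psi τ r, D.Psi' τ r) ∈ E}, ((D.m_Psi τ).prodMk (D.m_Psi' τ)) hE, ?_⟩
    rintro x ⟨o, ho, rfl⟩
    have e : F (D.s o) = (D.Psi τ (t (D.s o)), D.Psi' τ (t (D.s o))) := by
      simp only [F, t]
      rw [D.hs o ho.1, ho.2.1, ho.2.2]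
    change F (D.s o) ∈ E ↔ (D.Psi τ (t (D.s o)), D.Psi' τ (t (D.s o))) ∈ E
    rw [e]
  · unfold Borelian
    rw [hA]
    have e : {p : G × G × G | p.1 * p.2.1 = p.2.2} =
        {p | TT' D.DD (F p.1).1 (F p.2.1).1 (F p.2.2).2} := by
      ext p
      simp only [mem_ofPred_eq, F]
      rw [← D.TT_iff]
      exact (mul_inv_eq_one).symm
    rw [e]
    have p1 : @Measurable (G × G × G) G (mB.prod (mB.prod mB)) mB (fun p => p.1) :=
      @measurable_fst G (G × G) mB (mB.prod mB)
    have p2' : @Measurable (G × G × G) (G × G) (mB.prod (mB.prod mB)) (mB.prod mB)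
        (fun p => p.2) := @measurable_snd G (G × G) mB (mB.prod mB)
    have p2 : @Measurable (G × G × G) G (mB.prod (mB.prod mB)) mB (fun p => p.2.1) :=
      (@measurable_fst G G mB mB).comp p2'
    have p3 : @Measurable (G × G × G) G (mB.prod (mB.prod mB)) mB (fun p => p.2.2) :=
      (@measurable_snd G G mB mB).comp p2'
    exact @meas_TT' (G × G × G) (mB.prod (mB.prod mB)) D.DD D.hDD _ _ _
      (measurable_fst.comp (hF.comp p1)) (measurable_fst.comp (hF.comp p2))
      (measurable_snd.comp (hF.comp p3))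


end Data

end Pool.Agent.R592.Gp.Sg
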