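import Pool.Agent.R592.Gp.SSpec
import Pool.Agent.R592.Gp.OmMain
import Pool.Agent.R592.Gp.Comb

set_option autoImplicit false

/-!
The singular case: allocation of the special elements.
-/

namespace Pool.Agent.R592.Gp.Sg

open Set Cardinal MeasureTheory Pool.Agent.R592.Gp

theorem build_sg {G : Type} [Group G] (hG : #G ≤ 𝔠) (ν : Measure ℝ) [NullSingletonClass ν]
    [IsFiniteMeasure ν] {DD : Set (ℝ × Lam)} (hDD : MeasurableSet DD) {lam0 : Lam}
    (hD0 : ∀ t, (t, lam0) ∉ DD) (kb : G → Lam)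
    (H₁ : Subgroup G) (hsq : ∀ x : G, x * x ∈ H₁)
    {N : Type} (r : N → N → Prop) [IsWellOrder N r] (q : N → G × ℝ)
    (hq1 : ∀ n, (q n).1 ∉ Subgroup.closure ((H₁ : Set G) ∪
      range (fun x : {m // r m n} => (q x.1).1)))
    (hq2 : ∀ n, ∀ x : {m // r m n}, (q n).2 ≠ (q x.1).2)
    (hq3 : ∀ n b, ((q n).2, kb b) ∈ DD ↔ (q n).1 * (q n).1 = b)
    (hν : ν (range fun n => (q n).2) ≠ 0) : AbstractlyBorelian G := by
  classical
  obtain ⟨c, hc⟩ := coded_all _ hG G rfl
  obtain ⟨inj⟩ : Nonempty (G ↪ ℝ) := by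
    rw [← mk_real] at hG
    exact (le_def G ℝ).1 hG
  let j : N → Ordinal.{0} := fun n => Ordinal.typein r n
  have hj : Function.Injective j := Ordinal.typein_injective r
  have hj' : ∀ n, j n < Ordinal.type r := fun n => Ordinal.typein_lt_type r n
  let Hq : Ordinal.{0} → Subgroup G := fun o =>
    Subgroup.closure ((H₁ : Set G) ∪ {x | ∃ n, j n < o ∧ x = (q n).1})
  have hHm : Monotone Hq := by
    intro o o' ho
    refine Subgroup.closure_mono (union_subset_union_right _ ?_)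
    rintro x ⟨n, hn, rfl⟩
    exact ⟨n, hn.trans_le ho, rfl⟩
  let F : Ordinal.{0} → Subgroup G := fun o => if o ≤ Ordinal.type r then Hq o else ⊤
  have hF1 : ∀ o ≤ Ordinal.type r, F o = Hq o := fun o ho => if_pos ho
  have hF : Monotone F := by
    intro i k hik
    by_cases hk : k ≤ Ordinal.type r
    · rw [hF1 k hk, hF1 i (hik.trans hk)]
      exact hHm hik
    · have : F k = ⊤ := if_neg hk
      rw [this]
      exact le_top
  have hU : ∀ x, ∃ o, x ∈ F o := fun x => ⟨Order.succ (Ordinal.type r), by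
    have : F (Order.succ (Ordinal.type r)) = ⊤ := if_neg (not_le.2 (Order.lt_succ _))
    rw [this]; exact Subgroup.mem_top x⟩
  have hl : Lvl (lev F) := lvl_lev hF hU
  have hmem : ∀ z, z ∈ F (lev F z) := fun z => csInf_mem (s := {o | z ∈ F o}) (hU z)
  have hgt : ∀ i z, z ∉ F i → i < lev F z := by
    intro i z hz
    by_contra hcon
    exact hz (hF (not_lt.1 hcon) (hmem z))
  have l1 : ∀ n, lev F (q n).1 = Order.succ (j n) := by
    intro n
    refine le_antisymm (csInf_le' ?_) (Order.succ_le_of_lt (hgt (j n) _ ?_))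
    · change (q n).1 ∈ F (Order.succ (j n))
      rw [hF1 _ (Order.succ_le_of_lt (hj' n))]
      exact Subgroup.subset_closure (Or.inr ⟨n, Order.lt_succ _, rfl⟩)
    · rw [hF1 _ (hj' n).le]
      have e : {x | ∃ m, j m < j n ∧ x = (q m).1} =
          range (fun x : {m // r m n} => (q x.1).1) := by
        ext x
        constructor
        · rintro ⟨m, hm, rfl⟩
          exact ⟨⟨m, (Ordinal.typein_lt_typein r).1 hm⟩, rfl⟩
        · rintro ⟨m, rfl⟩
          exact ⟨m.1, (Ordinal.typein_lt_typein r).2 m.2, rfl⟩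
      change (q n).1 ∉ Subgroup.closure ((H₁ : Set G) ∪ {x | ∃ m, j m < j n ∧ x = (q m).1})
      rw [e]
      exact hq1 n
  have l0 : ∀ z ∈ H₁, lev F z = 0 := by
    intro z hz
    refine le_antisymm (csInf_le' ?_) zero_le
    change z ∈ F 0
    rw [hF1 0 zero_le]
    exact Subgroup.subset_closure (Or.inl hz)
  let L : Set Ordinal.{0} := {o | ∃ n, o = Order.succ (j n)}
  let s : Ordinal.{0} → G := fun o => if h : ∃ n, o = Order.succ (j n) then
    (q (Classical.choose h)).1 else 1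
  let th : Ordinal.{0} → ℝ := fun o => if h : ∃ n, o = Order.succ (j n) then
    (q (Classical.choose h)).2 else 0
  have hch : ∀ (n : N) (h : ∃ m, Order.succ (j n) = Order.succ (j m)),
      Classical.choose h = n := fun n h =>
    (hj (Order.succ_injective (Classical.choose_spec h))).symm
  have hs : ∀ n, s (Order.succ (j n)) = (q n).1 := by
    intro n
    have h : ∃ m, Order.succ (j n) = Order.succ (j m) := ⟨n, rfl⟩
    simp only [s]
    rw [dif_pos h, hch n h]
  have hth : ∀ n, th (Order.succ (j n)) = (q n).2 := by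
    intro n
    have h : ∃ m, Order.succ (j n) = Order.succ (j m) := ⟨n, rfl⟩
    simp only [th]
    rw [dif_pos h, hch n h]
  have hL : th '' L = range fun n => (q n).2 := by
    ext x
    constructor
    · rintro ⟨o, ⟨n, rfl⟩, rfl⟩
      exact ⟨n, (hth n).symm⟩
    · rintro ⟨n, rfl⟩
      exact ⟨_, ⟨n, rfl⟩, hth n⟩
  obtain ⟨g0, hg0⟩ := exists_reps hl
  let D : Data G :=
    { l := lev F
      hl := hl
      L := L
      s := s
      th := th
      hs := by
        rintro o ⟨n, rfl⟩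
        rw [hs, l1]
      h1 := by
        rintro o ⟨n, rfl⟩
        rw [l0 1 H₁.one_mem]
        exact lt_of_le_of_lt zero_le (Order.lt_succ (j n))
      hb := by
        rintro o ⟨n, rfl⟩
        rw [l0 1 H₁.one_mem, l0 _ (hsq _)]
      hth := by
        rintro o ⟨n, rfl⟩ o' ⟨m, rfl⟩ h
        rw [hth n, hth m] at h
        rcases trichotomous_of r n m with hb | hb | hb
        · exact absurd h.symm (hq2 m ⟨n, hb⟩)
        · rw [hb]
        · exact absurd h (hq2 n ⟨m, hb⟩)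
      inj := inj
      hinj := inj.injective
      inner := c
      hinner := hc
      g0 := g0
      hg0 := hg0
      kb := kb
      lam0 := lam0
      DD := DD
      hDD := hDD
      hD0 := hD0
      hD := by
        rintro o ⟨n, rfl⟩ b
        rw [hs, hth]
        exact hq3 n b }
  refine D.abs_mu ν ?_ ?_
  · change ν (th '' L) ≠ 0
    rw [hL]; exact hν
  · exact measure_ne_top _ _

theorem sing {G : Type} [Group G] (hG : #G = 𝔠) (hsq : #{y : G // ∃ x, y = x * x} < 𝔠)
    (hfib : ∀ b : G, #{x : G // x * x = b} < 𝔠) (ν : Measure ℝ) [NullSingletonClass ν]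
    [IsFiniteMeasure ν] (hν : ν univ ≠ 0) {DD : Set (ℝ × Lam)} (hDD : MeasurableSet DD)
    {lam0 : Lam} (hD0 : ∀ t, (t, lam0) ∉ DD) {Θ : Type} (κ : Θ → (ℕ → Bool) → Lam)
    (hdis : ∀ t β r β' r', (t, κ β r) ∈ DD → (t, κ β' r') ∈ DD → β = β' ∧ r = r')
    (hcov : ∀ M : Set ℝ, ν M = 0 → ∃ β, ∀ r, ∃ t, t ∉ M ∧ (t, κ β r) ∈ DD)
    (hΘ : ∀ (I : Type) (M : I → Set ℝ), (∀ i, ν (M i) = 0) → ν (⋃ i, M i) ≠ 0 → #Θ ≤ #I)
    (hnull : ∀ Y : Set ℝ, #Y < 𝔠 → ν Y = 0) : AbstractlyBorelian G := by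
  classical
  let Sq : Type := {y : G // ∃ x, y = x * x}
  let f : G → Sq := fun x => ⟨x * x, x, rfl⟩
  have hfin : ∀ b, f ⁻¹' {b} = {x | x * x = b.1} := by
    intro b
    ext x
    simp only [mem_preimage, mem_singleton_iff, mem_ofPred_eq, f]
    exact Subtype.ext_iff
  have hf : ∀ b, #(f ⁻¹' {b}) < 𝔠 := by
    intro b
    rw [hfin]
    exact hfib b.1
  obtain ⟨I, Mi, hI, hMi, hMU, hMc⟩ := Comb.exists_cofinal (κ := 𝔠) aleph0_le_continuum
    (α := ℝ) mk_real
  have hΘI : #Θ ≤ #I := hΘ I Mi (fun i => hnull _ (hMi i)) (by rw [hMU]; exact hν)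
  have hcof : ℵ₀ ≤ #I := by
    rw [hI]
    exact Ordinal.aleph0_le_cof_iff.2 (Ordinal.one_lt_cof_iff.2
      (isSuccLimit_ord aleph0_le_continuum))
  have hprod : #(Θ × I) ≤ (𝔠 : Cardinal.{0}).ord.cof := by
    rw [← hI, mk_prod, lift_id, lift_id]
    exact (mul_le_mul_left hΘI _).trans (mul_eq_self hcof).le
  obtain ⟨B, hBinj, hB⟩ := Comb.inj_choice hprod
    (fun p : Θ × I => {b : Sq | #(Mi p.2) < #(f ⁻¹' {b})})
    (fun p => Comb.many_big aleph0_le_continuum f hG.ge hsq hf (hMi p.2))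
  -- distinct eventually different functions
  obtain ⟨zI⟩ : Nonempty (I ↪ (ℕ → Bool)) := by
    have h1 : #I ≤ #(ℕ → Bool) := by
      rw [hI]
      refine (Ordinal.cof_le_card _).trans ?_
      rw [card_ord]
      simp
    exact (le_def _ _).1 h1
  let kb : G → Lam := fun b => if h : ∃ p, (B p).1 = b then
    κ (Classical.choose h).1 (zI (Classical.choose h).2) else lam0
  have hkb : ∀ p, kb (B p).1 = κ p.1 (zI p.2) := by
    intro p
    have h : ∃ p', (B p').1 = (B p).1 := ⟨p, rfl⟩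
    have h2 : Classical.choose h = p := hBinj (Subtype.ext (Classical.choose_spec h))
    simp only [kb]
    rw [dif_pos h, h2]
  have hkb' : ∀ t b, (t, kb b) ∈ DD → ∃ p, (B p).1 = b := by
    intro t b ht
    by_contra hcon
    simp only [kb] at ht
    rw [dif_neg hcon] at ht
    exact hD0 t ht
  let H₁ : Subgroup G := Subgroup.closure (range (fun b : Sq => b.1))
  have hH₁ : ∀ x : G, x * x ∈ H₁ := fun x => Subgroup.subset_closure ⟨f x, rfl⟩
  have hH₁c : #H₁ < 𝔠 := (card_closure_le _).trans_lt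
    (max_lt aleph0_lt_continuum (mk_range_le.trans_lt hsq))
  -- null sets
  let N : Type := {S : Set ℝ // MeasurableSet S ∧ ν S = 0}
  have hN : #N ≤ 𝔠 := by
    obtain ⟨gs, hgs1, hgs2⟩ := MeasurableSpace.CountablyGenerated.isCountablyGenerated (α := ℝ)
    have h1 : #{S : Set ℝ | @MeasurableSet ℝ (MeasurableSpace.generateFrom gs) S} ≤ 𝔠 :=
      MeasurableSpace.cardinal_measurableSet_le_continuum
        ((le_aleph0_iff_set_countable.2 hgs1).trans aleph0_le_continuum)
    rw [← hgs2] at h1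
    refine le_trans ?_ h1
    exact mk_le_mk_of_subset (s := {S : Set ℝ | MeasurableSet S ∧ ν S = 0})
      (t := {S : Set ℝ | MeasurableSet S}) (fun S hS => hS.1)
  obtain ⟨r, wo, hr⟩ := exists_ord_eq N
  have hseg : ∀ n, #{m // r m n} < 𝔠 := by
    intro n
    have h1 := Ordinal.typein_lt_type r n
    rw [← hr, lt_ord] at h1
    exact lt_of_lt_of_le h1 hN
  obtain ⟨q, hq⟩ := Comb.rec_choice (B := G × ℝ) r (fun n g q =>
      q.1 ∉ Subgroup.closure ((H₁ : Set G) ∪ range (fun x => (g x).1)) ∧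
      (∀ x, q.2 ≠ (g x).2) ∧ q.2 ∉ n.1 ∧
      ∃ p, q.1 * q.1 = (B p).1 ∧ (q.2, κ p.1 (zI p.2)) ∈ DD) (by
    intro n g
    have hM : ν (n.1 ∪ range (fun x => (g x).2)) = 0 := by
      refine measure_union_null n.2.2 (hnull _ ?_)
      exact mk_range_le.trans_lt (hseg n)
    obtain ⟨β, hβ⟩ := hcov _ hM
    have hcl : #(Subgroup.closure ((H₁ : Set G) ∪ range (fun x => (g x).1))) < 𝔠 := by
      refine (card_closure_le _).trans_lt (max_lt aleph0_lt_continuum ?_)
      refine (mk_union_le _ _).trans_lt (add_lt_of_lt aleph0_le_continuum hH₁c ?_)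
      exact mk_range_le.trans_lt (hseg n)
    obtain ⟨i, hi⟩ := hMc _ hcl
    have hbig := hi.trans_lt (hB (β, i))
    obtain ⟨x, hx, hx'⟩ : ∃ x, x ∈ f ⁻¹' {B (β, i)} ∧
        x ∉ Subgroup.closure ((H₁ : Set G) ∪ range (fun x => (g x).1)) := by
      by_contra hcon
      push Not at hcon
      exact absurd (mk_le_mk_of_subset (s := f ⁻¹' {B (β, i)})
        (t := (Subgroup.closure ((H₁ : Set G) ∪ range (fun x => (g x).1)) : Set G)) hcon)
        (not_le.2 hbig)
    obtain ⟨t, ht, ht'⟩ := hβ (zI i)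
    refine ⟨(x, t), hx', fun y hy => ht (Or.inr ⟨y, hy.symm⟩), fun hy => ht (Or.inl hy),
      (β, i), ?_, ht'⟩
    rw [hfin] at hx
    exact hx)
  refine build_sg hG.le ν hDD hD0 kb H₁ hH₁ r q (fun n => (hq n).1) (fun n => (hq n).2.1) ?_ ?_
  · intro n b
    obtain ⟨p, hp1, hp2⟩ := (hq n).2.2.2
    constructor
    · intro h
      obtain ⟨p', hp'⟩ := hkb' _ _ h
      rw [← hp', hkb p'] at h
      obtain ⟨e1, e2⟩ := hdis _ _ _ _ _ hp2 h
      have e3 : p = p' := Prod.ext e1 (zI.injective e2)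
      rw [hp1, e3, hp']
    · intro h
      rw [← h, hp1, hkb p]
      exact hp2
  · intro h0
    obtain ⟨T, hT1, hT2, hT3⟩ := exists_measurable_superset_of_null h0
    exact (hq ⟨T, hT2, hT3⟩).2.2.1 (hT1 ⟨⟨T, hT2, hT3⟩, rfl⟩)

/-- Every group of cardinality `𝔠` is abstractly Borelian. -/
theorem abs_all {G : Type} [Group G] (hG : #G = 𝔠) : AbstractlyBorelian G := by
  obtain ⟨ν, DD, lam0, Θ, κ, i1, i2, hν, hDD, hD0, hdis, hcov, hΘ⟩ := Om.interface
  by_cases h1 : ∀ Y : Set ℝ, #Y < 𝔠 → ν Y = 0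
  · by_cases h2 : 𝔠 ≤ #{y : G // ∃ x, y = x * x}
    · exact abs_squares hG h2
    · by_cases h3 : ∃ b : G, 𝔠 ≤ #{x : G // x * x = b}
      · obtain ⟨b, hb⟩ := h3
        exact abs_fiber hG hb
      · push Not at h3
        exact sing hG (not_le.1 h2) h3 ν hν hDD hD0 κ hdis hcov hΘ h1
  · push Not at h1
    obtain ⟨Y, hY, hY0⟩ := h1
    exact abs_small_mu ν hG hY hY0

end Pool.Agent.R592.Gp.Sg
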