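import Pool.Agent.R592.Gp.Meas

set_option autoImplicit false

/-!
The codes of the special elements are measurable functions of their labels; from this the group
is abstractly Borelian.
-/

namespace Pool.Agent.R592.Gp

open Set Cardinal MeasureTheory

instance : StandardBorelSpace R := inferInstance
instance : StandardBorelSpace C := inferInstance
instance : StandardBorelSpace R' := inferInstance
instance : StandardBorelSpace C' := StandardBorelSpace.pi_countable
instance : MeasurableSpace.CountablyGenerated C' := inferInstance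

namespace Data

variable {G : Type} [Group G] (D : Data G)

/-- The code of a special element as a function of the label. -/
noncomputable def Psi (τ : Bool × Bool × Bool) (t : ℝ) : C' :=
  node' (((t, 0), (t, 0), (t, if τ.1 then 0 else 1)), (true, 1, τ.2.1), default) (D.code 1)
    (if τ.1 then D.code D.b else D.code 1)

/-- The code of the inverse of a special element as a function of the label. -/
noncomputable def Psi' (τ : Bool × Bool × Bool) (t : ℝ) : C' :=
  if τ.2.2 then D.Psi τ t else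
  node' (((t, 0), (t, if τ.1 then 0 else 1), (t, 0)), (true, 2, τ.2.1), default)
    (if τ.1 then D.code D.b⁻¹ else D.code 1) (D.code 1)

lemma m_Psi (τ : Bool × Bool × Bool) : Measurable (D.Psi τ) := by
  refine measurable_node' ?_ _ _
  exact ((measurable_id.prodMk measurable_const).prodMk
    ((measurable_id.prodMk measurable_const).prodMk
      (measurable_id.prodMk measurable_const))).prodMk measurable_const

lemma m_Psi' (τ : Bool × Bool × Bool) : Measurable (D.Psi' τ) := by
  unfold Psi'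
  by_cases h : τ.2.2 = true
  · simp only [h, if_true]
    exact D.m_Psi τ
  · simp only [h]
    refine measurable_node' ?_ _ _
    exact ((measurable_id.prodMk measurable_const).prodMk
      ((measurable_id.prodMk measurable_const).prodMk
        (measurable_id.prodMk measurable_const))).prodMk measurable_const

open Classical in
lemma spec_code {o : Ordinal.{0}} (ho : o ∈ D.L) :
    ∃ τ : Bool × Bool × Bool, D.code (D.s o) = D.Psi τ (D.th o) ∧
      D.code (D.s o)⁻¹ = D.Psi' τ (D.th o) := by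
  have e0 : D.l (D.s o) = o := D.hs o ho
  have e0' : D.l (D.s o)⁻¹ = o := by rw [D.hl.inv, e0]
  have e1 : D.l 1 < o := D.h1 o ho
  refine ⟨(decide (Rel D.l (D.s o)⁻¹ (D.s o)), decide (D.s o * D.s o * D.s o = 1),
    decide ((D.s o)⁻¹ = D.s o)), ?_⟩
  -- representatives
  have g1 : D.g (D.s o) = D.s o := by
    unfold Data.g gr
    rw [e0, if_pos ⟨ho, rel_refl _⟩]
  have g2 : Rel D.l (D.s o)⁻¹ (D.s o) → D.g (D.s o)⁻¹ = D.s o := by
    intro h
    rw [D.hg.eq _ _ h, g1]
  have g3 : ¬ Rel D.l (D.s o)⁻¹ (D.s o) → D.g (D.s o)⁻¹ = (D.s o)⁻¹ := by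
    intro h
    unfold Data.g gr
    rw [e0', if_neg (fun k => h k.2), if_pos ⟨ho, rel_refl _⟩]
  have b1 : Rel D.l (D.s o)⁻¹ (D.s o) → D.s o * D.s o = D.b := by
    intro h
    rcases D.hb o ho with hb | hb
    · exact hb
    · exfalso
      rcases h with h | ⟨-, h⟩
      · have : D.s o * D.s o = 1 := by
          nth_rewrite 1 [← h]
          exact inv_mul_cancel _
        rw [this] at hb
        rw [hb] at e1
        exact lt_irrefl _ e1
      · have e : (D.s o)⁻¹ * (D.s o)⁻¹ = (D.s o * D.s o)⁻¹ := by group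
        rw [e, D.hl.inv, hb, e0'] at h
        exact lt_irrefl _ h
  -- class labels
  have c1 : D.CL (D.s o) = (D.th o, 0) := by
    unfold CL
    rw [e0, if_pos ⟨ho, rfl⟩]
  have c2 : ¬ Rel D.l (D.s o)⁻¹ (D.s o) → D.CL (D.s o)⁻¹ = (D.th o, 1) := by
    intro h
    unfold CL
    rw [e0', if_neg (fun k => h (Or.inl k.2)), if_pos ⟨ho, rfl⟩]
  have c3 : D.CL (D.g (D.s o)⁻¹) =
      (D.th o, if decide (Rel D.l (D.s o)⁻¹ (D.s o)) = true then 0 else 1) := by
    by_cases h : Rel D.l (D.s o)⁻¹ (D.s o)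
    · rw [g2 h, c1]; simp [h]
    · rw [g3 h, c2 h]; simp [h]
  have L1 : D.LL (D.s o) = (D.th o, 0) := by
    unfold LL
    rw [e0, if_pos ho]
  have L2 : D.LL (D.s o)⁻¹ = (D.th o, 0) := by
    unfold LL
    rw [e0', if_pos ho]
  have f1 : D.fl (D.s o) = 1 := by
    unfold fl
    rw [e0, if_pos ⟨ho, rfl⟩]
  have r1 : D.root (D.s o) = (((D.th o, 0), (D.th o, 0),
      (D.th o, if decide (Rel D.l (D.s o)⁻¹ (D.s o)) = true then 0 else 1)),
      (true, 1, decide (D.s o * D.s o * D.s o = 1)), default) := by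
    unfold root
    rw [L1, g1, c1, c3, f1, e0]
    simp [e1]
  have k1 : D.code (D.s o) = D.Psi (decide (Rel D.l (D.s o)⁻¹ (D.s o)),
      decide (D.s o * D.s o * D.s o = 1), decide ((D.s o)⁻¹ = D.s o)) (D.th o) := by
    rw [D.code_eq (by rw [e0]; exact e1), r1, g1, mul_inv_cancel]
    unfold Psi
    congr 1
    by_cases h : Rel D.l (D.s o)⁻¹ (D.s o)
    · rw [g2 h, b1 h]; simp [h]
    · rw [g3 h, inv_mul_cancel]; simp [h]
  refine ⟨k1, ?_⟩
  by_cases hi : (D.s o)⁻¹ = D.s o
  · have e : D.Psi' (decide (Rel D.l (D.s o)⁻¹ (D.s o)),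
      decide (D.s o * D.s o * D.s o = 1), decide ((D.s o)⁻¹ = D.s o)) (D.th o) =
      D.Psi (decide (Rel D.l (D.s o)⁻¹ (D.s o)),
      decide (D.s o * D.s o * D.s o = 1), decide ((D.s o)⁻¹ = D.s o)) (D.th o) := by
      unfold Psi'
      rw [if_pos (decide_eq_true hi)]
    rw [e, ← k1, hi]
  · have f2 : D.fl (D.s o)⁻¹ = 2 := by
      unfold fl
      rw [e0', if_neg (fun k => hi k.2), if_pos ⟨ho, rfl⟩]
    have r2 : D.root (D.s o)⁻¹ = (((D.th o, 0),
        (D.th o, if decide (Rel D.l (D.s o)⁻¹ (D.s o)) = true then 0 else 1), (D.th o, 0)),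
        (true, 2, decide (D.s o * D.s o * D.s o = 1)), default) := by
      unfold root
      rw [L2, inv_inv, g1, c1, c3, f2, e0']
      simp [e1]
    rw [D.code_eq (by rw [e0']; exact e1), r2, inv_inv, g1, mul_inv_cancel]
    have e : D.Psi' (decide (Rel D.l (D.s o)⁻¹ (D.s o)),
        decide (D.s o * D.s o * D.s o = 1), decide ((D.s o)⁻¹ = D.s o)) (D.th o) =
        node' (((D.th o, 0), (D.th o, if decide (Rel D.l (D.s o)⁻¹ (D.s o)) = true then 0 else 1),
          (D.th o, 0)), (true, 2, decide (D.s o * D.s o * D.s o = 1)), default)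
        (if decide (Rel D.l (D.s o)⁻¹ (D.s o)) = true then D.code D.b⁻¹ else D.code 1)
        (D.code 1) := by
      unfold Psi'
      exact if_neg (show ¬ (decide ((D.s o)⁻¹ = D.s o) = true) by simpa using hi)
    rw [e]
    congr 1
    by_cases h : Rel D.l (D.s o)⁻¹ (D.s o)
    · have e : (D.s o)⁻¹ * (D.s o)⁻¹ = (D.s o * D.s o)⁻¹ := by group
      rw [g2 h, e, b1 h]; simp [h]
    · rw [g3 h, mul_inv_cancel]; simp [h]

/-- The group of `D` is abstractly Borelian if the labels of the special levels form a set of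
positive finite outer measure. -/
theorem abs (h0 : volume (D.th '' D.L) ≠ 0) (h1 : volume (D.th '' D.L) ≠ ⊤) :
    AbstractlyBorelian G := by
  let Lt : Bool × Bool × Bool → Set Ordinal.{0} := fun τ =>
    {o | o ∈ D.L ∧ D.code (D.s o) = D.Psi τ (D.th o) ∧ D.code (D.s o)⁻¹ = D.Psi' τ (D.th o)}
  have hcov : D.th '' D.L ⊆ ⋃ τ, D.th '' Lt τ := by
    rintro r ⟨o, ho, rfl⟩
    obtain ⟨τ, hτ⟩ := D.spec_code ho
    exact mem_iUnion.2 ⟨τ, o, ⟨ho, hτ⟩, rfl⟩
  obtain ⟨τ, hτ⟩ : ∃ τ, volume (D.th '' Lt τ) ≠ 0 := by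
    by_contra hcon
    push Not at hcon
    exact h0 (measure_mono_null hcov (measure_iUnion_null hcon))
  have hτ' : volume (D.th '' Lt τ) ≠ ⊤ := by
    refine ne_top_of_le_ne_top h1 (measure_mono (image_mono (fun o ho => ho.1)))
  let X : Set G := {x | ∃ o ∈ Lt τ, x = D.s o}
  let t : G → ℝ := fun x => D.th (D.l x)
  have hX : t '' X = D.th '' Lt τ := by
    ext r
    constructor
    · rintro ⟨x, ⟨o, ho, rfl⟩, rfl⟩
      exact ⟨o, ho, by simp only [t]; rw [D.hs o ho.1]⟩
    · rintro ⟨o, ho, rfl⟩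
      exact ⟨D.s o, ⟨o, ho, rfl⟩, by simp only [t]; rw [D.hs o ho.1]⟩
  let F : G → C' × C' := fun x => (D.code x, D.code x⁻¹)
  let mB : MeasurableSpace G := MeasurableSpace.comap F inferInstance
  have hF : @Measurable G (C' × C') mB _ F := comap_measurable F
  have hcg : @MeasurableSpace.CountablyGenerated G mB := MeasurableSpace.CountablyGenerated.comap F
  let A : ℕ → Set G := @MeasurableSpace.natGeneratingSequence G mB hcg
  have hA : sig A = mB := @MeasurableSpace.generateFrom_natGeneratingSequence G mB hcg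
  refine ⟨A, ?_, ?_⟩
  · unfold MeasurableSeq
    refine exists_measure (sig A) X t ?_ (by rw [hX]; exact hτ) (by rw [hX]; exact hτ')
    intro S hS
    rw [hA] at hS
    obtain ⟨E, hE, rfl⟩ := hS
    refine ⟨{r | (D.Psi τ r, D.Psi' τ r) ∈ E}, ((D.m_Psi τ).prodMk (D.m_Psi' τ)) hE, ?_⟩
    rintro x ⟨o, ho, rfl⟩
    have e : F (D.s o) = (D.Psi τ (t (D.s o)), D.Psi' τ (t (D.s o))) := by
      simp only [F, t]
      rw [D.hs o ho.1, ho.2.1, ho.2.2]
    change F (D.s o) ∈ E ↔ (D.Psi τ (t (D.s o)), D.Psi' τ (t (D.s o))) ∈ E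
    rw [e]
  · unfold Borelian
    rw [hA]
    have e : {p : G × G × G | p.1 * p.2.1 = p.2.2} =
        {p | TT' (F p.1).1 (F p.2.1).1 (F p.2.2).2} := by
      ext p
      simp only [mem_ofPred_eq, F]
      rw [← D.TT_iff]
      exact (mul_inv_eq_one).symm
    rw [e]
    have p1 : @Measurable (G × G × G) G (mB.prod (mB.prod mB)) mB (fun p => p.1) :=
      @measurable_fst G (G × G) mB (mB.prod mB)
    have p2' : @Measurable (G × G × G) (G × G) (mB.prod (mB.prod mB)) (mB.prod mB)
        (fun p => p.2) := @measurable_snd G (G × G) mB (mB.prod mB)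
    have p2 : @Measurable (G × G × G) G (mB.prod (mB.prod mB)) mB (fun p => p.2.1) :=
      (@measurable_fst G G mB mB).comp p2'
    have p3 : @Measurable (G × G × G) G (mB.prod (mB.prod mB)) mB (fun p => p.2.2) :=
      (@measurable_snd G G mB mB).comp p2'
    exact @meas_TT' (G × G × G) (mB.prod (mB.prod mB)) _ _ _
      (measurable_fst.comp (hF.comp p1)) (measurable_fst.comp (hF.comp p2))
      (measurable_snd.comp (hF.comp p3))

end Data

end Pool.Agent.R592.Gp
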