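import Pool.Agent.R592.Gp.Final

set_option autoImplicit false

/-!
The same for a general finite atomless measure.
-/

namespace Pool.Agent.R592.Gp

open Set Cardinal MeasureTheory

/-- Trace of an outer measure. -/
lemma exists_measure_mu {E : Type} (ν : Measure ℝ) [NullSingletonClass ν] (m : MeasurableSpace E) (X : Set E) (t : E → ℝ)
    (hm : ∀ A, MeasurableSet[m] A → ∃ B : Set ℝ, MeasurableSet B ∧ ∀ x ∈ X, (x ∈ A ↔ t x ∈ B))
    (h0 : ν (t '' X) ≠ 0) (h1 : ν (t '' X) ≠ ⊤) :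
    ∃ μ : @Measure E m, μ univ = 1 ∧ ∀ x, MeasurableSet[m] {x} → μ {x} = 0 := by
  let m0 : OuterMeasure E :=
    OuterMeasure.restrict X (OuterMeasure.comap t ν.toOuterMeasure)
  have e0 : ∀ S, m0 S = ν (t '' (S ∩ X)) := by
    intro S
    simp [m0, OuterMeasure.restrict_apply, OuterMeasure.comap_apply]
  have hc : m ≤ m0.caratheodory := by
    intro A hA
    obtain ⟨B, hB, hAB⟩ := hm A hA
    rw [OuterMeasure.isCaratheodory_iff]
    intro S
    rw [e0, e0, e0]
    have a1 : t '' (S ∩ A ∩ X) = t '' (S ∩ X) ∩ B := by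
      ext r
      constructor
      · rintro ⟨x, ⟨⟨hx1, hx2⟩, hx3⟩, rfl⟩
        exact ⟨⟨x, ⟨hx1, hx3⟩, rfl⟩, (hAB x hx3).1 hx2⟩
      · rintro ⟨⟨x, ⟨hx1, hx3⟩, rfl⟩, hr⟩
        exact ⟨x, ⟨⟨hx1, (hAB x hx3).2 hr⟩, hx3⟩, rfl⟩
    have a2 : t '' (S \ A ∩ X) = t '' (S ∩ X) \ B := by
      ext r
      constructor
      · rintro ⟨x, ⟨⟨hx1, hx2⟩, hx3⟩, rfl⟩
        exact ⟨⟨x, ⟨hx1, hx3⟩, rfl⟩, fun k => hx2 ((hAB x hx3).2 k)⟩
      · rintro ⟨⟨x, ⟨hx1, hx3⟩, rfl⟩, hr⟩
        exact ⟨x, ⟨⟨hx1, fun k => hr ((hAB x hx3).1 k)⟩, hx3⟩, rfl⟩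
    rw [a1, a2, measure_inter_add_sdiff _ hB]
  let μ0 : @Measure E m := m0.toMeasure hc
  have e1 : ∀ S, MeasurableSet[m] S → μ0 S = ν (t '' (S ∩ X)) := by
    intro S hS
    rw [← e0]
    exact toMeasure_apply m0 hc hS
  refine ⟨(ν (t '' X))⁻¹ • μ0, ?_, ?_⟩
  · have := e1 univ MeasurableSet.univ
    rw [univ_inter] at this
    change (ν (t '' X))⁻¹ * μ0 univ = 1
    rw [this]
    exact ENNReal.inv_mul_cancel h0 h1
  · intro x hx
    have := e1 {x} hx
    change (ν (t '' X))⁻¹ * μ0 {x} = 0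
    rw [this]
    have h2 : ν (t '' ({x} ∩ X)) = 0 := by
      refine measure_mono_null (t := {t x}) ?_ (by simp)
      rintro r ⟨y, ⟨hy, -⟩, rfl⟩
      rw [mem_singleton_iff] at hy ⊢
      rw [hy]
    rw [h2, mul_zero]


namespace Data

variable {G : Type} [Group G] (D : Data G)

/-- The group of `D` is abstractly Borelian if the labels of the special levels form a set of
positive finite outer measure. -/
theorem abs_mu (ν : Measure ℝ) [NullSingletonClass ν] (h0 : ν (D.th '' D.L) ≠ 0) (h1 : ν (D.th '' D.L) ≠ ⊤) :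
    AbstractlyBorelian G := by
  let Lt : Bool × Bool × Bool → Set Ordinal.{0} := fun τ =>
    {o | o ∈ D.L ∧ D.code (D.s o) = D.Psi τ (D.th o) ∧ D.code (D.s o)⁻¹ = D.Psi' τ (D.th o)}
  have hcov : D.th '' D.L ⊆ ⋃ τ, D.th '' Lt τ := by
    rintro r ⟨o, ho, rfl⟩
    obtain ⟨τ, hτ⟩ := D.spec_code ho
    exact mem_iUnion.2 ⟨τ, o, ⟨ho, hτ⟩, rfl⟩
  obtain ⟨τ, hτ⟩ : ∃ τ, ν (D.th '' Lt τ) ≠ 0 := by
    by_contra hcon
    push Not at hcon
    exact h0 (measure_mono_null hcov (measure_iUnion_null hcon))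
  have hτ' : ν (D.th '' Lt τ) ≠ ⊤ := by
    refine ne_top_of_le_ne_top h1 (measure_mono (image_mono (fun o ho => ho.1)))
  let X : Set G := {x | ∃ o ∈ Lt τ, x = D.s o}
  let t : G → ℝ := fun x => D.th (D.l x)
  have hX : t '' X = D.th '' Lt τ := by
    ext r
    constructor
    · rintro ⟨x, ⟨o, ho, rfl⟩, rfl⟩
      exact ⟨o, ho, by simp only [t]; rw [D.hs o ho.1]⟩
    · rintro ⟨o, ho, rfl⟩
      exact ⟨D.s o, ⟨o, ho, rfl⟩, by simp only [t]; rw [D.hs o ho.1]⟩
  let F : G → C' × C' := fun x => (D.code x, D.code x⁻¹)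
  let mB : MeasurableSpace G := MeasurableSpace.comap F inferInstance
  have hF : @Measurable G (C' × C') mB _ F := comap_measurable F
  have hcg : @MeasurableSpace.CountablyGenerated G mB := MeasurableSpace.CountablyGenerated.comap F
  let A : ℕ → Set G := @MeasurableSpace.natGeneratingSequence G mB hcg
  have hA : sig A = mB := @MeasurableSpace.generateFrom_natGeneratingSequence G mB hcg
  refine ⟨A, ?_, ?_⟩
  · unfold MeasurableSeq
    refine exists_measure_mu ν (sig A) X t ?_ (by rw [hX]; exact hτ) (by rw [hX]; exact hτ')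
    intro S hS
    rw [hA] at hS
    obtain ⟨E, hE, rfl⟩ := hS
    refine ⟨{r | (D.Psi τ r, D.Psi' τ r) ∈ E}, ((D.m_Psi τ).prodMk (D.m_Psi' τ)) hE, ?_⟩
    rintro x ⟨o, ho, rfl⟩
    have e : F (D.s o) = (D.Psi τ (t (D.s o)), D.Psi' τ (t (D.s o))) := by
      simp only [F, t]
      rw [D.hs o ho.1, ho.2.1, ho.2.2]
    change F (D.s o) ∈ E ↔ (D.Psi τ (t (D.s o)), D.Psi' τ (t (D.s o))) ∈ E
    rw [e]
  · unfold Borelian
    rw [hA]
    have e : {p : G × G × G | p.1 * p.2.1 = p.2.2} =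
        {p | TT' (F p.1).1 (F p.2.1).1 (F p.2.2).2} := by
      ext p
      simp only [mem_ofPred_eq, F]
      rw [← D.TT_iff]
      exact (mul_inv_eq_one).symm
    rw [e]
    have p1 : @Measurable (G × G × G) G (mB.prod (mB.prod mB)) mB (fun p => p.1) :=
      @measurable_fst G (G × G) mB (mB.prod mB)
    have p2' : @Measurable (G × G × G) (G × G) (mB.prod (mB.prod mB)) (mB.prod mB)
        (fun p => p.2) := @measurable_snd G (G × G) mB (mB.prod mB)
    have p2 : @Measurable (G × G × G) G (mB.prod (mB.prod mB)) mB (fun p => p.2.1) :=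
      (@measurable_fst G G mB mB).comp p2'
    have p3 : @Measurable (G × G × G) G (mB.prod (mB.prod mB)) mB (fun p => p.2.2) :=
      (@measurable_snd G G mB mB).comp p2'
    exact @meas_TT' (G × G × G) (mB.prod (mB.prod mB)) _ _ _
      (measurable_fst.comp (hF.comp p1)) (measurable_fst.comp (hF.comp p2))
      (measurable_snd.comp (hF.comp p3))


end Data

variable {G : Type} [Group G]

theorem build_mu (ν : Measure ℝ) [NullSingletonClass ν] (hG : #G ≤ 𝔠) {κ : Cardinal.{0}} (hκ : ℵ₀ < κ) (b : G)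
    (dag : ∀ H : Subgroup G, #H < κ → ∃ z, z ∉ H ∧ (z * z = b ∨ z * z ∉ H))
    {Y : Set ℝ} (hY : #Y ≤ κ) (hY0 : ν Y ≠ 0) (hY1 : ν Y ≠ ⊤) :
    AbstractlyBorelian G := by
  classical
  obtain ⟨c, hc⟩ := coded_all _ hG G rfl
  obtain ⟨inj⟩ : Nonempty (G ↪ ℝ) := by
    rw [← mk_real] at hG
    exact (le_def G ℝ).1 hG
  let P : Subgroup G → G → Prop := fun H z => z ∉ H ∧ (z * z = b ∨ z * z ∉ H)
  have hsmall : ∀ i < κ.ord, #(Hs P i) < κ := fun i hi =>
    (card_Hs P i).trans_lt (max_lt hκ (lt_ord.1 hi))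
  have hx : ∀ i < κ.ord, P (Hs P i) (xs P i) := fun i hi => xs_spec P i (dag _ (hsmall i hi))
  let F : Ordinal.{0} → Subgroup G := fun o => if o ≤ κ.ord then Hs P o else ⊤
  have hF1 : ∀ o ≤ κ.ord, F o = Hs P o := fun o ho => if_pos ho
  have hF : Monotone F := by
    intro i k hik
    by_cases hk : k ≤ κ.ord
    · rw [hF1 k hk, hF1 i (hik.trans hk)]
      exact Hs_mono P hik
    · have : F k = ⊤ := if_neg hk
      rw [this]
      exact le_top
  have hU : ∀ x, ∃ o, x ∈ F o := fun x => ⟨Order.succ κ.ord, by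
    have : F (Order.succ κ.ord) = ⊤ := if_neg (not_le.2 (Order.lt_succ _))
    rw [this]; exact Subgroup.mem_top x⟩
  have hl : Lvl (lev F) := lvl_lev hF hU
  have hmem : ∀ z, z ∈ F (lev F z) := fun z => csInf_mem (s := {o | z ∈ F o}) (hU z)
  have hgt : ∀ i z, z ∉ F i → i < lev F z := by
    intro i z hz
    by_contra hcon
    exact hz (hF (not_lt.1 hcon) (hmem z))
  have l1 : ∀ i < κ.ord, lev F (xs P i) = Order.succ i := by
    intro i hi
    refine le_antisymm (csInf_le' ?_) (Order.succ_le_of_lt (hgt i _ ?_))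
    · change xs P i ∈ F (Order.succ i)
      rw [hF1 _ (Order.succ_le_of_lt hi)]
      exact xs_mem P i
    · rw [hF1 i hi.le]
      exact (hx i hi).1
  have l2 : lev F 1 = 0 := by
    refine le_antisymm (csInf_le' ?_) zero_le
    exact (F 0).one_mem
  -- labels
  obtain ⟨e⟩ : Nonempty (Y ↪ κ.out) := by
    rw [← mk_out κ] at hY
    exact (le_def _ _).1 hY
  obtain ⟨r, wo, hr⟩ := exists_ord_eq κ.out
  rw [mk_out] at hr
  let j : Y → Ordinal.{0} := fun y => Ordinal.typein r (e y)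
  have hj : Function.Injective j := fun y y' h =>
    e.injective (Ordinal.typein_injective r h)
  have hj' : ∀ y, j y < κ.ord := fun y => by
    have := Ordinal.typein_lt_type r (e y)
    rwa [← hr] at this
  let L : Set Ordinal.{0} := {o | ∃ y, o = Order.succ (j y)}
  let s : Ordinal.{0} → G := fun o => if h : ∃ i, o = Order.succ i then xs P (Classical.choose h)
    else 1
  have hs : ∀ i, s (Order.succ i) = xs P i := by
    intro i
    have h : ∃ k, Order.succ i = Order.succ k := ⟨i, rfl⟩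
    have h2 : i = Classical.choose h := Order.succ_injective (Classical.choose_spec h)
    simp only [s]
    rw [dif_pos h, ← h2]
  let th : Ordinal.{0} → ℝ := fun o => if h : ∃ y, o = Order.succ (j y) then
    (Classical.choose h : Y).1 else 0
  have hth : ∀ y, th (Order.succ (j y)) = y.1 := by
    intro y
    have h : ∃ y', Order.succ (j y) = Order.succ (j y') := ⟨y, rfl⟩
    have h2 : y = Classical.choose h :=
      hj (Order.succ_injective (Classical.choose_spec h))
    simp only [th]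
    rw [dif_pos h, ← h2]
  have hL : th '' L = Y := by
    ext r
    constructor
    · rintro ⟨o, ⟨y, rfl⟩, rfl⟩
      rw [hth]; exact y.2
    · intro hr
      exact ⟨_, ⟨⟨r, hr⟩, rfl⟩, hth ⟨r, hr⟩⟩
  obtain ⟨g0, hg0⟩ := exists_reps hl
  let D : Data G :=
    { l := lev F
      hl := hl
      L := L
      s := s
      th := th
      b := b
      hs := by
        rintro o ⟨y, rfl⟩
        rw [hs, l1 _ (hj' y)]
      h1 := by
        rintro o ⟨y, rfl⟩
        rw [l2]
        exact lt_of_le_of_lt zero_le (Order.lt_succ (j y))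
      hb := by
        rintro o ⟨y, rfl⟩
        rw [hs]
        rcases (hx _ (hj' y)).2 with h | h
        · exact Or.inl h
        · right
          refine le_antisymm ?_ (Order.succ_le_of_lt (hgt _ _ ?_))
          · refine (hl.mul _ _).trans ?_
            rw [max_self, l1 _ (hj' y)]
          · rw [hF1 _ (hj' y).le]
            exact h
      hth := by
        rintro o ⟨y, rfl⟩ o' ⟨y', rfl⟩ h
        rw [hth y, hth y'] at h
        rw [Subtype.ext h]
      inj := inj
      hinj := inj.injective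
      inner := c
      hinner := hc
      g0 := g0
      hg0 := hg0 }
  refine D.abs_mu ν ?_ ?_
  · change ν (th '' L) ≠ 0
    rw [hL]; exact hY0
  · change ν (th '' L) ≠ ⊤
    rw [hL]; exact hY1


lemma abs_small_mu (ν : Measure ℝ) [NullSingletonClass ν] [IsFiniteMeasure ν] (hG : #G = 𝔠) {Y : Set ℝ}
    (hY : #Y < 𝔠) (hY0 : ν Y ≠ 0) : AbstractlyBorelian G := by
  let κ : Cardinal.{0} := Order.succ (max ℵ₀ #Y)
  have hκ : ℵ₀ < κ := lt_of_le_of_lt (le_max_left _ _) (Order.lt_succ _)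
  have hreg : κ.IsRegular := isRegular_succ (le_max_left _ _)
  have hle : κ ≤ #G := by
    rw [hG]
    exact Order.succ_le_of_lt (max_lt aleph0_lt_continuum hY)
  obtain ⟨b, hb⟩ := dag_regular hκ hreg hle
  exact build_mu ν hG.le hκ b hb (Y := Y) ((le_max_right _ _).trans (Order.le_succ _)) hY0
    (measure_ne_top _ _)

end Pool.Agent.R592.Gp
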