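import Pool.Agent.R592.Gp.TopCode

set_option autoImplicit false

/-!
The top level code of a group: special elements carry only a label.
-/

namespace Pool.Agent.R592.Gp

open Set Cardinal

section top

variable {G : Type} [Group G] {l : G → Ordinal.{0}}

lemma rel_lvl {x y : G} (h : Rel l x y) : l x = l y := by
  rcases h with h | ⟨h, -⟩
  · rw [h]
  · exact h

open Classical in
/-- Representatives adapted to the special elements. -/
noncomputable def gr (l : G → Ordinal.{0}) (L : Set Ordinal.{0}) (s : Ordinal.{0} → G) (g0 : G → G)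
    (x : G) : G :=
  if l x ∈ L ∧ Rel l x (s (l x)) then s (l x)
  else if l x ∈ L ∧ Rel l x (s (l x))⁻¹ then (s (l x))⁻¹ else g0 x

lemma reps_gr (hl : Lvl l) (L : Set Ordinal.{0}) (s : Ordinal.{0} → G) {g0 : G → G}
    (h0 : Reps l g0) : Reps l (gr l L s g0) := by
  classical
  constructor
  · intro x
    unfold gr
    split_ifs with h1 h2
    · exact h1.2
    · exact h2.2
    · exact h0.rel x
  · intro x y h
    have e := rel_lvl h
    have e1 : (l x ∈ L ∧ Rel l x (s (l x))) ↔ (l y ∈ L ∧ Rel l y (s (l y))) := by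
      rw [e]
      exact and_congr_right (fun _ => ⟨fun k => rel_trans hl (rel_symm hl h) k,
        fun k => rel_trans hl h k⟩)
    have e2 : (l x ∈ L ∧ Rel l x (s (l x))⁻¹) ↔ (l y ∈ L ∧ Rel l y (s (l y))⁻¹) := by
      rw [e]
      exact and_congr_right (fun _ => ⟨fun k => rel_trans hl (rel_symm hl h) k,
        fun k => rel_trans hl h k⟩)
    unfold gr
    by_cases h1 : l x ∈ L ∧ Rel l x (s (l x))
    · rw [if_pos h1, if_pos (e1.1 h1), e]
    · rw [if_neg h1, if_neg (fun k => h1 (e1.2 k))]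
      by_cases h2 : l x ∈ L ∧ Rel l x (s (l x))⁻¹
      · rw [if_pos h2, if_pos (e2.1 h2), e]
      · rw [if_neg h2, if_neg (fun k => h2 (e2.2 k))]
        exact h0.eq x y h

/-- Data for the top level. -/
structure Data (G : Type) [Group G] where
  l : G → Ordinal.{0}
  hl : Lvl l
  L : Set Ordinal.{0}
  s : Ordinal.{0} → G
  th : Ordinal.{0} → ℝ
  b : G
  hs : ∀ o ∈ L, l (s o) = o
  h1 : ∀ o ∈ L, l 1 < o
  hb : ∀ o ∈ L, s o * s o = b ∨ l (s o * s o) = o
  hth : InjOn th L
  inj : G → ℝ
  hinj : Function.Injective inj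
  inner : G → C
  hinner : ∀ x y z : G, x * y * z = 1 ↔ TT (inner x) (inner y) (inner z)
  g0 : G → G
  hg0 : Reps l g0

namespace Data

variable (D : Data G)

/-- Representatives. -/
noncomputable def g : G → G := gr D.l D.L D.s D.g0

lemma hg : Reps D.l D.g := reps_gr D.hl D.L D.s D.hg0

open Classical in
/-- Level label. -/
noncomputable def LL (x : G) : ℝ × ℕ :=
  if D.l x ∈ D.L then (D.th (D.l x), 0) else (D.inj (rl D.l (D.l x)), 1)

open Classical in
/-- Class label of a representative. -/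
noncomputable def CL (x : G) : ℝ × ℕ :=
  if D.l x ∈ D.L ∧ x = D.s (D.l x) then (D.th (D.l x), 0)
  else if D.l x ∈ D.L ∧ x = (D.s (D.l x))⁻¹ then (D.th (D.l x), 1) else (D.inj x, 2)

open Classical in
/-- The flag. -/
noncomputable def fl (x : G) : ℕ :=
  if D.l x ∈ D.L ∧ x = D.s (D.l x) then 1
  else if D.l x ∈ D.L ∧ x = (D.s (D.l x))⁻¹ then 2 else 0

open Classical in
/-- The root data. -/
noncomputable def root (x : G) : R' :=
  ((D.LL x, D.CL (D.g x), D.CL (D.g x⁻¹)),
    (decide (D.l 1 < D.l x), D.fl x, decide (D.s (D.l x) * D.s (D.l x) * D.s (D.l x) = 1)),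
    if D.fl x = 0 then (D.inner x, D.inner (D.s (D.l x)), D.inner (D.s (D.l x))⁻¹) else default)

open Classical in
/-- The code of an element. -/
noncomputable def code {G : Type} [Group G] (D : Data G) (x : G) : C' :=
  node' (D.root x)
    (if _h : D.l (x * (D.g x)⁻¹) < D.l x then code D (x * (D.g x)⁻¹) else default)
    (if _h : D.l (D.g x⁻¹ * x) < D.l x then code D (D.g x⁻¹ * x) else default)
termination_by D.l x

lemma code_nil (x : G) : D.code x [] = D.root x := by
  rw [code]; simp

lemma code_eq {x : G} (hx : D.l 1 < D.l x) :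
    D.code x = node' (D.root x) (D.code (x * (D.g x)⁻¹)) (D.code (D.g x⁻¹ * x)) := by
  conv_lhs => rw [code]
  rw [dif_pos (lt_a D.hl D.hg hx), dif_pos (lt_a' D.hl D.hg hx)]

lemma code_sh0 {x : G} (hx : D.l 1 < D.l x) : sh' 0 (D.code x) = D.code (x * (D.g x)⁻¹) := by
  rw [D.code_eq hx]; rfl

lemma code_sh1 {x : G} (hx : D.l 1 < D.l x) : sh' 1 (D.code x) = D.code (D.g x⁻¹ * x) := by
  rw [D.code_eq hx]; rfl

lemma LL_inj {x y : G} (h : D.LL x = D.LL y) : D.l x = D.l y := by
  unfold LL at h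
  split_ifs at h with h1 h2 h2
  · exact D.hth h1 h2 (Prod.ext_iff.1 h).1
  · exact absurd (Prod.ext_iff.1 h).2 (by simp)
  · exact absurd (Prod.ext_iff.1 h).2 (by simp)
  · have := D.hinj (Prod.ext_iff.1 h).1
    rw [← rl_spec D.l x, ← rl_spec D.l y, this]

lemma LL_congr {x y : G} (h : D.l x = D.l y) : D.LL x = D.LL y := by
  unfold LL
  rw [h]

lemma CL_inj {x y : G} (h : D.CL x = D.CL y) : x = y := by
  unfold CL at h
  split_ifs at h with h1 h2 h3 h2 h3 h4 h5 h6
  · have := D.hth h1.1 h2.1 (Prod.ext_iff.1 h).1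
    rw [h1.2, h2.2, this]
  · exact absurd (Prod.ext_iff.1 h).2 (by simp)
  · exact absurd (Prod.ext_iff.1 h).2 (by simp)
  · exact absurd (Prod.ext_iff.1 h).2 (by simp)
  · have := D.hth h2.1 h4.1 (Prod.ext_iff.1 h).1
    rw [h2.2, h4.2, this]
  · exact absurd (Prod.ext_iff.1 h).2 (by simp)
  · exact absurd (Prod.ext_iff.1 h).2 (by simp)
  · exact absurd (Prod.ext_iff.1 h).2 (by simp)
  · exact D.hinj (Prod.ext_iff.1 h).1

lemma fl_cases (x : G) : D.fl x = 0 ∨ (D.fl x = 1 ∧ D.l x ∈ D.L ∧ x = D.s (D.l x)) ∨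
    (D.fl x = 2 ∧ D.l x ∈ D.L ∧ x = (D.s (D.l x))⁻¹) := by
  unfold fl
  split_ifs with h1 h2
  · exact Or.inr (Or.inl ⟨rfl, h1⟩)
  · exact Or.inr (Or.inr ⟨rfl, h2⟩)
  · exact Or.inl rfl

lemma see_eq {p q : G} (hp : D.fl p = 0) (h : D.l q = D.l p) :
    see (D.root p) (D.root q) = D.inner q := by
  have e1 : fla (D.root q) = D.fl q := rfl
  have e2 : st1 (D.root p) = D.inner (D.s (D.l p)) := by
    change (if D.fl p = 0 then (D.inner p, D.inner (D.s (D.l p)), D.inner (D.s (D.l p))⁻¹)
      else default).2.1 = _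
    rw [if_pos hp]
  have e3 : st2 (D.root p) = D.inner (D.s (D.l p))⁻¹ := by
    change (if D.fl p = 0 then (D.inner p, D.inner (D.s (D.l p)), D.inner (D.s (D.l p))⁻¹)
      else default).2.2 = _
    rw [if_pos hp]
  unfold see
  rw [e1]
  rcases D.fl_cases q with h0 | ⟨h0, -, h2⟩ | ⟨h0, -, h2⟩
  · rw [if_pos h0]
    change (if D.fl q = 0 then (D.inner q, D.inner (D.s (D.l q)), D.inner (D.s (D.l q))⁻¹)
      else default).1 = _
    rw [if_pos h0]
  · rw [if_neg (by rw [h0]; simp), if_pos h0, e2, ← h, ← h2]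
  · rw [if_neg (by rw [h0]; simp), if_neg (by rw [h0]; simp), e3, ← h, ← h2]

open Classical in
lemma dec_iff {x y z : G} (hxy : D.l x = D.l y) (hyz : D.l y = D.l z) :
    Dec (D.root x) (D.root y) (D.root z) ↔ x * y * z = 1 := by
  have fx : ∀ q, fla (D.root q) = D.fl q := fun q => rfl
  have bx : bit (D.root x) = decide (D.s (D.l x) * D.s (D.l x) * D.s (D.l x) = 1) := rfl
  constructor
  · rintro ((⟨h0, h⟩ | ⟨h0, h⟩ | ⟨h0, h⟩) | ⟨h0, h1, h2, h3⟩)
    · rw [D.see_eq h0 rfl, D.see_eq h0 hxy.symm, D.see_eq h0 (hxy.trans hyz).symm] at h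
      exact (D.hinner x y z).2 h
    · rw [D.see_eq h0 rfl, D.see_eq h0 hxy, D.see_eq h0 hyz.symm] at h
      exact (D.hinner x y z).2 h
    · rw [D.see_eq h0 rfl, D.see_eq h0 hyz, D.see_eq h0 (hxy.trans hyz)] at h
      exact (D.hinner x y z).2 h
    · rw [fx] at h0
      rw [fx, fx] at h1 h2
      rw [bx] at h3
      have h3' : D.s (D.l x) * D.s (D.l x) * D.s (D.l x) = 1 := of_decide_eq_true h3
      rcases D.fl_cases x with k | ⟨k, -, kx⟩ | ⟨k, -, kx⟩
      · exact absurd k h0
      · rcases D.fl_cases y with k' | ⟨k', -, ky⟩ | ⟨k', -, ky⟩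
        · rw [k, k'] at h1; exact absurd h1 (by simp)
        · rcases D.fl_cases z with k'' | ⟨k'', -, kz⟩ | ⟨k'', -, kz⟩
          · rw [k', k''] at h2; exact absurd h2 (by simp)
          · rw [← hxy] at ky
            rw [← hyz, ← hxy] at kz
            have e : x * y * z = D.s (D.l x) * D.s (D.l x) * D.s (D.l x) :=
              congrArg₂ (· * ·) (congrArg₂ (· * ·) kx ky) kz
            rw [e]; exact h3'
          · rw [k', k''] at h2; exact absurd h2 (by simp)
        · rw [k, k'] at h1; exact absurd h1 (by simp)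
      · rcases D.fl_cases y with k' | ⟨k', -, ky⟩ | ⟨k', -, ky⟩
        · rw [k, k'] at h1; exact absurd h1 (by simp)
        · rw [k, k'] at h1; exact absurd h1 (by simp)
        · rcases D.fl_cases z with k'' | ⟨k'', -, kz⟩ | ⟨k'', -, kz⟩
          · rw [k', k''] at h2; exact absurd h2 (by simp)
          · rw [k', k''] at h2; exact absurd h2 (by simp)
          · rw [← hxy] at ky
            rw [← hyz, ← hxy] at kz
            have e : x * y * z = (D.s (D.l x))⁻¹ * (D.s (D.l x))⁻¹ * (D.s (D.l x))⁻¹ :=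
              congrArg₂ (· * ·) (congrArg₂ (· * ·) kx ky) kz
            have e' : (D.s (D.l x))⁻¹ * (D.s (D.l x))⁻¹ * (D.s (D.l x))⁻¹ =
              (D.s (D.l x) * D.s (D.l x) * D.s (D.l x))⁻¹ := by group
            rw [e, e', h3', inv_one]
  · intro h
    by_cases h0 : D.fl x = 0
    · refine Or.inl (Or.inl ⟨h0, ?_⟩)
      rw [D.see_eq h0 rfl, D.see_eq h0 hxy.symm, D.see_eq h0 (hxy.trans hyz).symm]
      exact (D.hinner x y z).1 h
    by_cases h1 : D.fl y = 0
    · refine Or.inl (Or.inr (Or.inl ⟨h1, ?_⟩))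
      rw [D.see_eq h1 rfl, D.see_eq h1 hxy, D.see_eq h1 hyz.symm]
      exact (D.hinner x y z).1 h
    by_cases h2 : D.fl z = 0
    · refine Or.inl (Or.inr (Or.inr ⟨h2, ?_⟩))
      rw [D.see_eq h2 rfl, D.see_eq h2 hyz, D.see_eq h2 (hxy.trans hyz)]
      exact (D.hinner x y z).1 h
    refine Or.inr ?_
    rw [fx, fx, fx, bx]
    have hne : D.l x ∈ D.L → D.s (D.l x) ≠ 1 := by
      intro hL he
      have h3 := D.hs _ hL
      have h4 := D.h1 _ hL
      rw [he] at h3
      rw [h3] at h4
      exact lt_irrefl _ h4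
    rcases D.fl_cases x with k | ⟨k, kL, kx⟩ | ⟨k, kL, kx⟩
    · exact absurd k h0
    · rcases D.fl_cases y with k' | ⟨k', -, ky⟩ | ⟨k', -, ky⟩
      · exact absurd k' h1
      · rcases D.fl_cases z with k'' | ⟨k'', -, kz⟩ | ⟨k'', -, kz⟩
        · exact absurd k'' h2
        · rw [← hxy] at ky
          rw [← hyz, ← hxy] at kz
          have e : x * y * z = D.s (D.l x) * D.s (D.l x) * D.s (D.l x) :=
            congrArg₂ (· * ·) (congrArg₂ (· * ·) kx ky) kz
          rw [e] at h
          exact ⟨h0, by rw [k, k'], by rw [k', k''], decide_eq_true h⟩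
        · exfalso
          rw [← hxy] at ky
          rw [← hyz, ← hxy] at kz
          have e : x * y * z = D.s (D.l x) * D.s (D.l x) * (D.s (D.l x))⁻¹ :=
            congrArg₂ (· * ·) (congrArg₂ (· * ·) kx ky) kz
          rw [e] at h
          refine hne kL ?_
          rwa [mul_inv_cancel_right] at h
      · exfalso
        rw [← hxy] at ky
        rcases D.fl_cases z with k'' | ⟨k'', -, kz⟩ | ⟨k'', -, kz⟩
        · exact absurd k'' h2
        · rw [← hyz, ← hxy] at kz
          have e : x * y * z = D.s (D.l x) * (D.s (D.l x))⁻¹ * (D.s (D.l x)) :=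
            congrArg₂ (· * ·) (congrArg₂ (· * ·) kx ky) kz
          rw [e, mul_inv_cancel, one_mul] at h
          exact hne kL h
        · rw [← hyz, ← hxy] at kz
          have e : x * y * z = D.s (D.l x) * (D.s (D.l x))⁻¹ * (D.s (D.l x))⁻¹ :=
            congrArg₂ (· * ·) (congrArg₂ (· * ·) kx ky) kz
          rw [e, mul_inv_cancel, one_mul, inv_eq_one] at h
          exact hne kL h
    · rcases D.fl_cases y with k' | ⟨k', -, ky⟩ | ⟨k', -, ky⟩
      · exact absurd k' h1
      · exfalso
        rw [← hxy] at ky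
        rcases D.fl_cases z with k'' | ⟨k'', -, kz⟩ | ⟨k'', -, kz⟩
        · exact absurd k'' h2
        · rw [← hyz, ← hxy] at kz
          have e : x * y * z = (D.s (D.l x))⁻¹ * (D.s (D.l x)) * (D.s (D.l x)) :=
            congrArg₂ (· * ·) (congrArg₂ (· * ·) kx ky) kz
          rw [e, inv_mul_cancel, one_mul] at h
          exact hne kL h
        · rw [← hyz, ← hxy] at kz
          have e : x * y * z = (D.s (D.l x))⁻¹ * (D.s (D.l x)) * (D.s (D.l x))⁻¹ :=
            congrArg₂ (· * ·) (congrArg₂ (· * ·) kx ky) kz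
          rw [e, inv_mul_cancel, one_mul, inv_eq_one] at h
          exact hne kL h
      · rw [← hxy] at ky
        rcases D.fl_cases z with k'' | ⟨k'', -, kz⟩ | ⟨k'', -, kz⟩
        · exact absurd k'' h2
        · exfalso
          rw [← hyz, ← hxy] at kz
          have e : x * y * z = (D.s (D.l x))⁻¹ * (D.s (D.l x))⁻¹ * (D.s (D.l x)) :=
            congrArg₂ (· * ·) (congrArg₂ (· * ·) kx ky) kz
          rw [e, inv_mul_cancel_right, inv_eq_one] at h
          exact hne kL h
        · rw [← hyz, ← hxy] at kz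
          have e : x * y * z = (D.s (D.l x))⁻¹ * (D.s (D.l x))⁻¹ * (D.s (D.l x))⁻¹ :=
            congrArg₂ (· * ·) (congrArg₂ (· * ·) kx ky) kz
          have e' : (D.s (D.l x))⁻¹ * (D.s (D.l x))⁻¹ * (D.s (D.l x))⁻¹ =
            (D.s (D.l x) * D.s (D.l x) * D.s (D.l x))⁻¹ := by group
          rw [e, e', inv_eq_one] at h
          exact ⟨h0, by rw [k, k'], by rw [k', k''], decide_eq_true h⟩

/-- The top code recognises triples with product one. -/
lemma TT_iff (x y z : G) : x * y * z = 1 ↔ TT' (D.code x) (D.code y) (D.code z) := by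
  have sound : ∀ n x y z, T' n (D.code x) (D.code y) (D.code z) → x * y * z = 1 := by
    intro n
    induction n with
    | zero => intro x y z h; exact h.elim
    | succ n ih =>
      intro x y z h
      rcases h with h | ⟨h, h'⟩ | ⟨h, h'⟩
      · exact rot_one (ih y z x h)
      · rw [D.code_nil, D.code_nil, D.code_nil] at h h'
        exact (D.dec_iff (D.LL_inj h.1) (D.LL_inj h.2)).1 h'
      · rw [D.code_nil, D.code_nil] at h
        obtain ⟨h4, h5, h6⟩ := h
        have h7 : D.l 1 < D.l x := of_decide_eq_true h4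
        have h8 : D.l 1 < D.l y := of_decide_eq_true h5
        have h9 : D.g x = D.g y⁻¹ := D.CL_inj h6
        rw [D.code_sh0 h7, D.code_sh1 h8] at h'
        exact cls_sound h9 (ih _ _ _ h')
  have complete : ∀ o : Ordinal.{0}, ∀ x y z, max (D.l x) (max (D.l y) (D.l z)) = o →
      x * y * z = 1 → TT' (D.code x) (D.code y) (D.code z) := by
    intro o
    induction o using WellFoundedLT.induction with
    | ind o ih =>
      intro x y z ho h
      have main : ∀ x y z, D.l x ≤ o → x * y * z = 1 → D.l x = D.l y → D.l z < D.l x →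
          TT' (D.code x) (D.code y) (D.code z) := by
        intro x y z hxo h hxy hz
        obtain ⟨h1, h2⟩ := cls_complete D.hl D.hg h hxy hz
        have h7 : D.l 1 < D.l x := (D.hl.one_le z).trans_lt hz
        have h8 : D.l 1 < D.l y := by rw [← hxy]; exact h7
        refine TT'_cls ?_ ?_
        · rw [D.code_nil, D.code_nil]
          refine ⟨decide_eq_true h7, decide_eq_true h8, ?_⟩
          change D.CL (D.g x) = D.CL (D.g y⁻¹)
          rw [h1]
        · rw [D.code_sh0 h7, D.code_sh1 h8]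
          refine ih _ ?_ _ _ _ rfl h2
          refine lt_of_lt_of_le ?_ hxo
          refine max_lt hz (max_lt (lt_a D.hl D.hg h7) ?_)
          rw [hxy]
          exact lt_a' D.hl D.hg h8
      rcases cases_top D.hl h with ⟨h1, h2⟩ | ⟨h1, h2⟩ | ⟨h1, h2⟩ | ⟨h1, h2⟩
      · refine TT'_same ?_ ?_
        · rw [D.code_nil, D.code_nil, D.code_nil]
          exact ⟨D.LL_congr h1, D.LL_congr h2⟩
        · rw [D.code_nil, D.code_nil, D.code_nil]
          exact (D.dec_iff h1 h2).2 h
      · exact main x y z (by rw [← ho]; exact le_max_left _ _) h h1 h2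
      · refine TT'_rot (main y z x ?_ (rot_one (rot_one h)) h1 h2)
        rw [← ho]
        exact (le_max_left _ _).trans (le_max_right _ _)
      · refine TT'_rot (TT'_rot (main z x y ?_ (rot_one h) h1 h2))
        rw [← ho]
        exact (le_max_right _ _).trans (le_max_right _ _)
  constructor
  · intro h
    exact complete _ x y z rfl h
  · rintro ⟨n, hn⟩
    exact sound n x y z hn

end Data

end top

end Pool.Agent.R592.Gp
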