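import Pool.Agent.R592.Gp.Lower

set_option autoImplicit false

/-!
Codes for the top level: special elements carry only a label.
-/

namespace Pool.Agent.R592.Gp

open Set Cardinal

/-- Root data of a top code: (level label, class label, inverse class label), (guard, flag, bit),
(inner code, inner code of the special element, inner code of its inverse). -/
abbrev R' : Type := ((ℝ × ℕ) × (ℝ × ℕ) × (ℝ × ℕ)) × (Bool × ℕ × Bool) × (C × C × C)

/-- Top codes. -/
abbrev C' : Type := List (Fin 2) → R'

noncomputable instance instMR' : MeasurableSpace R' := inferInstance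

noncomputable instance instMC' : MeasurableSpace C' := MeasurableSpace.pi

/-- Children. -/
def sh' (i : Fin 2) (u : C') : C' := fun w => u (i :: w)

/-- The code with given root and children. -/
def node' (r : R') (u0 u1 : C') : C'
  | [] => r
  | i :: w => match i with
    | 0 => u0 w
    | 1 => u1 w

@[simp] lemma node'_nil (r : R') (u0 u1 : C') : node' r u0 u1 [] = r := rfl
@[simp] lemma sh_node'0 (r : R') (u0 u1 : C') : sh' 0 (node' r u0 u1) = u0 := rfl
@[simp] lemma sh_node'1 (r : R') (u0 u1 : C') : sh' 1 (node' r u0 u1) = u1 := rfl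

lemma measurable_sh' (i : Fin 2) : Measurable (sh' i) :=
  measurable_pi_lambda _ (fun w => measurable_pi_apply (i :: w))

lemma measurable_node' {r : ℝ → R'} (hr : Measurable r) (u0 u1 : C') :
    Measurable (fun t => node' (r t) u0 u1) := by
  refine measurable_pi_lambda _ (fun w => ?_)
  rcases w with _ | ⟨i, w⟩
  · exact hr
  · fin_cases i
    · exact measurable_const
    · exact measurable_const

/-- Level label. -/
def lab (r : R') : ℝ × ℕ := r.1.1
/-- Class label. -/
def cla (r : R') : ℝ × ℕ := r.1.2.1
/-- Class label of the inverse. -/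
def cli (r : R') : ℝ × ℕ := r.1.2.2
/-- Guard. -/
def gua (r : R') : Bool := r.2.1.1
/-- Flag: 0 for ordinary, 1 for special, 2 for inverse of special. -/
def fla (r : R') : ℕ := r.2.1.2.1
/-- Bit: the cube of the special element is one. -/
def bit (r : R') : Bool := r.2.1.2.2
/-- Inner code. -/
def inn (r : R') : C := r.2.2.1
/-- Inner code of the special element. -/
def st1 (r : R') : C := r.2.2.2.1
/-- Inner code of the inverse of the special element. -/
def st2 (r : R') : C := r.2.2.2.2

/-- The inner code of `q` as seen from `p`. -/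
noncomputable def see (p q : R') : C :=
  if fla q = 0 then inn q else if fla q = 1 then st1 p else st2 p

/-- Decision on a triple in the same level. -/
def Dec (u v w : R') : Prop :=
  ((fla u = 0 ∧ TT (see u u) (see u v) (see u w)) ∨ (fla v = 0 ∧ TT (see v u) (see v v) (see v w)) ∨
    (fla w = 0 ∧ TT (see w u) (see w v) (see w w))) ∨
  (fla u ≠ 0 ∧ fla u = fla v ∧ fla v = fla w ∧ bit u = true)

/-- Same level. -/
def Same' (u v w : R') : Prop := lab u = lab v ∧ lab v = lab w

/-- Same class. -/
def Cls' (u v : R') : Prop := gua u = true ∧ gua v = true ∧ cla u = cli v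

/-- The relation on top codes. -/
def T' : ℕ → C' → C' → C' → Prop
  | 0, _, _, _ => False
  | n + 1, u, v, w => T' n v w u ∨ (Same' (u []) (v []) (w []) ∧ Dec (u []) (v []) (w [])) ∨
      (Cls' (u []) (v []) ∧ T' n w (sh' 0 u) (sh' 1 v))

/-- The union of the relations `T' n`. -/
def TT' (u v w : C') : Prop := ∃ n, T' n u v w

section meas

variable {Ω : Type} [MeasurableSpace Ω]

lemma meas_root' {f : Ω → C'} (hf : Measurable f) : Measurable (fun x => f x []) :=
  (measurable_pi_apply []).comp hf

lemma m_lab : Measurable lab := measurable_fst.comp measurable_fst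
lemma m_cla : Measurable cla := measurable_fst.comp (measurable_snd.comp measurable_fst)
lemma m_cli : Measurable cli := measurable_snd.comp (measurable_snd.comp measurable_fst)
lemma m_gua : Measurable gua := measurable_fst.comp (measurable_fst.comp measurable_snd)
lemma m_fla : Measurable fla :=
  measurable_fst.comp (measurable_snd.comp (measurable_fst.comp measurable_snd))
lemma m_bit : Measurable bit :=
  measurable_snd.comp (measurable_snd.comp (measurable_fst.comp measurable_snd))
lemma m_inn : Measurable inn := measurable_fst.comp (measurable_snd.comp measurable_snd)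
lemma m_st1 : Measurable st1 :=
  measurable_fst.comp (measurable_snd.comp (measurable_snd.comp measurable_snd))
lemma m_st2 : Measurable st2 :=
  measurable_snd.comp (measurable_snd.comp (measurable_snd.comp measurable_snd))

lemma meas_eqR {f g : Ω → ℝ × ℕ} (hf : Measurable f) (hg : Measurable g) :
    MeasurableSet {x | f x = g x} := by
  have e : {x | f x = g x} = {x | (f x).1 = (g x).1} ∩ ⋃ n : ℕ, ({x | (f x).2 = n} ∩
      {x | (g x).2 = n}) := by
    ext x
    simp only [mem_inter_iff, mem_iUnion, mem_ofPred_eq]
    constructor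
    · intro h
      rw [h]
      exact ⟨rfl, _, rfl, rfl⟩
    · rintro ⟨h1, n, h2, h3⟩
      exact Prod.ext h1 (h2.trans h3.symm)
  rw [e]
  refine (measurableSet_eq_fun (measurable_fst.comp hf) (measurable_fst.comp hg)).inter
    (MeasurableSet.iUnion (fun n => ?_))
  exact ((measurable_snd.comp hf) (measurableSet_singleton n)).inter
    ((measurable_snd.comp hg) (measurableSet_singleton n))

lemma m_see {f g : Ω → R'} (hf : Measurable f) (hg : Measurable g) :
    Measurable (fun x => see (f x) (g x)) := by
  unfold see
  refine Measurable.ite ((m_fla.comp hg) (measurableSet_singleton 0)) (m_inn.comp hg) ?_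
  exact Measurable.ite ((m_fla.comp hg) (measurableSet_singleton 1)) (m_st1.comp hf)
    (m_st2.comp hf)

lemma meas_Dec {f g h : Ω → R'} (hf : Measurable f) (hg : Measurable g) (hh : Measurable h) :
    MeasurableSet {x | Dec (f x) (g x) (h x)} := by
  have z : ∀ {φ : Ω → R'}, Measurable φ → MeasurableSet {x | fla (φ x) = 0} := fun hφ =>
    (m_fla.comp hφ) (measurableSet_singleton 0)
  have eqn : ∀ {φ ψ : Ω → R'}, Measurable φ → Measurable ψ →
      MeasurableSet {x | fla (φ x) = fla (ψ x)} := by
    intro φ ψ hφ hψ
    have e : {x | fla (φ x) = fla (ψ x)} = ⋃ n : ℕ, ({x | fla (φ x) = n} ∩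
        {x | fla (ψ x) = n}) := by
      ext x
      simp only [mem_inter_iff, mem_iUnion, mem_ofPred_eq]
      constructor
      · intro h; exact ⟨_, h, rfl⟩
      · rintro ⟨n, h1, h2⟩; exact h1.trans h2.symm
    rw [e]
    exact MeasurableSet.iUnion (fun n => ((m_fla.comp hφ) (measurableSet_singleton n)).inter
      ((m_fla.comp hψ) (measurableSet_singleton n)))
  refine MeasurableSet.union (MeasurableSet.union ?_ (MeasurableSet.union ?_ ?_)) ?_
  · exact (z hf).inter (meas_TT (m_see hf hf) (m_see hf hg) (m_see hf hh))
  · exact (z hg).inter (meas_TT (m_see hg hf) (m_see hg hg) (m_see hg hh))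
  · exact (z hh).inter (meas_TT (m_see hh hf) (m_see hh hg) (m_see hh hh))
  · exact (z hf).compl.inter ((eqn hf hg).inter ((eqn hg hh).inter
      ((m_bit.comp hf) (measurableSet_singleton true))))

lemma meas_T' (n : ℕ) : ∀ {f g h : Ω → C'}, Measurable f → Measurable g → Measurable h →
    MeasurableSet {x | T' n (f x) (g x) (h x)} := by
  induction n with
  | zero =>
    intro f g h _ _ _
    have : {x | T' 0 (f x) (g x) (h x)} = ∅ := by
      ext x; simp [T']
    rw [this]
    exact MeasurableSet.empty
  | succ n ih =>
    intro f g h hf hg hh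
    have hf' := meas_root' hf
    have hg' := meas_root' hg
    have hh' := meas_root' hh
    refine MeasurableSet.union (ih hg hh hf) (MeasurableSet.union ?_ ?_)
    · exact ((meas_eqR (m_lab.comp hf') (m_lab.comp hg')).inter
        (meas_eqR (m_lab.comp hg') (m_lab.comp hh'))).inter (meas_Dec hf' hg' hh')
    · exact (((m_gua.comp hf') (measurableSet_singleton true)).inter
        (((m_gua.comp hg') (measurableSet_singleton true)).inter
          (meas_eqR (m_cla.comp hf') (m_cli.comp hg')))).inter
        (ih hh ((measurable_sh' 0).comp hf) ((measurable_sh' 1).comp hg))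

lemma meas_TT' {f g h : Ω → C'} (hf : Measurable f) (hg : Measurable g) (hh : Measurable h) :
    MeasurableSet {x | TT' (f x) (g x) (h x)} := by
  have e : {x | TT' (f x) (g x) (h x)} = ⋃ n, {x | T' n (f x) (g x) (h x)} := by
    ext x; simp [TT']
  rw [e]
  exact MeasurableSet.iUnion (fun n => meas_T' n hf hg hh)

end meas

lemma TT'_rot {u v w : C'} (h : TT' v w u) : TT' u v w := by
  obtain ⟨n, hn⟩ := h
  exact ⟨n + 1, Or.inl hn⟩

lemma TT'_same {u v w : C'} (h : Same' (u []) (v []) (w [])) (h' : Dec (u []) (v []) (w [])) :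
    TT' u v w := ⟨1, Or.inr (Or.inl ⟨h, h'⟩)⟩

lemma TT'_cls {u v w : C'} (h : Cls' (u []) (v [])) (h' : TT' w (sh' 0 u) (sh' 1 v)) :
    TT' u v w := by
  obtain ⟨n, hn⟩ := h'
  exact ⟨n + 1, Or.inr (Or.inr ⟨h, hn⟩)⟩

end Pool.Agent.R592.Gp
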